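import Mathlib

/-!
Padé forms: integer coefficients of the diagonal Padé approximants of `(1 - z)^(1/q)`.
-/

namespace Pool.Agent.H374R2.T

open Finset

/-- The integer `q^(2n) * binom(n + s/q, k)` (exact division when `k ≤ n` and `q` is prime). -/
def cf (q n : ℕ) (s : ℤ) (k : ℕ) : ℤ :=
  ((q : ℤ) ^ (2 * n - k) * ∏ j ∈ range k, ((q : ℤ) * n + s - j * q)) / (k.factorial : ℤ)

/-- The homogeneous Padé form. -/
def pf (q n : ℕ) (s X T : ℤ) : ℤ :=
  ∑ k ∈ range (n + 1), cf q n s k * (Nat.choose (2 * n - k) n : ℤ) * (-T) ^ k * X ^ (n - k)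

end Pool.Agent.H374R2.T
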