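import Mathlib
import Pool.Agent.H374R2.T.Defs

set_option autoImplicit false

namespace Pool.Agent.H374R2.T.TaskP2

open Finset Pool.Agent.H374R2.T

/-- `k! * binom(r, k) = ∏_{j<k} (r - j)` -/
theorem fact_choose {R : Type*} [CommRing R] [BinomialRing R] (r : R) (k : ℕ) :
    (k.factorial : R) * Ring.choose r k = ∏ j ∈ range k, (r - j) := by
  have h := Ring.descPochhammer_eq_factorial_smul_choose r k
  rw [nsmul_eq_mul] at h
  rw [← h]
  clear h
  induction k with
  | zero => simp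
  | succ k ih =>
    rw [prod_range_succ, ← ih, descPochhammer_succ_right, Polynomial.smeval_mul,
      Polynomial.smeval_sub, Polynomial.smeval_X, Polynomial.smeval_natCast]
    simp

theorem prod_sub_dvd {ι : Type*} [DecidableEq ι] (t : Finset ι) (f g : ι → ℤ) (m : ℤ)
    (h : ∀ j ∈ t, m ∣ f j - g j) : m ∣ ∏ j ∈ t, f j - ∏ j ∈ t, g j := by
  induction t using Finset.induction_on with
  | empty => simp
  | insert a t ha ih =>
    rw [prod_insert ha, prod_insert ha]
    have h1 := h a (mem_insert_self a t)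
    have h2 := ih (fun j hj => h j (mem_insert_of_mem hj))
    have e : f a * ∏ j ∈ t, f j - g a * ∏ j ∈ t, g j =
        (f a - g a) * ∏ j ∈ t, f j + g a * (∏ j ∈ t, f j - ∏ j ∈ t, g j) := by ring
    rw [e]
    exact dvd_add (h1.mul_right _) (h2.mul_left _)

theorem fact_dvd {q : ℕ} (k : ℕ) (hq : q.Prime) (a : ℤ) :
    (k.factorial : ℤ) ∣ (q : ℤ) ^ k * ∏ j ∈ range k, (a - j * q) := by
  have := Fact.mk hq
  obtain ⟨e, m, hm, hk⟩ := Nat.exists_eq_pow_mul_and_not_dvd (Nat.factorial_ne_zero k) q hq.ne_one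
  have hcop : Nat.Coprime q m := (Nat.Prime.coprime_iff_not_dvd hq).2 hm
  have hek : e ≤ k := by
    have h1 : q ^ e ∣ k.factorial := ⟨m, hk⟩
    rw [padicValNat_dvd_iff_le (Nat.factorial_ne_zero k)] at h1
    exact h1.trans (padicValNat_factorial_le _ k)
  have hcop2 : IsCoprime ((q : ℤ) ^ e) (m : ℤ) := by
    apply IsCoprime.pow_left
    exact Nat.isCoprime_iff_coprime.2 hcop
  have h5 : (m : ℤ) ∣ (k.factorial : ℤ) := by
    rw [hk]; push_cast; exact Dvd.intro_left _ rfl
  have h0 : (k.factorial : ℤ) = (q : ℤ) ^ e * m := by rw [hk]; push_cast; ring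
  rw [h0]
  apply hcop2.mul_dvd
  · exact (pow_dvd_pow _ hek).mul_right _
  · obtain ⟨u, v, huv⟩ := Nat.isCoprime_iff_coprime.2 hcop
    have h2 : (m : ℤ) ∣ ∏ j ∈ range k, (a - j * q) - (q : ℤ) ^ k * ∏ j ∈ range k, (a * u - j) := by
      have e1 : (q : ℤ) ^ k * ∏ j ∈ range k, (a * u - j) = ∏ j ∈ range k, ((q : ℤ) * (a * u - j)) := by
        rw [prod_mul_distrib, prod_const, card_range]
      rw [e1]
      apply prod_sub_dvd
      intro j _
      exact ⟨a * v, by linear_combination (-a) * huv⟩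
    have h3 : (m : ℤ) ∣ ∏ j ∈ range k, (a * u - (j : ℤ)) := by
      have h4 := fact_choose (a * u) k
      rw [← h4]
      exact h5.mul_right _
    have h6 : (m : ℤ) ∣ ∏ j ∈ range k, (a - j * q) := by
      have := dvd_add h2 (h3.mul_left ((q : ℤ) ^ k))
      simpa using this
    exact h6.mul_left _

/-- the division in `cf` is exact -/
theorem fact_mul_cf {q n k : ℕ} {s : ℤ} (hq : q.Prime) (hk : k ≤ n) :
    (k.factorial : ℤ) * cf q n s k =
      (q : ℤ) ^ (2 * n - k) * ∏ j ∈ range k, ((q : ℤ) * n + s - j * q) := by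
  unfold cf
  apply Int.mul_ediv_cancel'
  have h1 := fact_dvd k hq ((q : ℤ) * n + s)
  have h2 : 2 * n - k = (2 * n - 2 * k) + k := by omega
  rw [h2, pow_add, mul_assoc]
  exact h1.mul_left _

/-- Task P2, first part: `cf` is what it should be. -/
theorem cf_cast {q n k : ℕ} {s : ℤ} (hq : q.Prime) (hk : k ≤ n) :
    ((cf q n s k : ℤ) : ℚ) = (q : ℚ) ^ (2 * n) * Ring.choose ((n : ℚ) + s / q) k := by
  have hq0 : (q : ℚ) ≠ 0 := by exact_mod_cast hq.ne_zero
  have hk0 : (k.factorial : ℚ) ≠ 0 := by exact_mod_cast Nat.factorial_ne_zero k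
  apply mul_left_cancel₀ hk0
  have h1 := fact_mul_cf (s := s) hq hk
  have h2 : (k.factorial : ℚ) * ((cf q n s k : ℤ) : ℚ) =
      (q : ℚ) ^ (2 * n - k) * ∏ j ∈ range k, ((q : ℚ) * n + s - j * q) := by
    exact_mod_cast congrArg (fun z : ℤ => (z : ℚ)) h1
  rw [h2]
  have h3 := fact_choose ((n : ℚ) + s / q) k
  have e : (k.factorial : ℚ) * ((q : ℚ) ^ (2 * n) * Ring.choose ((n : ℚ) + s / q) k) =
      (q : ℚ) ^ (2 * n) * ((k.factorial : ℚ) * Ring.choose ((n : ℚ) + s / q) k) := by ring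
  rw [e, h3]
  have h4 : 2 * n = (2 * n - k) + k := by omega
  have h5 : (q : ℚ) ^ (2 * n) = (q : ℚ) ^ (2 * n - k) * (q : ℚ) ^ k := by
    rw [← pow_add, ← h4]
  rw [h5, mul_assoc]
  congr 1
  have h6 : (q : ℚ) ^ k = ∏ j ∈ range k, (q : ℚ) := by simp
  rw [h6, ← prod_mul_distrib]
  refine prod_congr rfl fun j _ => ?_
  field_simp

theorem cf_bound {q n k : ℕ} {s : ℤ} (hq : q.Prime) (hs : s = 1 ∨ s = -1) (hk : k ≤ n) :
    0 ≤ cf q n s k ∧ cf q n s k ≤ (q : ℤ) ^ (2 * n) * (Nat.choose (n + 1) k : ℤ) := by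
  have hk0 : (0 : ℤ) < (k.factorial : ℤ) := by exact_mod_cast Nat.factorial_pos k
  have hq2 : (2 : ℤ) ≤ q := by exact_mod_cast hq.two_le
  have h1 := fact_mul_cf (s := s) hq hk
  have hf : ∀ j ∈ range k, 0 ≤ (q : ℤ) * n + s - j * q ∧
      (q : ℤ) * n + s - j * q ≤ q * (((n + 1 - j : ℕ) : ℤ)) := by
    intro j hj
    rw [mem_range] at hj
    have hjn : j + 1 ≤ n := by omega
    have hjn' : (j : ℤ) + 1 ≤ n := by exact_mod_cast hjn
    rw [Nat.cast_sub (by omega)]
    push_cast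
    constructor
    · rcases hs with rfl | rfl <;> nlinarith
    · rcases hs with rfl | rfl <;> nlinarith
  have hp0 : 0 ≤ ∏ j ∈ range k, ((q : ℤ) * n + s - j * q) := prod_nonneg fun j hj => (hf j hj).1
  have hp1 : ∏ j ∈ range k, ((q : ℤ) * n + s - j * q) ≤
      (q : ℤ) ^ k * ((k.factorial : ℤ) * (Nat.choose (n + 1) k : ℤ)) := by
    calc _ ≤ ∏ j ∈ range k, ((q : ℤ) * (((n + 1 - j : ℕ) : ℤ))) :=
          prod_le_prod (fun j hj => (hf j hj).1) (fun j hj => (hf j hj).2)
      _ = (q : ℤ) ^ k * ((∏ j ∈ range k, (n + 1 - j) : ℕ) : ℤ) := by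
          rw [prod_mul_distrib, prod_const, card_range]
          push_cast
          rfl
      _ = _ := by
          rw [← Nat.descFactorial_eq_prod_range, Nat.descFactorial_eq_factorial_mul_choose]
          push_cast
          rfl
  constructor
  · have : 0 ≤ (k.factorial : ℤ) * cf q n s k := by
      rw [h1]; positivity
    exact nonneg_of_mul_nonneg_right this hk0
  · have h2 : (k.factorial : ℤ) * cf q n s k ≤
        (k.factorial : ℤ) * ((q : ℤ) ^ (2 * n) * (Nat.choose (n + 1) k : ℤ)) := by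
      rw [h1]
      calc (q : ℤ) ^ (2 * n - k) * ∏ j ∈ range k, ((q : ℤ) * n + s - j * q)
          ≤ (q : ℤ) ^ (2 * n - k) *
            ((q : ℤ) ^ k * ((k.factorial : ℤ) * (Nat.choose (n + 1) k : ℤ))) := by gcongr
        _ = ((q : ℤ) ^ (2 * n - k) * (q : ℤ) ^ k) *
            ((k.factorial : ℤ) * (Nat.choose (n + 1) k : ℤ)) := by ring
        _ = _ := by
            rw [← pow_add, show 2 * n - k + k = 2 * n by omega]
            ring
    exact le_of_mul_le_mul_left h2 hk0

/-- Task P2, second part: size of the Padé form. -/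
theorem pf_size {q n : ℕ} {s X T M : ℤ} (hq : q.Prime) (hs : s = 1 ∨ s = -1) (hX : |X| ≤ M)
    (hT : |T| ≤ M) : |pf q n s X T| ≤ 2 * (8 * (q : ℤ) ^ 2) ^ n * M ^ n := by
  have hM : 0 ≤ M := (abs_nonneg X).trans hX
  unfold pf
  calc |∑ k ∈ range (n + 1), cf q n s k * (Nat.choose (2 * n - k) n : ℤ) * (-T) ^ k * X ^ (n - k)|
      ≤ ∑ k ∈ range (n + 1), |cf q n s k * (Nat.choose (2 * n - k) n : ℤ) * (-T) ^ k * X ^ (n - k)| :=
        abs_sum_le_sum_abs _ _
    _ ≤ ∑ k ∈ range (n + 1), (q : ℤ) ^ (2 * n) * 4 ^ n * M ^ n * (Nat.choose (n + 1) k : ℤ) := by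
        refine sum_le_sum fun k hk => ?_
        rw [mem_range] at hk
        have hkn : k ≤ n := by omega
        obtain ⟨c0, c1⟩ := cf_bound (s := s) hq hs hkn
        rw [abs_mul, abs_mul, abs_mul, abs_of_nonneg c0, abs_pow, abs_pow, abs_neg, Nat.abs_cast]
        have h1 : (Nat.choose (2 * n - k) n : ℤ) ≤ 4 ^ n := by
          have h2 : Nat.choose (2 * n - k) n ≤ 4 ^ n := by
            calc Nat.choose (2 * n - k) n ≤ 2 ^ (2 * n - k) := Nat.choose_le_two_pow _ _
              _ ≤ 2 ^ (2 * n) := Nat.pow_le_pow_right (by norm_num) (by omega)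
              _ = 4 ^ n := by rw [pow_mul]; norm_num
          exact_mod_cast h2
        calc cf q n s k * (Nat.choose (2 * n - k) n : ℤ) * |T| ^ k * |X| ^ (n - k)
            ≤ ((q : ℤ) ^ (2 * n) * (Nat.choose (n + 1) k : ℤ)) * 4 ^ n * M ^ k * M ^ (n - k) := by
              gcongr
          _ = ((q : ℤ) ^ (2 * n) * (Nat.choose (n + 1) k : ℤ)) * 4 ^ n * (M ^ k * M ^ (n - k)) := by
              ring
          _ = _ := by
              rw [← pow_add, show k + (n - k) = n by omega]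
              ring
    _ = (q : ℤ) ^ (2 * n) * 4 ^ n * M ^ n * ((∑ k ∈ range (n + 1), Nat.choose (n + 1) k : ℕ) : ℤ) := by
        rw [← mul_sum]
        push_cast
        rfl
    _ ≤ (q : ℤ) ^ (2 * n) * 4 ^ n * M ^ n * (2 ^ (n + 1)) := by
        have h3 : ∑ k ∈ range (n + 1), Nat.choose (n + 1) k ≤ 2 ^ (n + 1) := by
          rw [← Nat.sum_range_choose (n + 1)]
          exact sum_le_sum_of_subset (range_subset_range.2 (by omega))
        have h4 : ((∑ k ∈ range (n + 1), Nat.choose (n + 1) k : ℕ) : ℤ) ≤ 2 ^ (n + 1) := by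
          exact_mod_cast h3
        gcongr
    _ = 2 * (8 * (q : ℤ) ^ 2) ^ n * M ^ n := by
        rw [mul_pow, ← pow_mul, pow_succ]
        have : (8 : ℤ) ^ n = 2 ^ n * 4 ^ n := by rw [← mul_pow]; norm_num
        rw [this]
        ring

/-- cancelling a factorial -/
theorem cancel_fact {k n d W : ℕ} {x : ℤ} (hk : k ≤ n)
    (h : (d : ℤ) ^ (W + 2 * n) ∣ (k.factorial : ℤ) * x) : (d : ℤ) ^ W ∣ x := by
  rcases eq_or_ne x 0 with hx | hx
  · rw [hx]; exact dvd_zero _
  rcases Nat.eq_zero_or_pos d with hd | hd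
  · subst hd
    rcases Nat.eq_zero_or_pos n with hn | hn
    · subst hn
      have : k = 0 := by omega
      subst this
      simpa using h
    · rw [Nat.cast_zero, zero_pow (by omega), zero_dvd_iff, mul_eq_zero] at h
      rcases h with h | h
      · exact absurd (by exact_mod_cast h) (Nat.factorial_ne_zero k)
      · exact absurd h hx
  have hx' : x.natAbs ≠ 0 := Int.natAbs_ne_zero.2 hx
  have h1 : d ^ (W + 2 * n) ∣ k.factorial * x.natAbs := by
    have := Int.natAbs_dvd_natAbs.2 h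
    rwa [Int.natAbs_pow, Int.natAbs_natCast, Int.natAbs_mul, Int.natAbs_natCast] at this
  have h2 : d ^ W ∣ x.natAbs := by
    rw [← Nat.factorization_le_iff_dvd (pow_ne_zero _ hd.ne') hx'] 
    rw [← Nat.factorization_le_iff_dvd (pow_ne_zero _ hd.ne')
      (mul_ne_zero (Nat.factorial_ne_zero k) hx'), Nat.factorization_mul (Nat.factorial_ne_zero k) hx',
      Nat.factorization_pow] at h1
    rw [Nat.factorization_pow]
    intro l
    have h3 := h1 l
    simp only [Finsupp.smul_apply, Finsupp.add_apply, smul_eq_mul] at h3 ⊢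
    by_cases hl : l.Prime
    · have := Fact.mk hl
      have h4 : k.factorial.factorization l ≤ k := by
        rw [Nat.factorization_def _ hl]
        exact padicValNat_factorial_le _ k
      rcases Nat.eq_zero_or_pos (d.factorization l) with h0 | h0
      · rw [h0]; simp
      · nlinarith
    · rw [Nat.factorization_eq_zero_of_not_prime d hl]; simp
  have h3 := Int.natCast_dvd_natCast.2 h2
  push_cast at h3
  exact (dvd_abs _ _).1 (by simpa using h3)

/-- Task P2, third part: congruence for the coefficients. -/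
theorem cf_congr {q n k d W : ℕ} {s τ : ℤ} (hq : q.Prime) (hk : k ≤ n) (_hqd : Nat.Coprime q d)
    (h : (d : ℤ) ^ (W + 2 * n) ∣ q * τ - s) :
    (d : ℤ) ^ W ∣ cf q n s k - (q : ℤ) ^ (2 * n) * Ring.choose ((n : ℤ) + τ) k := by
  apply cancel_fact hk
  rw [mul_sub, fact_mul_cf hq hk]
  have e : (k.factorial : ℤ) * ((q : ℤ) ^ (2 * n) * Ring.choose ((n : ℤ) + τ) k) =
      (q : ℤ) ^ (2 * n) * ((k.factorial : ℤ) * Ring.choose ((n : ℤ) + τ) k) := by ring
  have h4 : 2 * n = (2 * n - k) + k := by omega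
  have h5 : (q : ℤ) ^ (2 * n) = (q : ℤ) ^ (2 * n - k) * (q : ℤ) ^ k := by
    rw [← pow_add, ← h4]
  have h6 : (q : ℤ) ^ k = ∏ j ∈ range k, (q : ℤ) := by simp
  rw [e, fact_choose, h5, mul_assoc, ← mul_sub]
  apply Dvd.dvd.mul_left
  rw [h6, ← prod_mul_distrib]
  apply prod_sub_dvd
  intro j _
  have e2 : (q : ℤ) * n + s - j * q - q * ((n : ℤ) + τ - j) = -(q * τ - s) := by ring
  rw [e2]
  exact (dvd_neg).2 h

end Pool.Agent.H374R2.T.TaskP2
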