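import Mathlib

/-!
Task P1: the coefficient identity for the Padé approximants of `(1 - z)^t`.
-/

namespace Pool.Agent.H374R2.T.TaskP1

open Finset

variable {R : Type*} [CommRing R] [BinomialRing R]

theorem vander (x y : R) (k : ℕ) :
    Ring.choose (x + y) k = ∑ a ∈ range (k + 1), Ring.choose x a * Ring.choose y (k - a) := by
  rw [Ring.add_choose_eq k (Commute.all x y)]
  exact Finset.Nat.sum_antidiagonal_eq_sum_range_succ (fun a b => Ring.choose x a * Ring.choose y b) k

theorem inner_eq (n i j : ℕ) (hij : i ≤ j) (t : R) :
    ∑ a ∈ range (j + 1), Ring.choose ((n : R) - t) a *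
      ((Nat.choose (j - a) i : R) * Ring.choose t (j - a)) =
    Ring.choose t i * Ring.choose ((n : R) - i) (j - i) := by
  have h1 : ((n : R) - i) = ((n : R) - t) + (t - i) := by ring
  rw [h1, vander, mul_sum]
  have hsub : range (j - i + 1) ⊆ range (j + 1) := by
    intro a ha; rw [mem_range] at ha ⊢; omega
  rw [← sum_subset hsub]
  · apply sum_congr rfl
    intro a ha
    rw [mem_range] at ha
    have h2 := Ring.choose_smul_choose t (show i ≤ j - a by omega)
    rw [nsmul_eq_mul] at h2
    rw [h2, show j - a - i = j - i - a by omega]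
    ring
  · intro a ha hna
    rw [mem_range] at ha hna
    rw [Nat.choose_eq_zero_of_lt (by omega)]
    simp

theorem inner_zero (n i j : ℕ) (hij : j < i) (t : R) :
    ∑ a ∈ range (j + 1), Ring.choose ((n : R) - t) a *
      ((Nat.choose (j - a) i : R) * Ring.choose t (j - a)) = 0 := by
  apply sum_eq_zero
  intro a _
  rw [Nat.choose_eq_zero_of_lt (by omega)]
  simp

theorem nat_id (n i j : ℕ) (hij : i ≤ j) (hjn : j ≤ n) :
    Nat.choose (2 * n - j) (n - i) * Nat.choose (n - i) (j - i) =
      Nat.choose (2 * n - j) n * Nat.choose n (j - i) := by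
  rw [Nat.choose_mul (n := 2 * n - j) (k := n - i) (by omega), Nat.choose_mul (n := 2 * n - j) (k := n) (by omega)]
  congr 1
  rw [← Nat.choose_symm (show n - i - (j - i) ≤ 2 * n - j - (j - i) by omega)]
  congr 1
  omega

/-- Task P1: the coefficient identity for the Padé approximants of `(1 - z)^t`. -/
theorem pade_coeff {R : Type*} [CommRing R] [BinomialRing R] (n j : ℕ) (hj : j ≤ 2 * n) (t : R) :
    ∑ a ∈ range (j + 1), Ring.choose ((n : R) - t) a * Ring.choose t (j - a) *
      (Nat.choose (2 * n - a) n : R) =
    Ring.choose ((n : R) + t) j * (Nat.choose (2 * n - j) n : R) := by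
  have h1 : ∀ a ∈ range (j + 1), (Nat.choose (2 * n - a) n : R) =
      ∑ i ∈ range (n + 1), (Nat.choose (j - a) i : R) * (Nat.choose (2 * n - j) (n - i) : R) := by
    intro a ha
    rw [mem_range] at ha
    have h2 : 2 * n - a = (j - a) + (2 * n - j) := by omega
    rw [h2, Nat.add_choose_eq,
      Finset.Nat.sum_antidiagonal_eq_sum_range_succ
        (fun i k => Nat.choose (j - a) i * Nat.choose (2 * n - j) k) n]
    push_cast
    rfl
  have h2 : ∑ a ∈ range (j + 1), Ring.choose ((n : R) - t) a * Ring.choose t (j - a) *
      (Nat.choose (2 * n - a) n : R) =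
      ∑ i ∈ range (n + 1), (Nat.choose (2 * n - j) (n - i) : R) *
        ∑ a ∈ range (j + 1), Ring.choose ((n : R) - t) a *
          ((Nat.choose (j - a) i : R) * Ring.choose t (j - a)) := by
    calc ∑ a ∈ range (j + 1), Ring.choose ((n : R) - t) a * Ring.choose t (j - a) *
          (Nat.choose (2 * n - a) n : R)
        = ∑ a ∈ range (j + 1), ∑ i ∈ range (n + 1), (Nat.choose (2 * n - j) (n - i) : R) *
          (Ring.choose ((n : R) - t) a * ((Nat.choose (j - a) i : R) * Ring.choose t (j - a))) := by
          apply sum_congr rfl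
          intro a ha
          rw [h1 a ha, mul_sum]
          apply sum_congr rfl
          intro i _
          ring
      _ = _ := by
          rw [sum_comm]
          apply sum_congr rfl
          intro i _
          rw [mul_sum]
  rw [h2]
  rcases le_or_gt j n with hjn | hjn
  · have hsub : range (j + 1) ⊆ range (n + 1) := by
      intro a ha; rw [mem_range] at ha ⊢; omega
    rw [← sum_subset hsub, add_comm (n : R) t, vander, sum_mul]
    · apply sum_congr rfl
      intro i hi
      rw [mem_range] at hi
      rw [inner_eq n i j (by omega)]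
      have h3 : ((n : R) - i) = ((n - i : ℕ) : R) := by
        rw [Nat.cast_sub (by omega)]
      rw [h3, Ring.choose_natCast, Ring.choose_natCast]
      have h4 : ((Nat.choose (2 * n - j) (n - i) * Nat.choose (n - i) (j - i) : ℕ) : R) =
          ((Nat.choose (2 * n - j) n * Nat.choose n (j - i) : ℕ) : R) := by
        rw [nat_id n i j (by omega) hjn]
      push_cast at h4
      linear_combination (Ring.choose t i) * h4
    · intro i _ hni
      rw [mem_range] at hni
      rw [inner_zero n i j (by omega), mul_zero]
  · rw [Nat.choose_eq_zero_of_lt (show 2 * n - j < n by omega)]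
    rw [Nat.cast_zero, mul_zero]
    apply sum_eq_zero
    intro i hi
    rw [mem_range] at hi
    rw [inner_eq n i j (by omega)]
    have h3 : ((n : R) - i) = ((n - i : ℕ) : R) := by
      rw [Nat.cast_sub (by omega)]
    rw [h3, Ring.choose_natCast, Nat.choose_eq_zero_of_lt (show n - i < j - i by omega)]
    simp

end Pool.Agent.H374R2.T.TaskP1
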