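import Mathlib
import Pool.Agent.H374R2.T.TaskP1

/-!
Task P3: the Padé congruence in a ring with `z ^ (2 n + 1) = 0`, from task P1.
-/

namespace Pool.Agent.H374R2.T.TaskP3

open Finset Polynomial

theorem coeffS (f : ℕ → ℤ) (n j : ℕ) :
    (∑ k ∈ range (n + 1), C (f k) * (-X : ℤ[X]) ^ k).coeff j =
      if j ≤ n then f j * (-1) ^ j else 0 := by
  have h : ∀ k, C (f k) * (-X : ℤ[X]) ^ k = C (f k * (-1) ^ k) * X ^ k := by
    intro k
    rw [neg_pow, C_mul, C_pow, C_neg, C_1]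
    ring
  simp only [h, finsetSum_coeff, coeff_C_mul, coeff_X_pow, mul_ite, mul_one, mul_zero]
  rw [Finset.sum_ite_eq]
  simp only [Finset.mem_range, Nat.lt_succ_iff]

theorem coeff_one_sub (t b : ℕ) :
    ((1 - X : ℤ[X]) ^ t).coeff b = (-1) ^ b * (Nat.choose t b : ℤ) := by
  have h : (1 - X : ℤ[X]) ^ t = ((1 + X : ℤ[X]) ^ t).comp (C (-1) * X) := by
    simp [sub_eq_add_neg]
  rw [h, comp_C_mul_X_coeff, coeff_one_add_X_pow, mul_comm]

theorem pade_ring' (hP1 : ∀ (n j : ℕ) (_ : j ≤ 2 * n) (t : ℤ),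
      ∑ a ∈ range (j + 1), Ring.choose ((n : ℤ) - t) a * Ring.choose t (j - a) *
        (Nat.choose (2 * n - a) n : ℤ) =
      Ring.choose ((n : ℤ) + t) j * (Nat.choose (2 * n - j) n : ℤ))
    {R : Type*} [CommRing R] (n t : ℕ) (z : R) (hz : z ^ (2 * n + 1) = 0) :
    ∑ k ∈ range (n + 1), ((Ring.choose ((n : ℤ) + t) k * (Nat.choose (2 * n - k) n : ℤ) : ℤ) : R) *
      (-z) ^ k = (1 - z) ^ t * ∑ k ∈ range (n + 1),
        ((Ring.choose ((n : ℤ) - t) k * (Nat.choose (2 * n - k) n : ℤ) : ℤ) : R) * (-z) ^ k := by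
  set fa : ℕ → ℤ := fun k => Ring.choose ((n : ℤ) + t) k * (Nat.choose (2 * n - k) n : ℤ) with hfa
  set fb : ℕ → ℤ := fun k => Ring.choose ((n : ℤ) - t) k * (Nat.choose (2 * n - k) n : ℤ) with hfb
  have hch : ∀ j, j ≤ 2 * n → ¬ j ≤ n → Nat.choose (2 * n - j) n = 0 := by
    intro j hj hj'
    apply Nat.choose_eq_zero_of_lt
    omega
  have hca : ∀ (f : ℕ → ℤ), ∀ j, j ≤ 2 * n →
      (∑ k ∈ range (n + 1), C (f k * (Nat.choose (2 * n - k) n : ℤ)) * (-X : ℤ[X]) ^ k).coeff j =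
        f j * (Nat.choose (2 * n - j) n : ℤ) * (-1) ^ j := by
    intro f j hj
    rw [coeffS (fun k => f k * (Nat.choose (2 * n - k) n : ℤ)) n j]
    split_ifs with h
    · rfl
    · rw [hch j hj h]
      simp
  have hdvd : (X : ℤ[X]) ^ (2 * n + 1) ∣ (∑ k ∈ range (n + 1), C (fa k) * (-X : ℤ[X]) ^ k) -
      (1 - X) ^ t * ∑ k ∈ range (n + 1), C (fb k) * (-X : ℤ[X]) ^ k := by
    rw [X_pow_dvd_iff]
    intro j hj
    rw [coeff_sub, mul_comm ((1 - X : ℤ[X]) ^ t), coeff_mul,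
      Finset.Nat.sum_antidiagonal_eq_sum_range_succ_mk]
    rw [hca (fun k => Ring.choose ((n : ℤ) + t) k) j (by omega)]
    rw [← hP1 n j (by omega) (t : ℤ), Finset.sum_mul, ← Finset.sum_sub_distrib]
    apply Finset.sum_eq_zero
    intro a ha
    rw [Finset.mem_range] at ha
    simp only
    rw [hca (fun k => Ring.choose ((n : ℤ) - t) k) a (by omega), coeff_one_sub,
      Ring.choose_natCast]
    have hpow : (-1 : ℤ) ^ j = (-1) ^ a * (-1) ^ (j - a) := by
      rw [← pow_add]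
      congr 1
      omega
    rw [hpow]
    ring
  obtain ⟨g, hg⟩ := hdvd
  have h := congrArg (aeval z) hg
  simp only [map_sub, map_mul, map_pow, map_sum, aeval_X, hz, zero_mul, map_neg, map_one,
    aeval_C, algebraMap_int_eq, Int.coe_castRingHom] at h
  exact sub_eq_zero.mp h

/-- Task P3: the Padé congruence in a ring where `z^(2n+1) = 0` (consequence of P1). -/
theorem pade_ring {R : Type*} [CommRing R] (n t : ℕ) (z : R) (hz : z ^ (2 * n + 1) = 0) :
    ∑ k ∈ range (n + 1), ((Ring.choose ((n : ℤ) + t) k * (Nat.choose (2 * n - k) n : ℤ) : ℤ) : R) *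
      (-z) ^ k = (1 - z) ^ t * ∑ k ∈ range (n + 1),
        ((Ring.choose ((n : ℤ) - t) k * (Nat.choose (2 * n - k) n : ℤ) : ℤ) : R) * (-z) ^ k := by
  apply pade_ring' _ n t z hz
  intro n j hj t
  have h := TaskP1.pade_coeff (R := ℤ) n j hj t
  simpa using h

end Pool.Agent.H374R2.T.TaskP3
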