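import Mathlib
import Pool.Agent.H374R2.T.Defs
import Pool.Agent.H374R2.T.TaskP2
import Pool.Agent.H374R2.T.TaskP3

/-!
Task P4: the Padé congruence for integers.
-/

namespace Pool.Agent.H374R2.T.TaskP4

open Finset

/-- product of the primes dividing `d` -/
def rad (d : ℕ) : ℕ := ∏ l ∈ d.primeFactors, l

theorem rad_dvd (d : ℕ) : rad d ∣ d := Nat.prod_primeFactors_dvd d

theorem dvd_rad_pow {d : ℕ} (hd : d ≠ 0) : d ∣ rad d ^ d := by
  conv_lhs => rw [← Nat.prod_factorization_pow_eq_self hd]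
  rw [Finsupp.prod, Nat.support_factorization, rad, ← Finset.prod_pow]
  refine Finset.prod_dvd_prod_of_dvd _ _ fun l _ => pow_dvd_pow l ?_
  exact (Nat.factorization_lt l hd).le

theorem rad_dvd_int {d : ℕ} {x : ℤ} (h : ∀ l : ℕ, l.Prime → l ∣ d → (l : ℤ) ∣ x) :
    (rad d : ℤ) ∣ x := by
  rw [Int.natCast_dvd]
  refine Finset.prod_primes_dvd _ ?_ ?_
  · intro l hl
    exact (Nat.prime_of_mem_primeFactors hl).prime
  · intro l hl
    have := h l (Nat.prime_of_mem_primeFactors hl) (Nat.dvd_of_mem_primeFactors hl)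
    rwa [Int.natCast_dvd] at this

theorem pow_rad {d W : ℕ} (hd : d ≠ 0) (x : ZMod (d ^ W)) (hx : ((rad d : ℕ) : ZMod (d ^ W)) ∣ x - 1) :
    x ^ (rad d ^ (d * W)) = 1 := by
  have h1 := dvd_sub_pow_of_dvd_sub hx (d * W)
  have h2 : ((rad d : ℕ) : ZMod (d ^ W)) ^ (d * W + 1) = 0 := by
    rw [← Nat.cast_pow, ZMod.natCast_eq_zero_iff]
    calc d ^ W ∣ (rad d ^ d) ^ W := pow_dvd_pow_of_dvd (dvd_rad_pow hd) W
      _ = rad d ^ (d * W) := by rw [pow_mul]
      _ ∣ rad d ^ (d * W + 1) := pow_dvd_pow _ (Nat.le_succ _)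
  rw [h2, zero_dvd_iff, one_pow, sub_eq_zero] at h1
  exact h1

/-- Task P4: the Padé congruence for integers (consequence of P2 and P3). -/
theorem pf_congr {q n d W : ℕ} {X T u v : ℤ} (hq : q.Prime) (hqd : Nat.Coprime q d)
    (hX : IsCoprime X (d : ℤ)) (hu : IsCoprime u (d : ℤ)) (hv : IsCoprime v (d : ℤ))
    (hl : ∀ l : ℕ, l.Prime → l ∣ d → (l : ℤ) ∣ T ∧ (l : ℤ) ∣ u - v)
    (hT : (d : ℤ) ^ W ∣ T ^ (2 * n + 1)) (h : (d : ℤ) ^ W ∣ u ^ q * X - v ^ q * (X - T)) :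
    (d : ℤ) ^ W ∣ v * pf q n 1 X T - u * pf q n (-1) X T := by
  have hd : d ≠ 0 := by
    rintro rfl
    rw [Nat.coprime_zero_right] at hqd
    exact hq.one_lt.ne' hqd
  have key : ∀ a : ℤ, (d : ℤ) ^ W ∣ a ↔ ((a : ℤ) : ZMod (d ^ W)) = 0 := by
    intro a
    rw [ZMod.intCast_zmod_eq_zero_iff_dvd]
    push_cast
    rfl
  have hunit : ∀ a : ℤ, IsCoprime a (d : ℤ) → IsUnit ((a : ℤ) : ZMod (d ^ W)) := by
    intro a ha
    rw [ZMod.coe_int_isUnit_iff_isCoprime]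
    push_cast
    exact (IsCoprime.pow_left ha.symm)
  obtain ⟨X', hX'⟩ := (hunit X hX).exists_right_inv
  obtain ⟨u', hu'⟩ := (hunit u hu).exists_right_inv
  -- the inverse of `q`
  obtain ⟨t, e, hte⟩ : ∃ t e : ℕ, q * t = 1 + d ^ (W + 2 * n + d * W) * e := by
    have hc : Nat.Coprime q (d ^ (W + 2 * n + d * W)) := Nat.Coprime.pow_right _ hqd
    rcases Nat.lt_or_ge 1 (d ^ (W + 2 * n + d * W)) with h1 | h1
    · obtain ⟨m, -, hm⟩ := Nat.exists_mul_mod_eq_one_of_coprime hc h1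
      exact ⟨m, q * m / d ^ (W + 2 * n + d * W), by
        have := Nat.mod_add_div (q * m) (d ^ (W + 2 * n + d * W))
        rw [hm] at this
        exact this.symm⟩
    · have h2 : d ^ (W + 2 * n + d * W) = 1 :=
        le_antisymm h1 (Nat.one_le_iff_ne_zero.2 (pow_ne_zero _ hd))
      refine ⟨1, q - 1, ?_⟩
      have := hq.one_lt
      rw [h2]
      omega
  set z : ZMod (d ^ W) := (T : ZMod (d ^ W)) * X' with hz
  have hzX : z * (X : ZMod (d ^ W)) = T := by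
    rw [hz, mul_assoc, mul_comm X', hX', mul_one]
  have hradT : ((rad d : ℕ) : ZMod (d ^ W)) ∣ z := by
    obtain ⟨c, hc⟩ := rad_dvd_int (x := T) fun l hl1 hl2 => (hl l hl1 hl2).1
    refine ⟨(c : ZMod (d ^ W)) * X', ?_⟩
    rw [hz, hc]
    push_cast
    ring
  have hraduv : ((rad d : ℕ) : ZMod (d ^ W)) ∣ (v : ZMod (d ^ W)) - u := by
    obtain ⟨c, hc⟩ := rad_dvd_int (x := u - v) fun l hl1 hl2 => (hl l hl1 hl2).2
    refine ⟨-(c : ZMod (d ^ W)), ?_⟩
    have := congrArg (fun a : ℤ => (a : ZMod (d ^ W))) hc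
    push_cast at this
    linear_combination -this
  have hrad1 : ((rad d : ℕ) : ZMod (d ^ W)) ∣ (1 - z) - 1 := by
    have : (1 - z) - 1 = -z := by ring
    rw [this]
    exact (dvd_neg).2 hradT
  have hpow1 : (1 - z) ^ (q * t) = 1 - z := by
    have h1 : (1 - z) ^ (d ^ (d * W)) = 1 := by
      obtain ⟨c, hc⟩ := pow_dvd_pow_of_dvd (rad_dvd d) (d * W)
      rw [hc, pow_mul, pow_rad hd _ hrad1, one_pow]
    rw [hte, pow_add, pow_one, pow_add d (W + 2 * n), mul_comm (d ^ (W + 2 * n)), mul_assoc,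
      pow_mul, h1, one_pow, mul_one]
  have hmain : (v : ZMod (d ^ W)) * (1 - z) ^ t = u := by
    set w : ZMod (d ^ W) := (v : ZMod (d ^ W)) * (1 - z) ^ t * u' with hw
    have hw1 : ((rad d : ℕ) : ZMod (d ^ W)) ∣ w - 1 := by
      have e1 : w - 1 = u' * ((v : ZMod (d ^ W)) * ((1 - z) ^ t - 1 ^ t) + (v - u)) := by
        rw [hw, one_pow]
        linear_combination hu'
      rw [e1]
      exact Dvd.dvd.mul_left (dvd_add (Dvd.dvd.mul_left (hrad1.trans (sub_dvd_pow_sub_pow _ _ t)) _)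
        hraduv) _
    have hw2 : w ^ (rad d ^ (d * W)) = 1 := pow_rad hd w hw1
    have hrel : (u : ZMod (d ^ W)) ^ q = (v : ZMod (d ^ W)) ^ q * (1 - z) := by
      have h1 := (key _).1 h
      push_cast at h1
      have h2 : (u : ZMod (d ^ W)) ^ q * X = (v : ZMod (d ^ W)) ^ q * (X - T) := sub_eq_zero.1 h1
      calc (u : ZMod (d ^ W)) ^ q = (u : ZMod (d ^ W)) ^ q * X * X' := by
            rw [mul_assoc, hX', mul_one]
        _ = (v : ZMod (d ^ W)) ^ q * (X * X' - T * X') := by rw [h2]; ring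
        _ = _ := by rw [hX']
    have hw3 : w ^ q = 1 := by
      rw [hw, mul_pow, mul_pow, ← pow_mul, mul_comm t q, hpow1, ← hrel, ← mul_pow, hu', one_pow]
    have hc : Nat.Coprime q (rad d ^ (d * W)) :=
      Nat.Coprime.pow_right _ (Nat.Coprime.coprime_dvd_right (rad_dvd d) hqd)
    have hw4 : w = 1 := by
      have := pow_gcd_eq_one.2 ⟨hw3, hw2⟩
      rwa [hc.gcd_eq_one, pow_one] at this
    calc (v : ZMod (d ^ W)) * (1 - z) ^ t = (v : ZMod (d ^ W)) * (1 - z) ^ t * (u * u') := by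
          rw [hu', mul_one]
      _ = w * u := by rw [hw]; ring
      _ = u := by rw [hw4, one_mul]
  have hz0 : z ^ (2 * n + 1) = 0 := by
    have h1 := (key _).1 hT
    push_cast at h1
    rw [hz, mul_pow, h1, zero_mul]
  have hpade := TaskP3.pade_ring n t z hz0
  -- the Padé forms in the ring
  have hpf : ∀ (s τ : ℤ), (d : ℤ) ^ (W + 2 * n) ∣ q * τ - s →
      ((pf q n s X T : ℤ) : ZMod (d ^ W)) = (q : ZMod (d ^ W)) ^ (2 * n) *
        (X : ZMod (d ^ W)) ^ n * ∑ k ∈ range (n + 1),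
        ((Ring.choose ((n : ℤ) + τ) k * (Nat.choose (2 * n - k) n : ℤ) : ℤ) : ZMod (d ^ W)) *
        (-z) ^ k := by
    intro s τ hs
    rw [pf, Int.cast_sum, Finset.mul_sum]
    refine Finset.sum_congr rfl fun k hk => ?_
    have hkn : k ≤ n := Nat.lt_succ_iff.1 (Finset.mem_range.1 hk)
    have h1 := (key _).1 (TaskP2.cf_congr hq hkn hqd hs)
    push_cast at h1
    have h2 : ((cf q n s k : ℤ) : ZMod (d ^ W)) =
      (q : ZMod (d ^ W)) ^ (2 * n) * ((Ring.choose ((n : ℤ) + τ) k : ℤ) : ZMod (d ^ W)) :=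
      sub_eq_zero.1 h1
    have h3 : (-(T : ZMod (d ^ W))) ^ k * (X : ZMod (d ^ W)) ^ (n - k) =
        (-z) ^ k * (X : ZMod (d ^ W)) ^ n := by
      rw [← hzX, ← neg_mul, mul_pow, mul_assoc, ← pow_add, Nat.add_sub_cancel' hkn]
    push_cast
    rw [h2]
    linear_combination ((q : ZMod (d ^ W)) ^ (2 * n) *
      ((Ring.choose ((n : ℤ) + τ) k : ℤ) : ZMod (d ^ W)) *
      (Nat.choose (2 * n - k) n : ZMod (d ^ W))) * h3
  have hdvd : (d : ℤ) ^ (W + 2 * n) ∣ (q : ℤ) * t - 1 := by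
    refine ⟨(d : ℤ) ^ (d * W) * e, ?_⟩
    have := congrArg (fun a : ℕ => (a : ℤ)) hte
    push_cast at this
    rw [this, pow_add]
    ring
  have hP := hpf 1 t hdvd
  have hQ := hpf (-1) (-t) (by
    have : (q : ℤ) * (-t) - (-1) = -((q : ℤ) * t - 1) := by ring
    rw [this]
    exact (dvd_neg).2 hdvd)
  rw [key, Int.cast_sub, Int.cast_mul, Int.cast_mul, hP, hQ, hpade, ← sub_eq_add_neg (n : ℤ) (t : ℤ)]
  linear_combination ((q : ZMod (d ^ W)) ^ (2 * n) * (X : ZMod (d ^ W)) ^ n *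
    ∑ k ∈ range (n + 1), ((Ring.choose ((n : ℤ) - t) k * (Nat.choose (2 * n - k) n : ℤ) : ℤ) :
      ZMod (d ^ W)) * (-z) ^ k) * hmain

end Pool.Agent.H374R2.T.TaskP4
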