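import Mathlib
import Pool.Agent.H374R2.T.TaskP4
import Pool.Agent.H374R2.T.TaskP5

/-!
Uniqueness: gap principle and Padé approximants.
-/

namespace Pool.Agent.H374R2.T.TaskU

open Finset Pool.Agent.H374R2.T.TaskP2 Pool.Agent.H374R2.T.TaskP4 Pool.Agent.H374R2.T.TaskP5

/-- Two integers with the same `q`-th power modulo `d ^ y` which agree modulo all prime factors of
`d` are congruent modulo `d ^ y`. -/
theorem dvd_sub_of_pow {q d y : ℕ} {w₁ w₂ : ℤ}
    (hq : ∀ p : ℕ, p.Prime → p ∣ d → ¬ p ∣ q)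
    (hC : ∀ p : ℕ, p.Prime → p ∣ d → ¬ (p : ℤ) ∣ w₁)
    (hmod : ∀ p : ℕ, p.Prime → p ∣ d → (p : ℤ) ∣ w₁ - w₂)
    (hpow : (d : ℤ) ^ y ∣ w₁ ^ q - w₂ ^ q) : (d : ℤ) ^ y ∣ w₁ - w₂ := by
  set G : ℤ := ∑ i ∈ range q, w₁ ^ i * w₂ ^ (q - 1 - i) with hG
  have hfac : G * (w₁ - w₂) = w₁ ^ q - w₂ ^ q := (Commute.all w₁ w₂).geom_sum₂_mul q
  have hcop : Nat.Coprime d G.natAbs := by
    apply Nat.coprime_of_dvd
    intro p hp hpd hpG
    have : Fact p.Prime := ⟨hp⟩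
    have e1 : (p : ℤ) ∣ G := Int.natCast_dvd.mpr hpG
    have e2 : (G : ZMod p) = 0 := (ZMod.intCast_zmod_eq_zero_iff_dvd _ _).mpr e1
    have e0 : (w₁ : ZMod p) = w₂ := by
      have := (ZMod.intCast_zmod_eq_zero_iff_dvd _ p).mpr (hmod p hp hpd)
      push_cast at this
      linear_combination this
    have e3 : (G : ZMod p) = (q : ZMod p) * (w₁ : ZMod p) ^ (q - 1) := by
      rw [hG]
      push_cast
      rw [← e0]
      have : ∀ i ∈ range q, (w₁ : ZMod p) ^ i * (w₁ : ZMod p) ^ (q - 1 - i) =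
          (w₁ : ZMod p) ^ (q - 1) := by
        intro i hi
        rw [Finset.mem_range] at hi
        rw [← pow_add]
        congr 1
        omega
      rw [Finset.sum_congr rfl this, Finset.sum_const, Finset.card_range, nsmul_eq_mul]
    rw [e3] at e2
    rcases mul_eq_zero.mp e2 with e4 | e4
    · exact hq p hp hpd ((ZMod.natCast_eq_zero_iff _ _).mp e4)
    · exact hC p hp hpd ((ZMod.intCast_zmod_eq_zero_iff_dvd _ _).mp
        (by_contra fun h => pow_ne_zero _ h e4))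
  have hcop2 : IsCoprime ((d : ℤ) ^ y) G := by
    apply IsCoprime.pow_left
    rw [Int.isCoprime_iff_gcd_eq_one]
    simpa [Int.gcd] using hcop
  rw [← hfac] at hpow
  exact hcop2.dvd_of_dvd_mul_left hpow

theorem unique {q d N y y' U V U' V' T T' : ℕ} {a : ℤ} (hq : q.Prime) (hq20 : 20 ≤ q)
    (hN : (16 * q ^ 2) ^ 100 ≤ N) (hd : N ^ 9 ≤ d ^ 10) (hy : 0 < y) (hyy : y ≤ y')
    (hU : 0 < U) (hV : 0 < V) (hU' : 0 < U') (hV' : 0 < V') (hT0 : 0 < T) (hT0' : 0 < T')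
    (hT : (U : ℤ) ^ q - a * (V : ℤ) ^ q = T) (hT' : (U' : ℤ) ^ q - a * (V' : ℤ) ^ q = T')
    (hdT : d ^ y ∣ T) (hdT' : d ^ y' ∣ T') (hTN : T ≤ N ^ y) (hTN' : T' ≤ N ^ y')
    (hUT : U ^ q ≤ 2 * T) (hVT : V ^ q ≤ T) (hUT' : U' ^ q ≤ 2 * T') (hVT' : V' ^ q ≤ T')
    (hUV : Nat.Coprime U V) (hUV' : Nat.Coprime U' V') (hUd : Nat.Coprime U d)
    (hVd : Nat.Coprime V d) (hUd' : Nat.Coprime U' d) (hVd' : Nat.Coprime V' d)
    (hqd : Nat.Coprime q d)
    (hroot : ∀ l : ℕ, l.Prime → l ∣ d → U * V' ≡ U' * V [MOD l]) : U = U' ∧ V = V' := by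
  by_cases heq : U * V' = U' * V
  · -- the trivial case
    have h1 : U ∣ U' := hUV.dvd_of_dvd_mul_right (heq ▸ Dvd.intro _ rfl)
    have h2 : U' ∣ U := hUV'.dvd_of_dvd_mul_right (heq ▸ Dvd.intro _ rfl)
    have h3 : U = U' := Nat.dvd_antisymm h1 h2
    refine ⟨h3, ?_⟩
    rw [h3] at heq
    exact (Nat.eq_of_mul_eq_mul_left hU' heq).symm
  exfalso
  have hq0 : 0 < q := hq.pos
  set M₀ : ℕ := 16 * q ^ 2 with hM₀
  have hM16 : 16 ≤ M₀ := by
    have : 1 ≤ q ^ 2 := Nat.one_le_pow _ _ hq0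
    omega
  have hN1 : 2 ^ 10 ≤ N := by
    calc 2 ^ 10 ≤ 16 ^ 100 := by norm_num
      _ ≤ M₀ ^ 100 := Nat.pow_le_pow_left hM16 100
      _ ≤ N := hN
  have hN2 : 1 < N := by omega
  have hprime : ∀ l : ℕ, l.Prime → l ∣ d → ∀ w, Nat.Coprime w d → ¬ l ∣ w := by
    intro l hl hld w hw hlw
    exact hl.not_dvd_one (hw ▸ Nat.dvd_gcd hlw hld)
  have hcop1 : Nat.Coprime (U * V') d := Nat.Coprime.mul_left hUd hVd'
  have hcop2 : Nat.Coprime (U' * V) d := Nat.Coprime.mul_left hUd' hVd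
  have hroot' : ∀ l : ℕ, l.Prime → l ∣ d →
      (l : ℤ) ∣ ((U * V' : ℕ) : ℤ) - ((U' * V : ℕ) : ℤ) := by
    intro l hl hld
    exact (Nat.modEq_iff_dvd.mp (hroot l hl hld).symm)
  -- the sizes
  have hmax1 : (U * V') ^ q ≤ 2 * (T * T') := by
    calc (U * V') ^ q = U ^ q * V' ^ q := mul_pow _ _ _
      _ ≤ (2 * T) * T' := Nat.mul_le_mul hUT hVT'
      _ = _ := by ring
  have hmax2 : (U' * V) ^ q ≤ 2 * (T * T') := by
    calc (U' * V) ^ q = U' ^ q * V ^ q := mul_pow _ _ _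
      _ ≤ (2 * T') * T := Nat.mul_le_mul hUT' hVT
      _ = _ := by ring
  have hTT : T * T' ≤ N ^ (y + y') := by
    rw [pow_add]; exact Nat.mul_le_mul hTN hTN'
  -- the gap
  have hdZ : ((d ^ y : ℕ) : ℤ) ∣ (T : ℤ) := by exact_mod_cast hdT
  have hdZ' : ((d ^ y' : ℕ) : ℤ) ∣ (T' : ℤ) := by exact_mod_cast hdT'
  have hgapd : (d : ℤ) ^ y ∣ ((U * V' : ℕ) : ℤ) - ((U' * V : ℕ) : ℤ) := by
    apply dvd_sub_of_pow (q := q)
    · intro p hp hpd hpq
      exact hprime p hp hpd q hqd hpq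
    · intro p hp hpd hpw
      exact hprime p hp hpd _ hcop1 (by exact_mod_cast hpw)
    · exact hroot'
    · have e1 : ((U * V' : ℕ) : ℤ) ^ q - ((U' * V : ℕ) : ℤ) ^ q =
          (T : ℤ) * (V' : ℤ) ^ q - (T' : ℤ) * (V : ℤ) ^ q := by
        push_cast
        rw [mul_pow, mul_pow, ← hT, ← hT']
        ring
      rw [e1]
      push_cast at hdZ hdZ'
      apply dvd_sub
      · exact hdZ.mul_right _
      · exact ((pow_dvd_pow _ hyy).trans hdZ').mul_right _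
  have hgapn : d ^ y ≤ max (U * V') (U' * V) := by
    have h1 : ((U * V' : ℕ) : ℤ) - ((U' * V : ℕ) : ℤ) ≠ 0 := by
      intro h
      apply heq
      have : ((U * V' : ℕ) : ℤ) = ((U' * V : ℕ) : ℤ) := by linarith
      exact_mod_cast this
    have h2 : (d : ℤ) ^ y ≤ |((U * V' : ℕ) : ℤ) - ((U' * V : ℕ) : ℤ)| :=
      Int.le_of_dvd (abs_pos.mpr h1) ((dvd_abs _ _).mpr hgapd)
    have h3 : |((U * V' : ℕ) : ℤ) - ((U' * V : ℕ) : ℤ)| ≤ ((max (U * V') (U' * V) : ℕ) : ℤ) := by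
      have e1 : ((U * V' : ℕ) : ℤ) ≤ ((max (U * V') (U' * V) : ℕ) : ℤ) := by
        exact_mod_cast le_max_left _ _
      have e2 : ((U' * V : ℕ) : ℤ) ≤ ((max (U * V') (U' * V) : ℕ) : ℤ) := by
        exact_mod_cast le_max_right _ _
      have e3 : (0 : ℤ) ≤ ((U * V' : ℕ) : ℤ) := by positivity
      have e4 : (0 : ℤ) ≤ ((U' * V : ℕ) : ℤ) := by positivity
      rw [abs_le]
      constructor <;> linarith
    exact_mod_cast h2.trans h3
  have hmaxq : (max (U * V') (U' * V)) ^ q ≤ 2 * (T * T') := by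
    rcases max_choice (U * V') (U' * V) with h | h <;> rw [h] <;> assumption
  have hgap : 16 * y ≤ y' := by
    have h1 : N ^ (9 * (y * q)) ≤ N ^ (1 + 10 * (y + y')) := by
      calc N ^ (9 * (y * q)) = (N ^ 9) ^ (y * q) := by rw [pow_mul]
        _ ≤ (d ^ 10) ^ (y * q) := Nat.pow_le_pow_left hd _
        _ = ((d ^ y) ^ q) ^ 10 := by
          rw [← pow_mul, ← pow_mul, ← pow_mul]; congr 1; ring
        _ ≤ ((max (U * V') (U' * V)) ^ q) ^ 10 :=
          Nat.pow_le_pow_left (Nat.pow_le_pow_left hgapn _) _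
        _ ≤ (2 * (T * T')) ^ 10 := Nat.pow_le_pow_left hmaxq _
        _ ≤ (2 * N ^ (y + y')) ^ 10 := Nat.pow_le_pow_left (Nat.mul_le_mul_left _ hTT) _
        _ = 2 ^ 10 * N ^ (10 * (y + y')) := by rw [mul_pow, ← pow_mul, mul_comm (y + y') 10]
        _ ≤ N * N ^ (10 * (y + y')) := Nat.mul_le_mul_right _ hN1
        _ = _ := by rw [pow_add, pow_one]
    have h2 := (Nat.pow_le_pow_iff_right hN2).mp h1
    have h3 : 20 * y ≤ y * q := by rw [mul_comm]; exact Nat.mul_le_mul_left _ hq20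
    omega
  -- the choice of n
  obtain ⟨n₀, hn1, hn2⟩ : ∃ n₀ : ℕ, y' ≤ (2 * n₀ + 1) * y ∧ 2 * n₀ * y < y' + y := by
    refine ⟨(y' + y - 1) / (2 * y), ?_, ?_⟩
    · have h1 := Nat.div_add_mod (y' + y - 1) (2 * y)
      have h2 := Nat.mod_lt (y' + y - 1) (show 0 < 2 * y by omega)
      have h3 : (2 * ((y' + y - 1) / (2 * y)) + 1) * y = 2 * y * ((y' + y - 1) / (2 * y)) + y := by
        ring
      rw [h3]
      omega
    · have h1 := Nat.div_mul_le_self (y' + y - 1) (2 * y)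
      have h3 : 2 * ((y' + y - 1) / (2 * y)) * y = (y' + y - 1) / (2 * y) * (2 * y) := by ring
      rw [h3]
      omega
  -- vanishing
  have hX2 : |((U : ℤ)) ^ q| ≤ 2 * (T : ℤ) := by
    rw [abs_of_nonneg (by positivity)]
    exact_mod_cast hUT
  have hT2 : |(T : ℤ)| ≤ 2 * (T : ℤ) := by
    rw [abs_of_nonneg (by positivity)]
    have : (0 : ℤ) ≤ T := by positivity
    linarith
  have key : ∀ n : ℕ, y' ≤ (2 * n + 1) * y → 2 * n * y ≤ y' + 3 * y →
      ((U * V' : ℕ) : ℤ) * pf q n 1 ((U : ℤ) ^ q) T -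
        ((U' * V : ℕ) : ℤ) * pf q n (-1) ((U : ℤ) ^ q) T = 0 := by
    intro n hna hnb
    by_contra hne
    have hdv : (d : ℤ) ^ y' ∣ ((U * V' : ℕ) : ℤ) * pf q n 1 ((U : ℤ) ^ q) T -
        ((U' * V : ℕ) : ℤ) * pf q n (-1) ((U : ℤ) ^ q) T := by
      apply pf_congr hq hqd
      · apply IsCoprime.pow_left
        exact_mod_cast (Nat.isCoprime_iff_coprime.mpr hUd)
      · exact_mod_cast (Nat.isCoprime_iff_coprime.mpr hcop2)
      · exact_mod_cast (Nat.isCoprime_iff_coprime.mpr hcop1)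
      · intro l hl hld
        constructor
        · have h1 : l ∣ T := ((dvd_pow_self l hy.ne').trans (pow_dvd_pow_of_dvd hld y)).trans hdT
          exact_mod_cast h1
        · have := hroot' l hl hld
          rw [← neg_sub]
          exact (dvd_neg).mpr this
      · have h1 : d ^ y' ∣ T ^ (2 * n + 1) := by
          calc d ^ y' ∣ d ^ ((2 * n + 1) * y) := pow_dvd_pow _ hna
            _ = (d ^ y) ^ (2 * n + 1) := by rw [← pow_mul, mul_comm]
            _ ∣ T ^ (2 * n + 1) := pow_dvd_pow_of_dvd hdT _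
        exact_mod_cast h1
      · have e1 : ((U' * V : ℕ) : ℤ) ^ q * (U : ℤ) ^ q -
            ((U * V' : ℕ) : ℤ) ^ q * ((U : ℤ) ^ q - T) = (U : ℤ) ^ q * (V : ℤ) ^ q * T' := by
          have e2 : (U : ℤ) ^ q - T = a * (V : ℤ) ^ q := by rw [← hT]; ring
          rw [e2, ← hT']
          push_cast
          rw [mul_pow, mul_pow]
          ring
        rw [e1]
        push_cast at hdZ'
        exact hdZ'.mul_left _
    have hle : (d : ℤ) ^ y' ≤ |((U * V' : ℕ) : ℤ) * pf q n 1 ((U : ℤ) ^ q) T -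
        ((U' * V : ℕ) : ℤ) * pf q n (-1) ((U : ℤ) ^ q) T| :=
      Int.le_of_dvd (abs_pos.mpr hne) ((dvd_abs _ _).mpr hdv)
    have hs1 := pf_size (n := n) hq (Or.inl rfl) hX2 hT2
    have hs2 := pf_size (n := n) hq (Or.inr rfl) hX2 hT2
    have hB : 2 * (8 * (q : ℤ) ^ 2) ^ n * (2 * (T : ℤ)) ^ n = ((2 * (M₀ * T) ^ n : ℕ) : ℤ) := by
      rw [hM₀]
      push_cast
      rw [mul_assoc, ← mul_pow]
      congr 2
      ring
    rw [hB] at hs1 hs2
    have hle2 : |((U * V' : ℕ) : ℤ) * pf q n 1 ((U : ℤ) ^ q) T -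
        ((U' * V : ℕ) : ℤ) * pf q n (-1) ((U : ℤ) ^ q) T| ≤
        ((4 * max (U * V') (U' * V) * (M₀ * T) ^ n : ℕ) : ℤ) := by
      have e1 : ((U * V' : ℕ) : ℤ) ≤ ((max (U * V') (U' * V) : ℕ) : ℤ) := by
        exact_mod_cast le_max_left _ _
      have e2 : ((U' * V : ℕ) : ℤ) ≤ ((max (U * V') (U' * V) : ℕ) : ℤ) := by
        exact_mod_cast le_max_right _ _
      have e3 : (0 : ℤ) ≤ ((U * V' : ℕ) : ℤ) := by positivity
      have e4 : (0 : ℤ) ≤ ((U' * V : ℕ) : ℤ) := by positivity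
      have e5 : (0 : ℤ) ≤ ((2 * (M₀ * T) ^ n : ℕ) : ℤ) := by positivity
      calc _ ≤ |((U * V' : ℕ) : ℤ) * pf q n 1 ((U : ℤ) ^ q) T| +
            |((U' * V : ℕ) : ℤ) * pf q n (-1) ((U : ℤ) ^ q) T| := abs_sub _ _
        _ = ((U * V' : ℕ) : ℤ) * |pf q n 1 ((U : ℤ) ^ q) T| +
            ((U' * V : ℕ) : ℤ) * |pf q n (-1) ((U : ℤ) ^ q) T| := by
            rw [abs_mul, abs_mul, abs_of_nonneg e3, abs_of_nonneg e4]
        _ ≤ ((max (U * V') (U' * V) : ℕ) : ℤ) * ((2 * (M₀ * T) ^ n : ℕ) : ℤ) +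
            ((max (U * V') (U' * V) : ℕ) : ℤ) * ((2 * (M₀ * T) ^ n : ℕ) : ℤ) := by
            apply add_le_add
            · exact mul_le_mul e1 hs1 (abs_nonneg _) (e3.trans e1)
            · exact mul_le_mul e2 hs2 (abs_nonneg _) (e3.trans e1)
        _ = _ := by push_cast; ring
    have hle3 : d ^ y' ≤ 4 * max (U * V') (U' * V) * (M₀ * T) ^ n := by
      exact_mod_cast hle.trans hle2
    have hD : d ^ (y' * q) ≤ M₀ ^ (q + 1 + n * q) * N ^ (y + y' + y * n * q) := by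
      calc d ^ (y' * q) = (d ^ y') ^ q := by rw [pow_mul]
        _ ≤ (4 * max (U * V') (U' * V) * (M₀ * T) ^ n) ^ q := Nat.pow_le_pow_left hle3 _
        _ = 4 ^ q * (max (U * V') (U' * V)) ^ q * (M₀ ^ (n * q) * T ^ (n * q)) := by
            rw [mul_pow, mul_pow, ← pow_mul, mul_pow]
        _ ≤ M₀ ^ q * (M₀ * N ^ (y + y')) * (M₀ ^ (n * q) * (N ^ y) ^ (n * q)) := by
            apply Nat.mul_le_mul
            · apply Nat.mul_le_mul
              · exact Nat.pow_le_pow_left (by omega) _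
              · exact hmaxq.trans (Nat.mul_le_mul (by omega) hTT)
            · exact Nat.mul_le_mul_left _ (Nat.pow_le_pow_left hTN _)
        _ = _ := by
            rw [← pow_mul]
            ring
    have hfin : N ^ (90 * (y' * q)) ≤ N ^ ((q + 1 + n * q) + 100 * (y + y' + y * n * q)) := by
      calc N ^ (90 * (y' * q)) = (N ^ 9) ^ (10 * (y' * q)) := by
            rw [← pow_mul]; congr 1; ring
        _ ≤ (d ^ 10) ^ (10 * (y' * q)) := Nat.pow_le_pow_left hd _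
        _ = (d ^ (y' * q)) ^ 100 := by rw [← pow_mul, ← pow_mul]; congr 1; ring
        _ ≤ (M₀ ^ (q + 1 + n * q) * N ^ (y + y' + y * n * q)) ^ 100 := Nat.pow_le_pow_left hD _
        _ = (M₀ ^ 100) ^ (q + 1 + n * q) * N ^ (100 * (y + y' + y * n * q)) := by
            rw [mul_pow, ← pow_mul, ← pow_mul, ← pow_mul, mul_comm 100 (q + 1 + n * q),
              mul_comm 100 (y + y' + y * n * q)]
        _ ≤ N ^ (q + 1 + n * q) * N ^ (100 * (y + y' + y * n * q)) :=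
            Nat.mul_le_mul_right _ (Nat.pow_le_pow_left hN _)
        _ = _ := by rw [← pow_add]
    have hfin2 := (Nat.pow_le_pow_iff_right hN2).mp hfin
    -- linear arithmetic in the products
    have a1 : 2 * (y * n * q) ≤ y' * q + 3 * (y * q) := by
      calc 2 * (y * n * q) = (2 * n * y) * q := by ring
        _ ≤ (y' + 3 * y) * q := Nat.mul_le_mul_right _ hnb
        _ = _ := by ring
    have a2 : n * q ≤ y * n * q := by
      calc n * q = 1 * (n * q) := by ring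
        _ ≤ y * (n * q) := Nat.mul_le_mul_right _ hy
        _ = _ := by ring
    have a3 : q ≤ y * q := Nat.le_mul_of_pos_left q hy
    have a4 : 16 * (y * q) ≤ y' * q := by
      calc 16 * (y * q) = (16 * y) * q := by ring
        _ ≤ y' * q := Nat.mul_le_mul_right _ hgap
    have a5 : 20 * y' ≤ y' * q := by rw [mul_comm]; exact Nat.mul_le_mul_left _ hq20
    have a6 : 20 * y ≤ y * q := by rw [mul_comm]; exact Nat.mul_le_mul_left _ hq20
    omega
  have k0 := key n₀ hn1 (by omega)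
  have k1 := key (n₀ + 1) (by
    calc y' ≤ (2 * n₀ + 1) * y := hn1
      _ ≤ (2 * (n₀ + 1) + 1) * y := Nat.mul_le_mul_right _ (by omega)) (by
    have : 2 * (n₀ + 1) * y = 2 * n₀ * y + 2 * y := by ring
    omega)
  have hTne : (T : ℤ) ≠ 0 := by exact_mod_cast hT0.ne'
  apply pf_ne (n := n₀) (X := (U : ℤ) ^ q) hq hTne
  have hv : ((U * V' : ℕ) : ℤ) ≠ 0 := by
    exact_mod_cast (Nat.mul_pos hU hV').ne'
  have hu : ((U' * V : ℕ) : ℤ) ≠ 0 := by
    exact_mod_cast (Nat.mul_pos hU' hV).ne'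
  have hfinal : ((U * V' : ℕ) : ℤ) * ((U' * V : ℕ) : ℤ) *
      (pf q n₀ 1 ((U : ℤ) ^ q) T * pf q (n₀ + 1) (-1) ((U : ℤ) ^ q) T -
        pf q (n₀ + 1) 1 ((U : ℤ) ^ q) T * pf q n₀ (-1) ((U : ℤ) ^ q) T) = 0 := by
    linear_combination (((U' * V : ℕ) : ℤ) * pf q (n₀ + 1) (-1) ((U : ℤ) ^ q) T) * k0 -
      (((U' * V : ℕ) : ℤ) * pf q n₀ (-1) ((U : ℤ) ^ q) T) * k1
  rcases mul_eq_zero.mp hfinal with h | h
  · exact absurd h (mul_ne_zero hv hu)
  · linarith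

end Pool.Agent.H374R2.T.TaskU
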