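import Mathlib
import Pool.Agent.H374R2.FcD
import Pool.Agent.H374R2.T.TaskU

/-!
Counting the pairs with a solution for a given exponent `q`, using the uniqueness theorem.
-/

namespace Pool.Agent.H374R2.T

open Finset

theorem pow_of_coprime {B B' a b : ℕ} (hB : 0 < B) (ha : 0 < a)
    (hab : Nat.Coprime a b) (h : B ^ a = B' ^ b) : ∃ c, B = c ^ b := by
  rcases Nat.lt_or_ge 1 b with hb1 | hb1
  · obtain ⟨u, hu⟩ := Nat.exists_mul_mod_eq_one_of_coprime hab hb1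
    -- a * u = 1 + b * v
    obtain ⟨v, hv⟩ : ∃ v, a * u = b * v + 1 := ⟨a * u / b, by
      have := Nat.div_add_mod (a * u) b
      omega⟩
    have h1 : (B' ^ u) ^ b = B * (B ^ v) ^ b := by
      calc (B' ^ u) ^ b = (B' ^ b) ^ u := by rw [← pow_mul, ← pow_mul, mul_comm]
        _ = (B ^ a) ^ u := by rw [h]
        _ = B ^ (b * v + 1) := by rw [← pow_mul, hv]
        _ = B * (B ^ v) ^ b := by rw [pow_succ, ← pow_mul, mul_comm v b, mul_comm]
    have h2 : (B ^ v) ^ b ∣ (B' ^ u) ^ b := ⟨B, by rw [h1, mul_comm]⟩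
    have h3 : B ^ v ∣ B' ^ u := (Nat.pow_dvd_pow_iff (by omega)).mp h2
    obtain ⟨c, hc⟩ := h3
    refine ⟨c, ?_⟩
    rw [hc, mul_pow] at h1
    have h4 : 0 < (B ^ v) ^ b := by positivity
    have h5 : (B ^ v) ^ b * c ^ b = (B ^ v) ^ b * B := by rw [h1, mul_comm]
    exact (Nat.eq_of_mul_eq_mul_left h4 h5).symm
  · rcases Nat.eq_zero_or_pos b with h0 | h0
    · subst h0
      rw [pow_zero] at h
      refine ⟨1, ?_⟩
      rw [pow_zero]
      by_contra hne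
      have h2 : 2 ≤ B := by omega
      have h3 : 2 ^ 1 ≤ B ^ a := (Nat.pow_le_pow_left h2 1).trans (Nat.pow_le_pow_right hB ha)
      omega
    · have : b = 1 := by omega
      subst this
      exact ⟨B, by rw [pow_one]⟩

theorem eq_of_pow_eq {B B' y y' : ℕ} (hB : 0 < B) (hB' : 0 < B') (hy : 0 < y) (hy' : 0 < y')
    (hBp : ¬ ∃ w k : ℕ, 2 ≤ k ∧ B = w ^ k) (hBp' : ¬ ∃ w k : ℕ, 2 ≤ k ∧ B' = w ^ k)
    (h : B ^ y = B' ^ y') : B = B' := by
  obtain ⟨g, a, b, hg, hcop, rfl, rfl⟩ : ∃ g a b, 0 < g ∧ Nat.Coprime a b ∧ y = a * g ∧ y' = b * g := by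
    obtain ⟨a, b, h1, h2, h3⟩ := Nat.exists_coprime y y'
    exact ⟨_, a, b, Nat.gcd_pos_of_pos_left _ hy, h1, h2, h3⟩
  have ha : 0 < a := by
    rcases Nat.eq_zero_or_pos a with h0 | h0
    · subst h0; simp at hy
    · exact h0
  have hb : 0 < b := by
    rcases Nat.eq_zero_or_pos b with h0 | h0
    · subst h0; simp at hy'
    · exact h0
  rw [pow_mul, pow_mul] at h
  have h1 : B ^ a = B' ^ b := Nat.pow_left_injective hg.ne' h
  obtain ⟨c, hc⟩ := pow_of_coprime hB ha hcop h1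
  obtain ⟨c', hc'⟩ := pow_of_coprime hB' hb hcop.symm h1.symm
  have hb1 : b = 1 := by
    by_contra hne
    exact hBp ⟨c, b, by omega, hc⟩
  have ha1 : a = 1 := by
    by_contra hne
    exact hBp' ⟨c', a, by omega, hc'⟩
  subst hb1; subst ha1
  simpa using h1

/-- The multiples `B ≤ N` of `d` for which there is a solution with the base `A`, the exponent `q`
and the residue `i` of the exponent of `A` modulo `q`. -/
def SolB (N q i d A : ℕ) (s : ℤ) : Set ℕ :=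
  {B | 0 < B ∧ B ≤ N ∧ d ∣ B ∧ Nat.Coprime A B ∧ (¬ ∃ w k : ℕ, 2 ≤ k ∧ B = w ^ k) ∧
    ∃ x' y U : ℕ, 0 < y ∧ 0 < U ∧ A ^ (q * x' + i) ≤ B ^ y ∧
      (U : ℤ) ^ q - s * (A : ℤ) ^ (q * x' + i) = (B : ℤ) ^ y}

/-- The data of one solution. -/
structure Data (N q i d A B : ℕ) (s : ℤ) (x' y U : ℕ) : Prop where
  y0 : 0 < y
  U0 : 0 < U
  le : A ^ (q * x' + i) ≤ B ^ y
  eq : (U : ℤ) ^ q - s * (A : ℤ) ^ (q * x' + i) = (B : ℤ) ^ y
  B0 : 0 < B
  BN : B ≤ N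
  dB : d ∣ B
  cop : Nat.Coprime A B
  np : ¬ ∃ w k : ℕ, 2 ≤ k ∧ B = w ^ k

theorem Data.prime_cond {N q i d A B : ℕ} {s : ℤ} {x' y U : ℕ} (hs : s = 1 ∨ s = -1)
    (hq : 0 < q) (h : Data N q i d A B s x' y U) {p : ℕ} (hp : p.Prime) (hpU : p ∣ U)
    (hpAB : p ∣ A ^ (q * x' + i) ∨ p ∣ B) : False := by
  have hpZ : Prime (p : ℤ) := Nat.prime_iff_prime_int.mp hp
  have e1 : (p : ℤ) ∣ (U : ℤ) ^ q := by
    have : p ∣ U ^ q := dvd_pow hpU hq.ne'
    exact_mod_cast this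
  have hcontra : p ∣ A → p ∣ B → False := fun h1 h2 =>
    hp.not_dvd_one (h.cop ▸ Nat.dvd_gcd h1 h2)
  rcases hpAB with h1 | h1
  · have e2 : (p : ℤ) ∣ (A : ℤ) ^ (q * x' + i) := by exact_mod_cast h1
    have e3 : (p : ℤ) ∣ (B : ℤ) ^ y := by
      rw [← h.eq]
      exact dvd_sub e1 (e2.mul_left _)
    have e4 : p ∣ B ^ y := by exact_mod_cast e3
    exact hcontra (hp.dvd_of_dvd_pow h1) (hp.dvd_of_dvd_pow e4)
  · have e3 : (p : ℤ) ∣ (B : ℤ) ^ y := by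
      have : p ∣ B ^ y := dvd_pow h1 h.y0.ne'
      exact_mod_cast this
    have e4 : (p : ℤ) ∣ s * (A : ℤ) ^ (q * x' + i) := by
      have : s * (A : ℤ) ^ (q * x' + i) = (U : ℤ) ^ q - (B : ℤ) ^ y := by rw [← h.eq]; ring
      rw [this]
      exact dvd_sub e1 e3
    have e5 : (p : ℤ) ∣ (A : ℤ) ^ (q * x' + i) := by
      rcases hs with rfl | rfl
      · simpa using e4
      · simpa using e4
    have e6 : p ∣ A ^ (q * x' + i) := by exact_mod_cast e5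
    exact hcontra (hp.dvd_of_dvd_pow e6) h1

theorem Data.le_two {N q i d A B : ℕ} {s : ℤ} {x' y U : ℕ} (hs : s = 1 ∨ s = -1)
    (h : Data N q i d A B s x' y U) : U ^ q ≤ 2 * B ^ y := by
  have h1 : (A : ℤ) ^ (q * x' + i) ≤ (B : ℤ) ^ y := by exact_mod_cast h.le
  have h2 : (0 : ℤ) ≤ (A : ℤ) ^ (q * x' + i) := by positivity
  have h3 : (U : ℤ) ^ q ≤ 2 * (B : ℤ) ^ y := by
    have := h.eq
    rcases hs with rfl | rfl <;> linarith
  exact_mod_cast h3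

theorem Data.unique {N q i d A B B' : ℕ} {s : ℤ} {x' y U x'' y' U' : ℕ} (hs : s = 1 ∨ s = -1)
    (hq : q.Prime) (hq20 : 20 ≤ q) (hN : (16 * q ^ 2) ^ 100 ≤ N) (hd : N ^ 9 ≤ d ^ 10)
    (hqd : ∀ p : ℕ, p.Prime → p ∣ d → ¬ p ∣ q) (hA : 0 < A)
    (h : Data N q i d A B s x' y U) (h' : Data N q i d A B' s x'' y' U') (hyy : y ≤ y')
    (hroot : ∀ l : ℕ, l.Prime → l ∣ d → U * A ^ x'' ≡ U' * A ^ x' [MOD l]) : B = B' := by
  have hcop : ∀ {B₁ z₁ t₁ U₁ : ℕ}, Data N q i d A B₁ s z₁ t₁ U₁ →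
      Nat.Coprime U₁ (A ^ z₁) ∧ Nat.Coprime U₁ d ∧ Nat.Coprime (A ^ z₁) d ∧ (A ^ z₁) ^ q ≤ B₁ ^ t₁ ∧
      (U₁ : ℤ) ^ q - (s * (A : ℤ) ^ i) * ((A ^ z₁ : ℕ) : ℤ) ^ q = ((B₁ ^ t₁ : ℕ) : ℤ) ∧
      d ^ t₁ ∣ B₁ ^ t₁ ∧ B₁ ^ t₁ ≤ N ^ t₁ := by
    intro B₁ z₁ t₁ U₁ h1
    refine ⟨?_, ?_, ?_, ?_, ?_, ?_, ?_⟩
    · apply Nat.coprime_of_dvd
      intro p hp h2 h3
      apply h1.prime_cond hs hq.pos hp h2
      left
      have h4 : p ∣ A := hp.dvd_of_dvd_pow h3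
      rcases Nat.eq_zero_or_pos (q * z₁ + i) with h5 | h5
      · exfalso
        have : z₁ = 0 := by
          have := hq.pos
          by_contra hne
          have : 0 < q * z₁ := Nat.mul_pos hq.pos (Nat.pos_of_ne_zero hne)
          omega
        rw [this, pow_zero] at h3
        exact hp.not_dvd_one h3
      · exact dvd_pow h4 h5.ne'
    · apply Nat.coprime_of_dvd
      intro p hp h2 h3
      exact h1.prime_cond hs hq.pos hp h2 (Or.inr (h3.trans h1.dB))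
    · apply Nat.Coprime.pow_left
      exact Nat.Coprime.coprime_dvd_right h1.dB h1.cop
    · calc (A ^ z₁) ^ q = A ^ (q * z₁) := by rw [← pow_mul, mul_comm]
        _ ≤ A ^ (q * z₁ + i) := Nat.pow_le_pow_right hA (by omega)
        _ ≤ B₁ ^ t₁ := h1.le
    · push_cast
      rw [← h1.eq, pow_add, pow_mul, ← pow_mul, mul_comm z₁ q, pow_mul]
      ring
    · exact pow_dvd_pow_of_dvd h1.dB _
    · exact Nat.pow_le_pow_left h1.BN _
  obtain ⟨a1, a2, a3, a4, a5, a6, a7⟩ := hcop h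
  obtain ⟨b1, b2, b3, b4, b5, b6, b7⟩ := hcop h'
  have hB0 := h.B0
  have hB0' := h'.B0
  have hqd' : Nat.Coprime q d := by
    apply Nat.coprime_of_dvd
    intro p hp h2 h3
    exact hqd p hp h3 h2
  have hfin := TaskU.unique (a := s * (A : ℤ) ^ i) hq hq20 hN hd h.y0 hyy h.U0 (by positivity) h'.U0
    (by positivity) (by positivity) (by positivity) a5 b5 a6 b6 a7 b7 (h.le_two hs) a4
    (h'.le_two hs) b4 a1 b1 a2 a3 b2 b3 hqd' hroot
  obtain ⟨e1, e2⟩ := hfin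
  rw [e1, e2] at a5
  rw [a5] at b5
  have e3 : B ^ y = B' ^ y' := by exact_mod_cast b5
  exact eq_of_pow_eq hB0 hB0' h.y0 h'.y0 h.np h'.np e3

theorem solB_finite (N q i d A : ℕ) (s : ℤ) : (SolB N q i d A s).Finite :=
  (Set.finite_Icc 0 N).subset (fun _ hB => ⟨Nat.zero_le _, hB.2.1⟩)

theorem solB_card {N q i d A : ℕ} {s : ℤ} (hs : s = 1 ∨ s = -1) (hq : q.Prime) (hq20 : 20 ≤ q)
    (hN : (16 * q ^ 2) ^ 100 ≤ N) (hd : N ^ 9 ≤ d ^ 10) (hd0 : 0 < d)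
    (hqd : ∀ p : ℕ, p.Prime → p ∣ d → ¬ p ∣ q) (hA : 0 < A) :
    (SolB N q i d A s).ncard ≤ q ^ d.primeFactors.card := by
  classical
  have hpr : ∀ l : d.primeFactors, ((l : ℕ)).Prime := fun l => Nat.prime_of_mem_primeFactors l.2
  have hdv : ∀ l : d.primeFactors, (l : ℕ) ∣ d := fun l => Nat.dvd_of_mem_primeFactors l.2
  have : ∀ l : d.primeFactors, NeZero (l : ℕ) := fun l => ⟨(hpr l).ne_zero⟩
  have : ∀ l : d.primeFactors, Fact ((l : ℕ)).Prime := fun l => ⟨hpr l⟩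
  let T : Finset (∀ l : d.primeFactors, ZMod (l : ℕ)) :=
    Fintype.piFinset (fun l => univ.filter (fun u : ZMod (l : ℕ) =>
      u ^ q = ((s * (A : ℤ) ^ i : ℤ) : ZMod (l : ℕ))))
  have hT : T.card ≤ q ^ d.primeFactors.card := by
    rw [Fintype.card_piFinset]
    calc ∏ l : d.primeFactors, (univ.filter (fun u : ZMod (l : ℕ) =>
          u ^ q = ((s * (A : ℤ) ^ i : ℤ) : ZMod (l : ℕ)))).card
        ≤ ∏ _l : d.primeFactors, q := by
          apply Finset.prod_le_prod'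
          intro l _
          have h1 := Fc.roots_le (hpr l) hq.pos ((s * (A : ℤ) ^ i : ℤ) : ZMod (l : ℕ))
          rw [← Set.ncard_coe_finset]
          refine le_trans (le_of_eq ?_) h1
          congr 1
          ext u
          simp
      _ = q ^ d.primeFactors.card := by
          rw [Finset.prod_const]
          congr 1
          simp
  refine le_trans ?_ hT
  -- choice of the data
  have hch : ∀ B : ℕ, ∃ t : ℕ × ℕ × ℕ, B ∈ SolB N q i d A s → Data N q i d A B s t.1 t.2.1 t.2.2 := by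
    intro B
    by_cases h : B ∈ SolB N q i d A s
    · obtain ⟨h1, h2, h3, h4, h5, x', y, U, h6, h7, h8, h9⟩ := h
      exact ⟨(x', y, U), fun _ => ⟨h6, h7, h8, h9, h1, h2, h3, h4, h5⟩⟩
    · exact ⟨(0, 0, 0), fun h' => absurd h' h⟩
  choose t ht using hch
  have hAl : ∀ B ∈ SolB N q i d A s, ∀ l : d.primeFactors, (A : ZMod (l : ℕ)) ≠ 0 := by
    intro B hB l h0
    rw [ZMod.natCast_eq_zero_iff] at h0
    exact (hpr l).not_dvd_one ((ht B hB).cop ▸ Nat.dvd_gcd h0 ((hdv l).trans (ht B hB).dB))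
  have key : (SolB N q i d A s).ncard ≤ (T : Set (∀ l : d.primeFactors, ZMod (l : ℕ))).ncard := by
    apply Set.ncard_le_ncard_of_injOn (fun B => fun l : d.primeFactors =>
      ((t B).2.2 : ZMod (l : ℕ)) * ((A : ZMod (l : ℕ)) ^ (t B).1)⁻¹)
    · intro B hB
      rw [Finset.mem_coe, Fintype.mem_piFinset]
      intro l
      rw [Finset.mem_filter]
      refine ⟨Finset.mem_univ _, ?_⟩
      have hD := ht B hB
      have h1 := congrArg (fun z : ℤ => (z : ZMod (l : ℕ))) hD.eq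
      have h3 : (B : ZMod (l : ℕ)) = 0 :=
        (ZMod.natCast_eq_zero_iff _ _).mpr ((hdv l).trans hD.dB)
      push_cast at h1 ⊢
      rw [h3, zero_pow hD.y0.ne', sub_eq_zero] at h1
      have h4 : (A : ZMod (l : ℕ)) ^ (t B).1 ≠ 0 := pow_ne_zero _ (hAl B hB l)
      rw [mul_pow, inv_pow, h1, pow_add, ← pow_mul, mul_comm (t B).1 q]
      have h5 : (A : ZMod (l : ℕ)) ^ (q * (t B).1) ≠ 0 := pow_ne_zero _ (hAl B hB l)
      field_simp
    · intro B hB B' hB' hBB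
      have hD := ht B hB
      have hD' := ht B' hB'
      have hroot : ∀ l : ℕ, l.Prime → l ∣ d →
          (t B).2.2 * A ^ (t B').1 ≡ (t B').2.2 * A ^ (t B).1 [MOD l] := by
        intro l hl hld
        have hmem : l ∈ d.primeFactors := Nat.mem_primeFactors.mpr ⟨hl, hld, hd0.ne'⟩
        have h1 := congrFun hBB ⟨l, hmem⟩
        simp only at h1
        have h2 : (A : ZMod l) ≠ 0 := hAl B hB ⟨l, hmem⟩
        have : Fact l.Prime := ⟨hl⟩
        have h3 : (A : ZMod l) ^ (t B).1 ≠ 0 := pow_ne_zero _ h2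
        have h4 : (A : ZMod l) ^ (t B').1 ≠ 0 := pow_ne_zero _ h2
        rw [← ZMod.natCast_eq_natCast_iff]
        push_cast
        field_simp at h1
        rw [h1]
        ring
      rcases le_total (t B).2.1 (t B').2.1 with h | h
      · exact hD.unique hs hq hq20 hN hd hqd hA hD' h hroot
      · exact (hD'.unique hs hq hq20 hN hd hqd hA hD h (fun l hl hld => (hroot l hl hld).symm)).symm
  rwa [Set.ncard_coe_finset] at key

/-- A covering bound. -/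
theorem ncard_le_of_cover {ι : Type*} [DecidableEq ι] {N K : ℕ} (J : Finset ι) (S : ι → ℕ → Set ℕ)
    (hS : ∀ j ∈ J, ∀ A ∈ Finset.Icc 1 N, (S j A).Finite ∧ (S j A).ncard ≤ K)
    (P : Set (ℕ × ℕ)) (hP : ∀ z ∈ P, z.1 ∈ Finset.Icc 1 N ∧ ∃ j ∈ J, z.2 ∈ S j z.1) :
    P.Finite ∧ P.ncard ≤ N * J.card * K := by
  classical
  let F : ℕ → ι → Finset ℕ := fun A j => if h : (S j A).Finite then h.toFinset else ∅
  let U : Finset (ℕ × ℕ) := (Finset.Icc 1 N ×ˢ J).biUnion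
    (fun z => (F z.1 z.2).image (fun B => (z.1, B)))
  have hsub : P ⊆ (U : Set (ℕ × ℕ)) := by
    rintro ⟨A, B⟩ hz
    obtain ⟨h1, j, hj, hsol⟩ := hP _ hz
    simp only [U, Finset.coe_biUnion, Set.mem_iUnion, Finset.mem_coe, exists_prop]
    refine ⟨(A, j), Finset.mem_product.mpr ⟨h1, hj⟩, ?_⟩
    rw [Finset.mem_image]
    refine ⟨B, ?_, rfl⟩
    simp only [F]
    rw [dif_pos (hS j hj A h1).1, Set.Finite.mem_toFinset]
    exact hsol
  refine ⟨(Finset.finite_toSet U).subset hsub, ?_⟩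
  have hF : ∀ z ∈ Finset.Icc 1 N ×ˢ J, ((F z.1 z.2).image (fun B => (z.1, B))).card ≤ K := by
    intro z hz
    refine Finset.card_image_le.trans ?_
    obtain ⟨hz1, hz2⟩ := Finset.mem_product.mp hz
    simp only [F]
    rw [dif_pos (hS z.2 hz2 z.1 hz1).1, ← Set.ncard_eq_toFinset_card _ (hS z.2 hz2 z.1 hz1).1]
    exact (hS z.2 hz2 z.1 hz1).2
  calc P.ncard ≤ (U : Set (ℕ × ℕ)).ncard := Set.ncard_le_ncard hsub (Finset.finite_toSet _)
    _ = U.card := Set.ncard_coe_finset _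
    _ ≤ ∑ z ∈ Finset.Icc 1 N ×ˢ J, ((F z.1 z.2).image (fun B => (z.1, B))).card :=
        Finset.card_biUnion_le
    _ ≤ ∑ _z ∈ Finset.Icc 1 N ×ˢ J, K := Finset.sum_le_sum hF
    _ = N * J.card * K := by
        rw [Finset.sum_const, Finset.card_product, Nat.card_Icc, smul_eq_mul, Nat.add_sub_cancel]

/-- The pairs `(A, B)` with a solution for a prime exponent `q ≤ Q`, where `B` has a rough divisor
`d ≤ D` with `N^9 ≤ d^10`. -/
def BadC (N m Q D : ℕ) : Set (ℕ × ℕ) :=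
  {z | 0 < z.1 ∧ z.1 ≤ N ∧ ∃ (q i d : ℕ) (s : ℤ), q.Prime ∧ 20 ≤ q ∧ q ≤ Q ∧ i < q ∧
    (s = 1 ∨ s = -1) ∧ 0 < d ∧ d ≤ D ∧ d ≤ N ∧ (∀ p : ℕ, p.Prime → p ∣ d → Fc.yy N m < p) ∧
    N ^ 9 ≤ d ^ 10 ∧ z.2 ∈ SolB N q i d z.1 s}

theorem badC_card {N m Q D : ℕ} (hm : 0 < m) (hN0 : 0 < N) (hN : (16 * Q ^ 2) ^ 100 ≤ N)
    (hQ : Q ≤ Fc.yy N m) :
    (BadC N m Q D).Finite ∧ (BadC N m Q D).ncard ≤ N * ((Q + 1) * ((Q + 1) * (D * 2))) * Q ^ m := by
  classical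
  set J : Finset (ℕ × ℕ × ℕ × ℤ) := (Finset.range (Q + 1) ×ˢ Finset.range (Q + 1) ×ˢ
    Finset.Icc 1 D ×ˢ ({1, -1} : Finset ℤ)).filter (fun j => j.1.Prime ∧ 20 ≤ j.1 ∧ j.1 ≤ Q ∧
      0 < j.2.2.1 ∧ j.2.2.1 ≤ N ∧ (∀ p : ℕ, p.Prime → p ∣ j.2.2.1 → Fc.yy N m < p) ∧
      N ^ 9 ≤ j.2.2.1 ^ 10) with hJ
  have hJc : J.card ≤ (Q + 1) * ((Q + 1) * (D * 2)) := by
    refine (Finset.card_filter_le _ _).trans (le_of_eq ?_)
    rw [Finset.card_product, Finset.card_product, Finset.card_product, Finset.card_range,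
      Nat.card_Icc, Nat.add_sub_cancel]
    congr 1
  have h := ncard_le_of_cover (N := N) (K := Q ^ m) J
    (fun j A => SolB N j.1 j.2.1 j.2.2.1 A j.2.2.2) (by
      rintro ⟨q, i, d, s⟩ hj A hA
      rw [hJ, Finset.mem_filter] at hj
      obtain ⟨hj1, hq, hq20, hqQ, hd0, hdN, hdp, hd⟩ := hj
      simp only [Finset.mem_product, Finset.mem_range, Finset.mem_Icc, Finset.mem_insert,
        Finset.mem_singleton] at hj1
      simp only at hq hq20 hqQ hd0 hdN hdp hd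
      rw [Finset.mem_Icc] at hA
      refine ⟨solB_finite _ _ _ _ _ _, ?_⟩
      have hqN : (16 * q ^ 2) ^ 100 ≤ N :=
        (Nat.pow_le_pow_left (Nat.mul_le_mul_left _ (Nat.pow_le_pow_left hqQ 2)) 100).trans hN
      refine (solB_card hj1.2.2.2 hq hq20 hqN hd hd0 ?_ hA.1).trans ?_
      · intro p hp hpd hpq
        have h1 := hdp p hp hpd
        have h2 := Nat.le_of_dvd hq.pos hpq
        omega
      · calc q ^ d.primeFactors.card ≤ q ^ m :=
              Nat.pow_le_pow_right hq.pos (Fc.primeFactors_card_le hm hN0 hd0 hdN hdp)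
          _ ≤ Q ^ m := Nat.pow_le_pow_left hqQ m)
    (BadC N m Q D) (by
      rintro ⟨A, B⟩ ⟨hA0, hAN, q, i, d, s, hq, hq20, hqQ, hiq, hs, hd0, hdD, hdN, hdp, hd, hsol⟩
      refine ⟨Finset.mem_Icc.mpr ⟨hA0, hAN⟩, (q, i, d, s), ?_, hsol⟩
      rw [hJ, Finset.mem_filter]
      refine ⟨?_, hq, hq20, hqQ, hd0, hdN, hdp, hd⟩
      simp only [Finset.mem_product, Finset.mem_range, Finset.mem_Icc, Finset.mem_insert,
        Finset.mem_singleton]
      exact ⟨by omega, by omega, ⟨hd0, hdD⟩, hs⟩)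
  refine ⟨h.1, h.2.trans ?_⟩
  exact Nat.mul_le_mul_right _ (Nat.mul_le_mul_left _ hJc)

end Pool.Agent.H374R2.T
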