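import Mathlib

/-!
# Task I: divisibility of the interpolation determinant
-/

namespace Pool.Agent.H374R2.T.TaskI

open Finset

/-- weight lemma -/
theorem weight {n Y : ℕ} (hY : n ≤ Y) (f : Fin n → ℕ × ℕ) (hf : Function.Injective f) :
    n * (n - 1) / 2 ≤ ∑ c, ((f c).1 + Y * (f c).2) := by
  have h1 : ∀ c, ((range n).filter (fun v => v < (f c).1 + Y * (f c).2)).card
      ≤ (f c).1 + Y * (f c).2 := by
    intro c
    calc ((range n).filter (fun v => v < (f c).1 + Y * (f c).2)).card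
        ≤ (range ((f c).1 + Y * (f c).2)).card := by
          refine card_le_card fun v hv => ?_
          rw [mem_filter] at hv
          exact mem_range.2 hv.2
      _ = _ := card_range _
  have h2 : ∀ v ∈ range n, n - (v + 1) ≤
      ((univ : Finset (Fin n)).filter (fun c => v < (f c).1 + Y * (f c).2)).card := by
    intro v hv
    rw [mem_range] at hv
    have h3 : ((univ : Finset (Fin n)).filter (fun c => ¬ v < (f c).1 + Y * (f c).2)).card
        ≤ v + 1 := by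
      have h4 : ((univ : Finset (Fin n)).filter (fun c => ¬ v < (f c).1 + Y * (f c).2)).image f
          ⊆ (range (v + 1)).image (fun m => (m, 0)) := by
        intro x hx
        rw [mem_image] at hx
        obtain ⟨c, hc, rfl⟩ := hx
        rw [mem_filter] at hc
        have h5 : (f c).1 + Y * (f c).2 ≤ v := not_lt.1 hc.2
        have h6 : (f c).2 = 0 := by
          by_contra h7
          have h8 : 1 ≤ (f c).2 := Nat.one_le_iff_ne_zero.2 h7
          have h9 : Y * 1 ≤ Y * (f c).2 := Nat.mul_le_mul_left _ h8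
          omega
        rw [mem_image]
        refine ⟨(f c).1, mem_range.2 (by omega), ?_⟩
        rw [← h6]
      calc _ = (((univ : Finset (Fin n)).filter
              (fun c => ¬ v < (f c).1 + Y * (f c).2)).image f).card :=
            (card_image_of_injective _ hf).symm
        _ ≤ ((range (v + 1)).image (fun m => ((m, 0) : ℕ × ℕ))).card := card_le_card h4
        _ ≤ (range (v + 1)).card := card_image_le
        _ = v + 1 := card_range _
    have h10 := card_filter_add_card_filter_not (s := (univ : Finset (Fin n)))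
      (fun c => v < (f c).1 + Y * (f c).2)
    rw [card_univ, Fintype.card_fin] at h10
    omega
  calc n * (n - 1) / 2 = ∑ v ∈ range n, v := (sum_range_id n).symm
    _ = ∑ v ∈ range n, (n - 1 - v) := (sum_range_reflect (fun v => v) n).symm
    _ ≤ ∑ v ∈ range n,
        ((univ : Finset (Fin n)).filter (fun c => v < (f c).1 + Y * (f c).2)).card := by
        refine sum_le_sum fun v hv => ?_
        have := h2 v hv
        omega
    _ = ∑ c, ((range n).filter (fun v => v < (f c).1 + Y * (f c).2)).card := by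
        simp_rw [card_filter]
        exact sum_comm
    _ ≤ _ := sum_le_sum fun c _ => h1 c

/-- the first expansion -/
theorem expand_choose {R : Type*} [CommRing R] (x : R) (z k M : ℕ) (hM : z < M) :
    (Nat.choose z k : R) * x ^ z =
      ∑ m ∈ range M, (Nat.choose z m : R) * ((Nat.choose m k : R) * x ^ k * (x - 1) ^ (m - k)) := by
  by_cases hk : z < k
  · rw [Nat.choose_eq_zero_of_lt hk, Nat.cast_zero, zero_mul]
    symm
    refine sum_eq_zero fun m _ => ?_
    by_cases hm : z < m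
    · rw [Nat.choose_eq_zero_of_lt hm, Nat.cast_zero, zero_mul]
    · rw [Nat.choose_eq_zero_of_lt (show m < k by omega), Nat.cast_zero]
      ring
  · have hk' : k ≤ z := not_lt.1 hk
    have h1 : x ^ (z - k) = ∑ j ∈ range (z - k + 1), (x - 1) ^ j * (Nat.choose (z - k) j : R) := by
      conv_lhs => rw [show x = (x - 1) + 1 by ring]
      rw [add_pow]
      refine sum_congr rfl fun j _ => ?_
      rw [one_pow, mul_one]
    have h2 : x ^ z = x ^ k * x ^ (z - k) := by rw [← pow_add]; congr 1; omega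
    rw [h2, h1]
    have h3 : ∑ m ∈ range M, (Nat.choose z m : R) *
        ((Nat.choose m k : R) * x ^ k * (x - 1) ^ (m - k)) =
        ∑ m ∈ Ico k (z + 1), (Nat.choose z m : R) *
        ((Nat.choose m k : R) * x ^ k * (x - 1) ^ (m - k)) := by
      symm
      refine sum_subset ?_ ?_
      · intro m hm
        rw [mem_Ico] at hm
        exact mem_range.2 (by omega)
      · intro m _ hm
        rw [mem_Ico, not_and_or, not_le, not_lt] at hm
        rcases hm with hm | hm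
        · rw [Nat.choose_eq_zero_of_lt hm, Nat.cast_zero]
          ring
        · rw [Nat.choose_eq_zero_of_lt (show z < m by omega), Nat.cast_zero, zero_mul]
    rw [h3, sum_Ico_eq_sum_range, mul_sum, mul_sum]
    rw [show z + 1 - k = z - k + 1 by omega]
    refine sum_congr rfl fun j hj => ?_
    rw [mem_range] at hj
    have h4 : z.choose (k + j) * (k + j).choose k = z.choose k * (z - k).choose j := by
      have := Nat.choose_mul (n := z) (k := k + j) (s := k) (by omega)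
      rw [this]
      congr 2
      omega
    have h5 : ((z.choose (k + j) : ℕ) : R) * ((k + j).choose k : ℕ) =
        (z.choose k : ℕ) * ((z - k).choose j : ℕ) := by
      rw [← Nat.cast_mul, h4, Nat.cast_mul]
    rw [show k + j - k = j by omega]
    calc (z.choose k : R) * (x ^ k * ((x - 1) ^ j * ((z - k).choose j : R)))
        = ((z.choose k : ℕ) * ((z - k).choose j : ℕ) : R) * (x ^ k * (x - 1) ^ j) := by ring
      _ = (((z.choose (k + j) : ℕ) : R) * ((k + j).choose k : ℕ)) * (x ^ k * (x - 1) ^ j) := by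
          rw [h5]
      _ = _ := by ring

theorem expand_pow {R : Type*} [CommRing R] (x : R) (t M : ℕ) (hM : t < M) :
    x ^ t = ∑ j ∈ range M, (Nat.choose t j : R) * (x - 1) ^ j := by
  have h := expand_choose x t 0 M hM
  simp only [Nat.choose_zero_right, Nat.cast_one, one_mul, pow_zero, Nat.sub_zero] at h
  exact h

/-- Cauchy-Binet type expansion -/
theorem det_expand {R : Type*} [CommRing R] {n : ℕ} {P : Type*} [Fintype P] [DecidableEq P]
    (A : Fin n → P → R) (C : P → Fin n → R) :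
    Matrix.det (Matrix.of fun a c => ∑ p, A a p * C p c) =
      ∑ f : Fin n → P, (∏ c, C (f c) c) * Matrix.det (Matrix.of fun c a => A a (f c)) := by
  rw [← Matrix.det_transpose]
  have h1 : (Matrix.of fun a c => ∑ p, A a p * C p c).transpose =
      Matrix.of fun c => ∑ p, (C p c) • (fun a => A a p) := by
    ext c a
    simp only [Matrix.transpose_apply, Matrix.of_apply, Finset.sum_apply, Pi.smul_apply,
      smul_eq_mul]
    exact sum_congr rfl fun p _ => mul_comm _ _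
  rw [h1]
  have h2 := (Matrix.detRowAlternating (n := Fin n) (R := R)).toMultilinearMap.map_sum
    (fun (c : Fin n) (p : P) => (C p c) • (fun a => A a p))
  have h3 : Matrix.det (Matrix.of fun c => ∑ p, (C p c) • (fun a => A a p)) =
      ∑ f : Fin n → P, Matrix.det (Matrix.of fun c => (C (f c) c) • (fun a => A a (f c))) := h2
  rw [h3]
  refine sum_congr rfl fun f _ => ?_
  have h4 := (Matrix.detRowAlternating (n := Fin n) (R := R)).toMultilinearMap.map_smul_univ
    (fun c => C (f c) c) (fun c => (fun a => A a (f c)))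
  exact h4

/-- `x ≡ 1 mod d^e` -/
def Cg {R : Type*} [CommRing R] (d : R) (e : ℕ) (x : Rˣ) : Prop := ∃ y : R, (x : R) - 1 = d ^ e * y

section cg
variable {R : Type*} [CommRing R] {d : R} {e : ℕ} {x x' : Rˣ}

theorem Cg.mul (h : Cg d e x) (h' : Cg d e x') : Cg d e (x * x') := by
  obtain ⟨y, hy⟩ := h
  obtain ⟨y', hy'⟩ := h'
  refine ⟨(x : R) * y' + y, ?_⟩
  rw [Units.val_mul]
  linear_combination (x : R) * hy' + hy

theorem Cg.inv (h : Cg d e x) : Cg d e x⁻¹ := by
  obtain ⟨y, hy⟩ := h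
  refine ⟨-((x⁻¹ : Rˣ) : R) * y, ?_⟩
  have h1 : ((x⁻¹ : Rˣ) : R) * (x : R) = 1 := by rw [← Units.val_mul, inv_mul_cancel, Units.val_one]
  linear_combination -((x⁻¹ : Rˣ) : R) * hy - (-h1)

theorem Cg.one : Cg d e (1 : Rˣ) := ⟨0, by simp⟩

theorem Cg.pow (h : Cg d e x) (k : ℕ) : Cg d e (x ^ k) := by
  induction k with
  | zero => rw [pow_zero]; exact Cg.one
  | succ k ih => rw [pow_succ]; exact ih.mul h

theorem Cg.of_sub {c : R} (h : (x : R) - (x' : R) = d ^ e * c) : Cg d e (x * x'⁻¹) := by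
  refine ⟨((x'⁻¹ : Rˣ) : R) * c, ?_⟩
  have h1 : ((x'⁻¹ : Rˣ) : R) * (x' : R) = 1 := by
    rw [← Units.val_mul, inv_mul_cancel, Units.val_one]
  rw [Units.val_mul]
  linear_combination ((x'⁻¹ : Rˣ) : R) * h + h1

end cg

/-- congruence of naturals in `ZMod` -/
theorem sub_of_modEq {D e W x y : ℕ} (h : x ≡ y [MOD D ^ e]) :
    ∃ c : ZMod (D ^ W), (x : ZMod (D ^ W)) - (y : ZMod (D ^ W)) = (D : ZMod (D ^ W)) ^ e * c := by
  obtain ⟨c, hc⟩ := (Nat.modEq_iff_dvd.1 h.symm)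
  refine ⟨(c : ZMod (D ^ W)), ?_⟩
  have := congrArg (fun z : ℤ => (z : ZMod (D ^ W))) hc
  push_cast at this
  exact this

/-- Task I (divisibility of the interpolation determinant). -/
theorem det_dvd {n K L D Y i q b₁ b₂ c₁ c₂ : ℕ} (hD : 2 ≤ D)
    (hb₁ : Nat.Coprime b₁ D) (hb₂ : Nat.Coprime b₂ D) (hc₁ : Nat.Coprime c₁ D)
    (hc₂ : Nat.Coprime c₂ D) (hb : b₁ ≡ b₂ [MOD D]) (hc : c₁ ≡ c₂ [MOD D]) (hY : n ≤ Y)
    (hrel : b₁ ^ q * c₂ ^ i ≡ b₂ ^ q * c₁ ^ i [MOD D ^ Y]) (hiq : Nat.Coprime i q) (hi : 0 < i)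
    (hq : 0 < q) (r s k l : Fin n → ℕ) (hk : ∀ c, k c < K) (hl : ∀ c, l c < L) :
    (D : ℤ) ^ (n * (n - 1) / 2 - n * K) ∣ Matrix.det (Matrix.of fun a c : Fin n =>
      ((Nat.choose (r a * i + s a * q) (k c) * (b₁ ^ (r a * l c) * b₂ ^ (r a * (L - 1 - l c)) *
        c₁ ^ (s a * l c) * c₂ ^ (s a * (L - 1 - l c))) : ℕ) : ℤ)) := by
  classical
  set W := n * (n - 1) / 2 - n * K with hW
  have hcast : ((D : ℤ) ^ W) = ((D ^ W : ℕ) : ℤ) := by push_cast; rfl
  rw [hcast, ← ZMod.intCast_zmod_eq_zero_iff_dvd]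
  -- the units
  obtain ⟨B1, hB1⟩ : ∃ B1 : (ZMod (D ^ W))ˣ, (B1 : ZMod (D ^ W)) = b₁ :=
    ⟨ZMod.unitOfCoprime b₁ (Nat.Coprime.pow_right W hb₁), ZMod.coe_unitOfCoprime _ _⟩
  obtain ⟨B2, hB2⟩ : ∃ B2 : (ZMod (D ^ W))ˣ, (B2 : ZMod (D ^ W)) = b₂ :=
    ⟨ZMod.unitOfCoprime b₂ (Nat.Coprime.pow_right W hb₂), ZMod.coe_unitOfCoprime _ _⟩
  obtain ⟨C1, hC1⟩ : ∃ C1 : (ZMod (D ^ W))ˣ, (C1 : ZMod (D ^ W)) = c₁ :=
    ⟨ZMod.unitOfCoprime c₁ (Nat.Coprime.pow_right W hc₁), ZMod.coe_unitOfCoprime _ _⟩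
  obtain ⟨C2, hC2⟩ : ∃ C2 : (ZMod (D ^ W))ˣ, (C2 : ZMod (D ^ W)) = c₂ :=
    ⟨ZMod.unitOfCoprime c₂ (Nat.Coprime.pow_right W hc₂), ZMod.coe_unitOfCoprime _ _⟩
  -- the exponents
  obtain ⟨u, v, huv⟩ : ∃ u v : ℕ, u * i = 1 + v * q := by
    by_cases hq1 : q = 1
    · exact ⟨1, i - 1, by subst hq1; omega⟩
    · obtain ⟨m, -, hm⟩ := Nat.exists_mul_mod_eq_one_of_coprime hiq (by omega)
      refine ⟨m, i * m / q, ?_⟩
      have := Nat.div_add_mod (i * m) q
      rw [hm] at this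
      rw [mul_comm m i, mul_comm _ q]
      omega
  obtain ⟨β, hβ⟩ : ∃ β, β = B1 * B2⁻¹ := ⟨_, rfl⟩
  obtain ⟨κ, hκ⟩ : ∃ κ, κ = C1 * C2⁻¹ := ⟨_, rfl⟩
  obtain ⟨g, hg⟩ : ∃ g, g = β ^ u * (κ ^ v)⁻¹ := ⟨_, rfl⟩
  obtain ⟨ω, hω⟩ : ∃ ω, ω = κ ^ i * (β ^ q)⁻¹ := ⟨_, rfl⟩
  have cgβ : Cg (D : ZMod (D ^ W)) 1 β := by
    obtain ⟨c, hc'⟩ := sub_of_modEq (D := D) (W := W) (e := 1) (x := b₁) (y := b₂)
      (by rw [pow_one]; exact hb)
    rw [hβ]
    exact Cg.of_sub (by rw [hB1, hB2]; exact hc')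
  have cgκ : Cg (D : ZMod (D ^ W)) 1 κ := by
    obtain ⟨c, hc'⟩ := sub_of_modEq (D := D) (W := W) (e := 1) (x := c₁) (y := c₂)
      (by rw [pow_one]; exact hc)
    rw [hκ]
    exact Cg.of_sub (by rw [hC1, hC2]; exact hc')
  have cgg : Cg (D : ZMod (D ^ W)) 1 g := by
    rw [hg]
    exact (cgβ.pow u).mul (cgκ.pow v).inv
  have cgω : Cg (D : ZMod (D ^ W)) Y ω := by
    obtain ⟨c, hc'⟩ := sub_of_modEq (W := W) hrel
    have h1 : Cg (D : ZMod (D ^ W)) Y ((B1 ^ q * C2 ^ i) * (B2 ^ q * C1 ^ i)⁻¹) := by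
      refine Cg.of_sub (c := c) ?_
      push_cast [hB1, hB2, hC1, hC2]
      push_cast at hc'
      exact hc'
    have h2 : ω = ((B1 ^ q * C2 ^ i) * (B2 ^ q * C1 ^ i)⁻¹)⁻¹ := by
      rw [hω, hβ, hκ, mul_pow, mul_pow, inv_pow, inv_pow, mul_inv, inv_inv, mul_inv, inv_inv]
      simp only [mul_inv]
      group
      ac_rfl
    rw [h2]
    exact h1.inv
  have hkey : ∀ ρ σ : ℕ, β ^ ρ * κ ^ σ = g ^ (ρ * i + σ * q) * ω ^ (v * ρ + u * σ) := by
    intro ρ σ
    have e1 : u * (ρ * i + σ * q) = ρ + q * (v * ρ + u * σ) := by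
      calc u * (ρ * i + σ * q) = ρ * (u * i) + u * σ * q := by ring
        _ = ρ * (1 + v * q) + u * σ * q := by rw [huv]
        _ = _ := by ring
    have e2 : i * (v * ρ + u * σ) = σ + v * (ρ * i + σ * q) := by
      calc i * (v * ρ + u * σ) = i * v * ρ + σ * (u * i) := by ring
        _ = i * v * ρ + σ * (1 + v * q) := by rw [huv]
        _ = _ := by ring
    rw [hg, hω, mul_pow, mul_pow, ← pow_mul, inv_pow, ← pow_mul, ← pow_mul, inv_pow, ← pow_mul,
      e1, e2, pow_add, pow_add]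
    have : β ^ ρ * β ^ (q * (v * ρ + u * σ)) * (κ ^ (v * (ρ * i + σ * q)))⁻¹ *
        (κ ^ σ * κ ^ (v * (ρ * i + σ * q)) * (β ^ (q * (v * ρ + u * σ)))⁻¹) =
        (β ^ ρ * κ ^ σ) * (β ^ (q * (v * ρ + u * σ)) * (β ^ (q * (v * ρ + u * σ)))⁻¹) *
        (κ ^ (v * (ρ * i + σ * q)) * (κ ^ (v * (ρ * i + σ * q)))⁻¹) := by
      ac_rfl
    rw [this, mul_inv_cancel, mul_inv_cancel, mul_one, mul_one]
  -- the expansion
  let z : Fin n → ℕ := fun a => r a * i + s a * q
  let t : Fin n → ℕ := fun a => v * r a + u * s a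
  let M : ℕ := (∑ a, (z a + t a)) + 1
  have hzM : ∀ a, z a < M := fun a => by
    have := Finset.single_le_sum (f := fun a => z a + t a) (fun a _ => Nat.zero_le _)
      (Finset.mem_univ a)
    show _ < (∑ a, (z a + t a)) + 1
    omega
  have htM : ∀ a, t a < M := fun a => by
    have := Finset.single_le_sum (f := fun a => z a + t a) (fun a _ => Nat.zero_le _)
      (Finset.mem_univ a)
    show _ < (∑ a, (z a + t a)) + 1
    omega
  let U : Fin n → ZMod (D ^ W) := fun a => (b₂ : ZMod (D ^ W)) ^ (r a * (L - 1)) *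
    (c₂ : ZMod (D ^ W)) ^ (s a * (L - 1))
  let A : Fin n → Fin M × Fin M → ZMod (D ^ W) := fun a p =>
    U a * ((Nat.choose (z a) p.1 : ZMod (D ^ W)) * (Nat.choose (t a) p.2 : ZMod (D ^ W)))
  let C : Fin M × Fin M → Fin n → ZMod (D ^ W) := fun p c =>
    ((Nat.choose (p.1 : ℕ) (k c) : ZMod (D ^ W)) * ((g ^ l c : (ZMod (D ^ W))ˣ) : ZMod (D ^ W)) ^ k c
      * (((g ^ l c : (ZMod (D ^ W))ˣ) : ZMod (D ^ W)) - 1) ^ ((p.1 : ℕ) - k c)) *
      (((ω ^ l c : (ZMod (D ^ W))ˣ) : ZMod (D ^ W)) - 1) ^ (p.2 : ℕ)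
  have hentry : ∀ a c, ((((Nat.choose (r a * i + s a * q) (k c) * (b₁ ^ (r a * l c) *
      b₂ ^ (r a * (L - 1 - l c)) * c₁ ^ (s a * l c) * c₂ ^ (s a * (L - 1 - l c))) : ℕ) : ℤ)) :
      ZMod (D ^ W)) = ∑ p, A a p * C p c := by
    intro a c
    have h1 : ∑ p, A a p * C p c = U a * (((Nat.choose (z a) (k c) : ZMod (D ^ W)) *
        ((g ^ l c : (ZMod (D ^ W))ˣ) : ZMod (D ^ W)) ^ z a) *
        ((ω ^ l c : (ZMod (D ^ W))ˣ) : ZMod (D ^ W)) ^ t a) := by
      rw [expand_choose _ (z a) (k c) M (hzM a), expand_pow _ (t a) M (htM a),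
        Finset.sum_mul_sum, Finset.mul_sum, Fintype.sum_prod_type, Finset.sum_range]
      refine Finset.sum_congr rfl fun m _ => ?_
      rw [Finset.mul_sum, Finset.sum_range]
      refine Finset.sum_congr rfl fun j _ => ?_
      simp only [A, C]
      ring
    rw [h1]
    have h2 : ((g ^ l c : (ZMod (D ^ W))ˣ) : ZMod (D ^ W)) ^ z a *
        ((ω ^ l c : (ZMod (D ^ W))ˣ) : ZMod (D ^ W)) ^ t a =
        (((β ^ r a * κ ^ s a) ^ l c : (ZMod (D ^ W))ˣ) : ZMod (D ^ W)) := by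
      rw [hkey]
      push_cast
      rw [mul_pow, ← pow_mul, ← pow_mul, ← pow_mul, ← pow_mul, mul_comm (l c), mul_comm (l c)]
    have h3 : U a * (((β ^ r a * κ ^ s a) ^ l c : (ZMod (D ^ W))ˣ) : ZMod (D ^ W)) =
        ((b₁ : ZMod (D ^ W)) ^ (r a * l c) * (b₂ : ZMod (D ^ W)) ^ (r a * (L - 1 - l c)) *
        (c₁ : ZMod (D ^ W)) ^ (s a * l c) * (c₂ : ZMod (D ^ W)) ^ (s a * (L - 1 - l c))) := by
      have hL : L - 1 = (L - 1 - l c) + l c := by have := hl c; omega
      have h4 : U a = ((B2 ^ (r a * (L - 1)) * C2 ^ (s a * (L - 1)) : (ZMod (D ^ W))ˣ) :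
          ZMod (D ^ W)) := by
        push_cast [hB2, hC2]
        rfl
      rw [h4, ← hB1, ← hB2, ← hC1, ← hC2]
      have h5 : (B2 ^ (r a * (L - 1)) * C2 ^ (s a * (L - 1))) * (β ^ r a * κ ^ s a) ^ l c =
          B1 ^ (r a * l c) * B2 ^ (r a * (L - 1 - l c)) * C1 ^ (s a * l c) *
            C2 ^ (s a * (L - 1 - l c)) := by
        have e1 : r a * (L - 1) = r a * (L - 1 - l c) + r a * l c := by
          conv_lhs => rw [hL]
          ring
        have e2 : s a * (L - 1) = s a * (L - 1 - l c) + s a * l c := by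
          conv_lhs => rw [hL]
          ring
        rw [e1, e2, pow_add, pow_add, hβ, hκ, mul_pow, mul_pow, mul_pow, inv_pow, inv_pow,
          mul_pow, mul_pow, ← pow_mul, ← pow_mul, inv_pow, inv_pow, ← pow_mul, ← pow_mul]
        have : B2 ^ (r a * (L - 1 - l c)) * B2 ^ (r a * l c) *
            (C2 ^ (s a * (L - 1 - l c)) * C2 ^ (s a * l c)) *
            (B1 ^ (r a * l c) * (B2 ^ (r a * l c))⁻¹ *
              (C1 ^ (s a * l c) * (C2 ^ (s a * l c))⁻¹)) =
            (B1 ^ (r a * l c) * B2 ^ (r a * (L - 1 - l c)) * C1 ^ (s a * l c) *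
              C2 ^ (s a * (L - 1 - l c))) * (B2 ^ (r a * l c) * (B2 ^ (r a * l c))⁻¹) *
              (C2 ^ (s a * l c) * (C2 ^ (s a * l c))⁻¹) := by ac_rfl
        rw [this, mul_inv_cancel, mul_inv_cancel, mul_one, mul_one]
      rw [← Units.val_mul, h5]
      push_cast
      rfl
    have h6 : U a * (((Nat.choose (z a) (k c) : ZMod (D ^ W)) *
        ((g ^ l c : (ZMod (D ^ W))ˣ) : ZMod (D ^ W)) ^ z a) *
        ((ω ^ l c : (ZMod (D ^ W))ˣ) : ZMod (D ^ W)) ^ t a) =
        (Nat.choose (z a) (k c) : ZMod (D ^ W)) *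
        (U a * (((g ^ l c : (ZMod (D ^ W))ˣ) : ZMod (D ^ W)) ^ z a *
        ((ω ^ l c : (ZMod (D ^ W))ˣ) : ZMod (D ^ W)) ^ t a)) := by ring
    rw [h6, h2, h3]
    push_cast
    rfl
  have hmap : ((Matrix.det (Matrix.of fun a c : Fin n =>
      ((Nat.choose (r a * i + s a * q) (k c) * (b₁ ^ (r a * l c) * b₂ ^ (r a * (L - 1 - l c)) *
        c₁ ^ (s a * l c) * c₂ ^ (s a * (L - 1 - l c))) : ℕ) : ℤ)) : ℤ) : ZMod (D ^ W)) =
      Matrix.det (Matrix.of fun a c => ∑ p, A a p * C p c) := by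
    have h1 := (Int.castRingHom (ZMod (D ^ W))).map_det (Matrix.of fun a c : Fin n =>
      ((Nat.choose (r a * i + s a * q) (k c) * (b₁ ^ (r a * l c) * b₂ ^ (r a * (L - 1 - l c)) *
        c₁ ^ (s a * l c) * c₂ ^ (s a * (L - 1 - l c))) : ℕ) : ℤ))
    refine Eq.trans h1 ?_
    congr 1
    ext a c
    rw [RingHom.mapMatrix_apply, Matrix.map_apply, Matrix.of_apply, Matrix.of_apply]
    exact hentry a c
  rw [hmap, det_expand]
  refine Finset.sum_eq_zero fun f _ => ?_
  by_cases hf : Function.Injective f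
  · have hC : ∀ c, ∃ y, C (f c) c = (D : ZMod (D ^ W)) ^
        ((((f c).1 : ℕ) - k c) + Y * ((f c).2 : ℕ)) * y := by
      intro c
      obtain ⟨y1, hy1⟩ := cgg.pow (l c)
      obtain ⟨y2, hy2⟩ := cgω.pow (l c)
      refine ⟨(Nat.choose ((f c).1 : ℕ) (k c) : ZMod (D ^ W)) *
        ((g ^ l c : (ZMod (D ^ W))ˣ) : ZMod (D ^ W)) ^ k c * y1 ^ (((f c).1 : ℕ) - k c) *
        y2 ^ ((f c).2 : ℕ), ?_⟩
      simp only [C]
      rw [hy1, hy2, pow_one, mul_pow, mul_pow, ← pow_mul, pow_add]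
      ring
    choose y hy using hC
    have hprod : ∏ c, C (f c) c = (D : ZMod (D ^ W)) ^
        (∑ c, ((((f c).1 : ℕ) - k c) + Y * ((f c).2 : ℕ))) * ∏ c, y c := by
      rw [← Finset.prod_pow_eq_pow_sum, ← Finset.prod_mul_distrib]
      exact Finset.prod_congr rfl fun c _ => hy c
    have hinj : Function.Injective (fun c => (((f c).1 : ℕ), ((f c).2 : ℕ))) := by
      intro c c' h
      rw [Prod.mk.injEq] at h
      exact hf (Prod.ext (Fin.ext h.1) (Fin.ext h.2))
    have hw := weight hY _ hinj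
    simp only at hw
    have hE : W ≤ ∑ c, ((((f c).1 : ℕ) - k c) + Y * ((f c).2 : ℕ)) := by
      have h1 : ∑ c, (((f c).1 : ℕ) + Y * ((f c).2 : ℕ)) ≤
          ∑ c, (((((f c).1 : ℕ) - k c) + Y * ((f c).2 : ℕ)) + K) := by
        refine Finset.sum_le_sum fun c _ => ?_
        have := hk c
        omega
      rw [Finset.sum_add_distrib (g := fun _ => K), Finset.sum_const, Finset.card_univ,
        Fintype.card_fin, smul_eq_mul] at h1
      omega
    have hDW : (D : ZMod (D ^ W)) ^ W = 0 := by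
      have := ZMod.natCast_self (D ^ W)
      push_cast at this
      exact this
    obtain ⟨e, he⟩ := Nat.exists_eq_add_of_le hE
    rw [hprod, he, pow_add, hDW, zero_mul, zero_mul, zero_mul]
  · rw [Function.not_injective_iff] at hf
    obtain ⟨c, c', h1, h2⟩ := hf
    rw [Matrix.det_zero_of_row_eq h2, mul_zero]
    ext a
    simp only [Matrix.of_apply, h1]

end Pool.Agent.H374R2.T.TaskI
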