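import Mathlib
import Pool.Agent.H374R2.T.TaskZ
import Pool.Agent.H374R2.T.TaskI

namespace Pool.Agent.H374R2.T.TaskE

open Finset Pool.Agent.H374R2.T.TaskZ Pool.Agent.H374R2.T.TaskI

/-- If `M` acts injectively, some rows of `M` form an invertible square matrix. -/
theorem exists_rows {m : Type} [Fintype m] {n : ℕ} (M : Matrix m (Fin n) ℚ)
    (hM : Function.Injective M.mulVec) :
    ∃ f : Fin n → m, (M.submatrix f id).det ≠ 0 := by
  classical
  have hcol : LinearIndependent ℚ M.col := Matrix.mulVec_injective_iff.mp hM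
  have hrank : M.rank = n := by
    have h1 : LinearIndependent ℚ M.transpose.row := hcol
    have h2 := h1.rank_matrix
    rw [Matrix.rank_transpose, Fintype.card_fin] at h2
    exact h2
  have hspan : Submodule.span ℚ (Set.range M.row) = ⊤ := by
    apply Submodule.eq_top_of_finrank_eq
    rw [← Matrix.rank_eq_finrank_span_row, hrank]
    simp
  obtain ⟨κ, a, ha, hsp, hli⟩ := exists_linearIndependent' ℚ M.row
  have : Finite κ := Finite.of_injective a ha
  let _ : Fintype κ := Fintype.ofFinite κ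
  have hcard : Fintype.card κ = n := by
    have h1 := finrank_span_eq_card hli
    rw [hsp, hspan, finrank_top] at h1
    rw [← h1]
    simp
  let e : κ ≃ Fin n := Fintype.equivFinOfCardEq hcard
  refine ⟨fun j => a (e.symm j), ?_⟩
  have hli2 : LinearIndependent ℚ (M.submatrix (fun j => a (e.symm j)) id).row :=
    hli.comp _ e.symm.injective
  rw [Matrix.linearIndependent_rows_iff_isUnit, Matrix.isUnit_iff_isUnit_det] at hli2
  exact hli2.ne_zero

theorem choose_bound {z k K P q : ℕ} (hP : 3 ≤ P) (hPq : P ≤ q) (hz : z * P ≤ K * q)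
    (hk : k ≤ K) : z.choose k ≤ q ^ K := by
  rcases lt_or_ge z k with hzk | hzk
  · rw [Nat.choose_eq_zero_of_lt hzk]
    exact Nat.zero_le _
  have hP0 : (0 : ℝ) < P := by
    have : 0 < P := by omega
    exact_mod_cast this
  have hq0 : (0 : ℝ) < q := by
    have : 0 < q := by omega
    exact_mod_cast this
  have hx1 : (1 : ℝ) ≤ (q : ℝ) / P := by
    rw [le_div_iff₀ hP0]
    have : (P : ℝ) ≤ q := by exact_mod_cast hPq
    linarith
  set x : ℝ := (q : ℝ) / P with hx
  have hx0 : 0 < x := by linarith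
  have h1 : ((z.choose k : ℕ) : ℝ) * (1 / x) ^ k ≤ (1 / x + 1) ^ z := by
    rw [add_pow]
    have : ((z.choose k : ℕ) : ℝ) * (1 / x) ^ k = (1 / x) ^ k * 1 ^ (z - k) * (z.choose k) := by
      rw [one_pow]
      ring
    rw [this]
    apply Finset.single_le_sum (f := fun m => (1 / x) ^ m * 1 ^ (z - m) * ((z.choose m : ℕ) : ℝ))
    · intro i _
      positivity
    · simp only [Finset.mem_range]
      omega
  have h2 : (1 / x + 1) ^ z ≤ Real.exp K := by
    calc (1 / x + 1) ^ z ≤ (Real.exp (1 / x)) ^ z := by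
          apply pow_le_pow_left₀ (by positivity)
          exact Real.add_one_le_exp _
      _ = Real.exp (z * (1 / x)) := by rw [← Real.exp_nat_mul]
      _ ≤ Real.exp K := by
          apply Real.exp_le_exp.mpr
          rw [hx, one_div_div, ← mul_div_assoc, div_le_iff₀ hq0]
          exact_mod_cast hz
  have h3 : Real.exp K ≤ 3 ^ K := by
    have : Real.exp K = Real.exp 1 ^ K := by rw [← Real.exp_nat_mul, mul_one]
    rw [this]
    apply pow_le_pow_left₀ (Real.exp_pos 1).le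
    have := Real.exp_one_lt_d9
    linarith
  have h4 : ((z.choose k : ℕ) : ℝ) ≤ 3 ^ K * x ^ k := by
    have h5 := h1.trans (h2.trans h3)
    rw [one_div, inv_pow, ← div_eq_mul_inv, div_le_iff₀ (by positivity)] at h5
    exact h5
  have h5 : (3 : ℝ) ^ K * x ^ k ≤ q ^ K := by
    calc (3 : ℝ) ^ K * x ^ k ≤ 3 ^ K * x ^ K := by
          apply mul_le_mul_of_nonneg_left (pow_le_pow_right₀ hx1 hk) (by positivity)
      _ = (3 * x) ^ K := by rw [mul_pow]
      _ ≤ q ^ K := by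
          apply pow_le_pow_left₀ (by positivity)
          rw [hx, ← mul_div_assoc, div_le_iff₀ hP0]
          have : (3 : ℝ) ≤ P := by exact_mod_cast hP
          nlinarith
  exact_mod_cast h4.trans h5

theorem final_arith {K lam x n : ℕ} (hx : x = lam * K) (hn : n = 16 * x) (hlam : 2 ≤ lam)
    (hK : 1 ≤ K) : (4 + 4 * x) * n < n * (n - 1) / 2 - n * K := by
  have h2 : 2 * K ≤ x := by
    rw [hx]
    exact Nat.mul_le_mul_right K hlam
  have hx2 : 2 ≤ x := by omega
  have h3 : n * (n - 1) / 2 = 8 * x * (16 * x - 1) := by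
    have : n * (n - 1) = 2 * (8 * x * (16 * x - 1)) := by
      rw [hn]
      ring
    rw [this]
    simp
  rw [h3, hn, Nat.lt_sub_iff_add_lt]
  obtain ⟨w, rfl⟩ : ∃ w, x = w + 2 := ⟨x - 2, by omega⟩
  have h4 : 16 * (w + 2) - 1 = 16 * w + 31 := by omega
  rw [h4]
  have h5 : 16 * (w + 2) * K ≤ 8 * (w + 2) * (w + 2) := by nlinarith
  nlinarith

/-- size of one entry of the interpolation matrix -/
theorem entry_bound {p h ν q i a b A lam L R S K r s k l : ℕ} (hp : 3 ≤ p)
    (hh : 1 ≤ h) (hν : 1 ≤ ν) (hah : a < 2 ^ h) (hbh : b < 2 ^ h)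
    (hAν : A < 2 ^ ν) (hi : i < q) (hpq : 8 * p ≤ q) (hql : q < 2 ^ lam)
    (hL : L = 16 * lam) (hK : K = 8 * p * (R * h + S * ν)) (hr : r < R) (hs : s < S)
    (hk : k < K) (hl : l < L) :
    Nat.choose (r * i + s * q) k * ((a ^ (p - 1)) ^ (r * l) * (b ^ (p - 1)) ^ (r * (L - 1 - l)) *
        (A ^ (p - 1)) ^ (s * l) * 1 ^ (s * (L - 1 - l))) ≤ 2 ^ (3 * (lam * K)) := by
  have h1 : Nat.choose (r * i + s * q) k ≤ q ^ K := by
    apply choose_bound (P := 8 * p) (by omega) hpq _ hk.le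
    have h2 : r * i + s * q ≤ (R + S) * q := by
      have h3 : r * i ≤ R * q := Nat.mul_le_mul hr.le hi.le
      have h4 : s * q ≤ S * q := Nat.mul_le_mul_right q hs.le
      linarith [add_mul R S q]
    have h3 : (R + S) * (8 * p) ≤ K := by
      rw [hK, mul_comm]
      apply Nat.mul_le_mul_left
      exact add_le_add (Nat.le_mul_of_pos_right R hh) (Nat.le_mul_of_pos_right S hν)
    calc (r * i + s * q) * (8 * p) ≤ (R + S) * q * (8 * p) := Nat.mul_le_mul_right _ h2
      _ = (R + S) * (8 * p) * q := by ring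
      _ ≤ K * q := Nat.mul_le_mul_right _ h3
  have h2 : q ^ K ≤ 2 ^ (lam * K) := by
    rw [pow_mul]
    exact Nat.pow_le_pow_left hql.le K
  have h3 : (a ^ (p - 1)) ^ (r * l) * (b ^ (p - 1)) ^ (r * (L - 1 - l)) ≤
      2 ^ (h * (p - 1) * (R * L)) := by
    calc (a ^ (p - 1)) ^ (r * l) * (b ^ (p - 1)) ^ (r * (L - 1 - l))
        ≤ ((2 ^ h) ^ (p - 1)) ^ (r * l) * ((2 ^ h) ^ (p - 1)) ^ (r * (L - 1 - l)) := by
          apply Nat.mul_le_mul
          · exact Nat.pow_le_pow_left (Nat.pow_le_pow_left hah.le _) _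
          · exact Nat.pow_le_pow_left (Nat.pow_le_pow_left hbh.le _) _
      _ = 2 ^ (h * (p - 1) * (r * (l + (L - 1 - l)))) := by
          rw [← pow_add, ← pow_mul, ← pow_mul, mul_add r, mul_assoc]
      _ ≤ 2 ^ (h * (p - 1) * (R * L)) := by
          apply Nat.pow_le_pow_right (by norm_num)
          apply Nat.mul_le_mul_left
          apply Nat.mul_le_mul hr.le
          omega
  have h4 : (A ^ (p - 1)) ^ (s * l) ≤ 2 ^ (ν * (p - 1) * (S * L)) := by
    calc (A ^ (p - 1)) ^ (s * l) ≤ ((2 ^ ν) ^ (p - 1)) ^ (s * l) :=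
          Nat.pow_le_pow_left (Nat.pow_le_pow_left hAν.le _) _
      _ = 2 ^ (ν * (p - 1) * (s * l)) := by rw [← pow_mul, ← pow_mul, mul_assoc]
      _ ≤ _ := by
          apply Nat.pow_le_pow_right (by norm_num)
          apply Nat.mul_le_mul_left
          exact Nat.mul_le_mul hs.le hl.le
  have h5 : h * (p - 1) * (R * L) + ν * (p - 1) * (S * L) ≤ 2 * (lam * K) := by
    have h6 : h * (p - 1) * (R * L) + ν * (p - 1) * (S * L) =
        (p - 1) * (L * (R * h + S * ν)) := by ring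
    rw [h6]
    calc (p - 1) * (L * (R * h + S * ν)) ≤ p * (L * (R * h + S * ν)) :=
          Nat.mul_le_mul_right _ (Nat.sub_le _ _)
      _ = 2 * (lam * K) := by rw [hL, hK]; ring
  rw [one_pow, mul_one]
  calc _ ≤ 2 ^ (lam * K) * (2 ^ (h * (p - 1) * (R * L)) * 2 ^ (ν * (p - 1) * (S * L))) :=
        Nat.mul_le_mul (h1.trans h2) (Nat.mul_le_mul h3 h4)
    _ = 2 ^ (lam * K + (h * (p - 1) * (R * L) + ν * (p - 1) * (S * L))) := by
        rw [← pow_add, ← pow_add]
    _ ≤ _ := by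
        apply Nat.pow_le_pow_right (by norm_num)
        omega

/-- Task E (two logarithms; consequence of Z and I). -/
theorem two_logs {p h ν q i y a b A : ℕ} (hp : p.Prime) (hp2 : p ≠ 2) (hh : 1 ≤ h) (hν : 1 ≤ ν)
    (ha : 0 < a) (hb : 0 < b) (hA : 0 < A) (hab : a ≠ b) (hah : a < 2 ^ h) (hbh : b < 2 ^ h)
    (hAν : A < 2 ^ ν) (hpa : ¬ p ∣ a) (hpb : ¬ p ∣ b) (hpA : ¬ p ∣ A) (hi : 0 < i) (hiq : i < q)
    (hq : q.Prime) (hrel : (p : ℤ) ^ y ∣ (a : ℤ) ^ (2 * q) - (b : ℤ) ^ (2 * q) * (A : ℤ) ^ (2 * i))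
    (hqbig : 600 * p * ν * (Nat.log 2 q + 1) ≤ q) :
    y < 132000 * p ^ 2 * (Nat.log 2 q + 1) ^ 2 * h * ν := by
  by_contra hcon
  push Not at hcon
  set lam : ℕ := Nat.log 2 q + 1 with hlam
  have hp3 : 3 ≤ p := by
    have := hp.two_le
    omega
  have hql : q < 2 ^ lam := Nat.lt_pow_succ_log_self (by norm_num) q
  have hlam1 : 1 ≤ lam := by omega
  have hq8 : 600 * p ≤ q := by
    calc 600 * p = 600 * p * 1 * 1 := by ring
      _ ≤ 600 * p * ν * lam := Nat.mul_le_mul (Nat.mul_le_mul_left _ hν) hlam1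
      _ ≤ q := hqbig
  have hlam2 : 2 ≤ lam := by
    by_contra hc
    have h1 : lam = 1 := by omega
    rw [h1] at hql
    omega
  set L : ℕ := 16 * lam with hL
  set R₂ : ℕ := 32 * p * L * ν with hR₂
  set S₂ : ℕ := 32 * p * L * h with hS₂
  set R : ℕ := R₂ + L - 1 with hR
  set K : ℕ := 8 * p * (R * h + S₂ * ν) with hK
  set n : ℕ := K * L with hn
  have hLpos : 0 < L := by omega
  have hppos : 0 < p := by omega
  have hR₂pos : 0 < R₂ := by positivity
  have hS₂pos : 0 < S₂ := by positivity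
  have hKpos : 0 < K := by
    have : 0 < S₂ * ν := by positivity
    have : 0 < R * h + S₂ * ν := by omega
    positivity
  -- the main size estimate
  have hsize : 3 * (K * L) ≤ 1544 * (p ^ 2 * L ^ 2 * h * ν) := by
    have h1 : R * h ≤ (R₂ + L) * h := Nat.mul_le_mul_right _ (by omega)
    have h2 : K ≤ 8 * p * ((R₂ + L) * h + S₂ * ν) :=
      Nat.mul_le_mul_left _ (Nat.add_le_add_right h1 _)
    have h3 : 3 * (K * L) ≤ 3 * (8 * p * ((R₂ + L) * h + S₂ * ν) * L) :=
      Nat.mul_le_mul_left _ (Nat.mul_le_mul_right _ h2)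
    have h4 : 3 * (8 * p * ((R₂ + L) * h + S₂ * ν) * L) =
        1536 * (p ^ 2 * L ^ 2 * h * ν) + 8 * (3 * p * 1) * (L ^ 2 * h) := by
      rw [hR₂, hS₂]
      ring
    have h5 : 3 * p * 1 ≤ p * p * ν := Nat.mul_le_mul (Nat.mul_le_mul_right _ hp3) hν
    have h6 : 8 * (3 * p * 1) * (L ^ 2 * h) ≤ 8 * (p * p * ν) * (L ^ 2 * h) :=
      Nat.mul_le_mul_right _ (Nat.mul_le_mul_left _ h5)
    calc 3 * (K * L) ≤ 1536 * (p ^ 2 * L ^ 2 * h * ν) + 8 * (3 * p * 1) * (L ^ 2 * h) := by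
          rw [← h4]; exact h3
      _ ≤ 1536 * (p ^ 2 * L ^ 2 * h * ν) + 8 * (p * p * ν) * (L ^ 2 * h) :=
          Nat.add_le_add_left h6 _
      _ = 1544 * (p ^ 2 * L ^ 2 * h * ν) := by ring
  have hbase : 0 < p ^ 2 * L ^ 2 * h * ν := by positivity
  have hny : n ≤ y := by
    have h1 : 3 * n ≤ 3 * (132000 * p ^ 2 * lam ^ 2 * h * ν) := by
      calc 3 * n ≤ 1544 * (p ^ 2 * L ^ 2 * h * ν) := hsize
        _ = 395264 * (p ^ 2 * lam ^ 2 * h * ν) := by rw [hL]; ring
        _ ≤ 396000 * (p ^ 2 * lam ^ 2 * h * ν) := Nat.mul_le_mul_right _ (by norm_num)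
        _ = _ := by ring
    have h2 : n ≤ 132000 * p ^ 2 * lam ^ 2 * h * ν := by omega
    exact h2.trans hcon
  have hKL : (K - 1) * L < R₂ * S₂ := by
    have h1 : (K - 1) * L ≤ K * L := Nat.mul_le_mul_right _ (Nat.sub_le _ _)
    have h2 : R₂ * S₂ = 1024 * (p ^ 2 * L ^ 2 * h * ν) := by
      rw [hR₂, hS₂]
      ring
    omega
  have hRq : R₂ ≤ q := by
    have h1 : R₂ = 512 * (p * ν * lam) := by
      rw [hR₂, hL]
      ring
    have h2 : 600 * p * ν * lam = 600 * (p * ν * lam) := by ring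
    omega
  have hiqc : Nat.Coprime i q := by
    rw [Nat.coprime_comm]
    exact (Nat.Prime.coprime_iff_not_dvd hq).mpr fun hd => by
      have := Nat.le_of_dvd hi hd
      omega
  -- the rational parameters
  have ha' : (0 : ℚ) < a := by exact_mod_cast ha
  have hb' : (0 : ℚ) < b := by exact_mod_cast hb
  have hA' : (0 : ℚ) < A := by exact_mod_cast hA
  set β : ℚ := ((a : ℚ) / b) ^ (p - 1) with hβ
  set κ : ℚ := (A : ℚ) ^ (p - 1) with hκ
  have hβpos : 0 < β := by positivity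
  have hκpos : 0 < κ := by positivity
  have hβ1 : β ≠ 1 := by
    intro h1
    have h2 : (a : ℚ) / b = 1 := by
      rw [hβ] at h1
      exact (pow_eq_one_iff_of_nonneg (by positivity) (by omega)).mp h1
    rw [div_eq_one_iff_eq hb'.ne'] at h2
    exact hab (by exact_mod_cast h2)
  let e : Fin K × Fin L ≃ Fin (K * L) := finProdFinEquiv
  let M : Matrix (Fin R × Fin S₂) (Fin (K * L)) ℚ := Matrix.of fun ρ c =>
    (Nat.choose (ρ.1 * i + ρ.2 * q) (e.symm c).1 : ℚ) *
      (β ^ (ρ.1 : ℕ) * κ ^ (ρ.2 : ℕ)) ^ ((e.symm c).2 : ℕ)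
  have hinj : Function.Injective M.mulVec := by
    have hzero : ∀ d : Fin (K * L) → ℚ, M.mulVec d = 0 → d = 0 := by
      intro d hd
      have hz := zero_estimate (K := K) (L := L) hβpos hβ1 hκpos hiqc hRq hKL
        (fun k l => d (e (k, l))) (by
          intro r s hr hs
          have h1 := congrFun hd (⟨r, hr⟩, ⟨s, hs⟩)
          simp only [Matrix.mulVec, dotProduct, Pi.zero_apply] at h1
          rw [← h1, ← Fintype.sum_prod_type']
          apply Fintype.sum_equiv e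
          intro c
          simp only [M, Matrix.of_apply, Equiv.symm_apply_apply]
          ring)
      funext c
      have h2 := hz (e.symm c).1 (e.symm c).2
      simpa using h2
    intro u v huv
    have h1 : M.mulVec (u - v) = 0 := by
      rw [Matrix.mulVec_sub, huv, sub_self]
    exact sub_eq_zero.mp (hzero _ h1)
  obtain ⟨f, hf⟩ := exists_rows M hinj
  -- the integer matrix
  set N : Matrix (Fin (K * L)) (Fin (K * L)) ℤ := Matrix.of fun ρ c : Fin (K * L) =>
    ((Nat.choose (((f ρ).1 : ℕ) * i + ((f ρ).2 : ℕ) * q) ((e.symm c).1 : ℕ) *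
      ((a ^ (p - 1)) ^ (((f ρ).1 : ℕ) * ((e.symm c).2 : ℕ)) *
        (b ^ (p - 1)) ^ (((f ρ).1 : ℕ) * (L - 1 - ((e.symm c).2 : ℕ))) *
        (A ^ (p - 1)) ^ (((f ρ).2 : ℕ) * ((e.symm c).2 : ℕ)) *
        1 ^ (((f ρ).2 : ℕ) * (L - 1 - ((e.symm c).2 : ℕ)))) : ℕ) : ℤ) with hN
  have hdvd : (p : ℤ) ^ (n * (n - 1) / 2 - n * K) ∣ N.det := by
    have hfer : ∀ x : ℕ, ¬ p ∣ x → x ^ (p - 1) ≡ 1 [MOD p] := by
      intro x hx
      have hx' : Nat.Coprime x p := by
        rw [Nat.coprime_comm]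
        exact (Nat.Prime.coprime_iff_not_dvd hp).mpr hx
      have := Nat.ModEq.pow_totient hx'
      rwa [Nat.totient_prime hp] at this
    have hcop : ∀ x : ℕ, ¬ p ∣ x → Nat.Coprime (x ^ (p - 1)) p := by
      intro x hx
      apply Nat.Coprime.pow_left
      rw [Nat.coprime_comm]
      exact (Nat.Prime.coprime_iff_not_dvd hp).mpr hx
    apply det_dvd (n := K * L) (K := K) (L := L) (D := p) (Y := y) (i := i) (q := q)
      (b₁ := a ^ (p - 1)) (b₂ := b ^ (p - 1)) (c₁ := A ^ (p - 1)) (c₂ := 1) hp.two_le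
      (hcop a hpa) (hcop b hpb) (hcop A hpA) (Nat.coprime_one_left p)
      ((hfer a hpa).trans (hfer b hpb).symm) (hfer A hpA) hny ?_ hiqc hi hq.pos
      (fun ρ => (f ρ).1) (fun ρ => (f ρ).2) (fun c => (e.symm c).1) (fun c => (e.symm c).2)
      (fun c => (e.symm c).1.2) (fun c => (e.symm c).2.2)
    -- the relation
    obtain ⟨m, hm⟩ : ∃ m, p - 1 = 2 * m := by
      have hodd : Odd p := hp.odd_of_ne_two hp2
      obtain ⟨m, hm⟩ := hodd
      exact ⟨m, by omega⟩
    have h1 : (p : ℤ) ^ y ∣ ((a : ℤ) ^ (2 * q)) ^ m - ((b : ℤ) ^ (2 * q) * (A : ℤ) ^ (2 * i)) ^ m :=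
      hrel.trans (sub_dvd_pow_sub_pow _ _ m)
    rw [one_pow, mul_one, hm]
    have h2 : (((a ^ (2 * m)) ^ q : ℕ) : ℤ) ≡
        (((b ^ (2 * m)) ^ q * (A ^ (2 * m)) ^ i : ℕ) : ℤ) [ZMOD ((p ^ y : ℕ) : ℤ)] := by
      apply Int.ModEq.symm
      rw [Int.modEq_iff_dvd]
      push_cast
      have h3 : ((a : ℤ) ^ (2 * m)) ^ q - ((b : ℤ) ^ (2 * m)) ^ q * ((A : ℤ) ^ (2 * m)) ^ i =
          ((a : ℤ) ^ (2 * q)) ^ m - ((b : ℤ) ^ (2 * q) * (A : ℤ) ^ (2 * i)) ^ m := by
        rw [mul_pow]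
        simp only [← pow_mul]
        have e1 : 2 * m * q = 2 * q * m := by ring
        have e2 : 2 * m * i = 2 * i * m := by ring
        rw [e1, e2]
      rw [h3]
      exact h1
    exact (Int.natCast_modEq_iff).mp h2
  have hdet : N.det ≠ 0 := by
    intro h0
    apply hf
    have hrel2 : N.map (Int.cast : ℤ → ℚ) = Matrix.diagonal (fun ρ : Fin (K * L) =>
        ((b : ℚ) ^ (p - 1)) ^ (((f ρ).1 : ℕ) * (L - 1))) * M.submatrix f id := by
      ext ρ c
      rw [Matrix.diagonal_mul]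
      simp only [hN, M, Matrix.map_apply, Matrix.of_apply, Matrix.submatrix_apply, id]
      push_cast
      rw [one_pow, mul_one]
      have hl := (e.symm c).2.2
      obtain ⟨t, ht⟩ : ∃ t, L - 1 = ((e.symm c).2 : ℕ) + t := ⟨L - 1 - (e.symm c).2, by omega⟩
      have ht2 : L - 1 - ((e.symm c).2 : ℕ) = t := by omega
      rw [ht2, ht, hβ, hκ, div_pow, mul_pow, div_pow, div_pow]
      have hbne : (b : ℚ) ^ (p - 1) ≠ 0 := by positivity
      rw [mul_add, pow_add, pow_mul _ _ ((e.symm c).2 : ℕ), pow_mul _ ((f ρ).1 : ℕ) ((e.symm c).2 : ℕ),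
        pow_mul _ ((f ρ).2 : ℕ) ((e.symm c).2 : ℕ)]
      field_simp
    have h1 : ((N.det : ℤ) : ℚ) = (N.map (Int.cast : ℤ → ℚ)).det := by
      have := RingHom.map_det (Int.castRingHom ℚ) N
      simpa using this
    rw [hrel2, Matrix.det_mul, Matrix.det_diagonal, h0, Int.cast_zero] at h1
    rcases mul_eq_zero.mp h1.symm with h2 | h2
    · exfalso
      rw [Finset.prod_eq_zero_iff] at h2
      obtain ⟨ρ, _, hρ⟩ := h2
      have : ((b : ℚ) ^ (p - 1)) ^ (((f ρ).1 : ℕ) * (L - 1)) ≠ 0 := by positivity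
      exact this hρ
    · exact h2
  -- upper bound of the determinant
  have hup : |N.det| ≤ (n.factorial : ℤ) * ((2 : ℤ) ^ (3 * (lam * K))) ^ n := by
    have h1 := Matrix.det_le (A := N) (abv := AbsoluteValue.abs)
      (x := (2 : ℤ) ^ (3 * (lam * K))) (by
        intro ρ c
        have h2 := entry_bound (p := p) (h := h) (ν := ν) (q := q) (i := i) (a := a) (b := b)
          (A := A) (lam := lam) (L := L) (R := R) (S := S₂) (K := K) (r := (f ρ).1)
          (s := (f ρ).2) (k := (e.symm c).1) (l := (e.symm c).2) hp3 hh hν hah hbh hAν hiq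
          (by omega) hql hL hK (f ρ).1.2 (f ρ).2.2 (e.symm c).1.2 (e.symm c).2.2
        rw [hN, Matrix.of_apply, AbsoluteValue.abs_apply, Nat.abs_cast]
        exact_mod_cast h2)
    rw [AbsoluteValue.abs_apply, Fintype.card_fin, nsmul_eq_mul] at h1
    exact h1
  have hlow : (p : ℤ) ^ (n * (n - 1) / 2 - n * K) ≤ |N.det| := by
    apply Int.le_of_dvd (abs_pos.mpr hdet)
    exact (dvd_abs _ _).mpr hdvd
  have hx2 : 2 ≤ lam * K := by nlinarith
  have hn16 : n = 16 * (lam * K) := by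
    rw [hn, hL]
    ring
  have hfin := final_arith (K := K) (lam := lam) (x := lam * K) (n := n) rfl hn16 hlam2 hKpos
  have hnle : n ≤ 2 ^ (4 + lam * K) := by
    rw [hn16, pow_add]
    exact Nat.mul_le_mul (by norm_num) (Nat.lt_two_pow_self).le
  have hchain : (2 : ℤ) ^ (n * (n - 1) / 2 - n * K) ≤ 2 ^ ((4 + 4 * (lam * K)) * n) := by
    calc (2 : ℤ) ^ (n * (n - 1) / 2 - n * K) ≤ (p : ℤ) ^ (n * (n - 1) / 2 - n * K) := by
          apply pow_le_pow_left₀ (by norm_num)
          exact_mod_cast hp.two_le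
      _ ≤ |N.det| := hlow
      _ ≤ (n.factorial : ℤ) * ((2 : ℤ) ^ (3 * (lam * K))) ^ n := hup
      _ ≤ (n : ℤ) ^ n * ((2 : ℤ) ^ (3 * (lam * K))) ^ n := by
          apply mul_le_mul_of_nonneg_right _ (by positivity)
          exact_mod_cast Nat.factorial_le_pow n
      _ ≤ ((2 : ℤ) ^ (4 + lam * K)) ^ n * ((2 : ℤ) ^ (3 * (lam * K))) ^ n := by
          apply mul_le_mul_of_nonneg_right _ (by positivity)
          apply pow_le_pow_left₀ (by positivity)
          exact_mod_cast hnle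
      _ = 2 ^ ((4 + 4 * (lam * K)) * n) := by
          rw [← mul_pow, ← pow_add, ← pow_mul]
          congr 1
          ring
  have hcontra := (pow_le_pow_iff_right₀ (by norm_num : (1 : ℤ) < 2)).mp hchain
  omega

end Pool.Agent.H374R2.T.TaskE
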