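import Mathlib
import Pool.Agent.H374R2.T.Count
import Pool.Agent.H374R2.T.TaskE

/-!
The bound for the prime exponent coming from two logarithms.
-/

namespace Pool.Agent.H374R2.T

open Finset Filter Topology Pool.Agent.H374R2.T.TaskE

/-- The bound for `q` from the two logarithms estimate. -/
theorem q_lt {N q i d A B : ℕ} {s : ℤ} {x' y U p P₀ : ℕ} (hs : s = 1 ∨ s = -1) (hq : q.Prime)
    (hi : 0 < i) (hiq : i < q) (h : Data N q i d A B s x' y U) (hA0 : 0 < A) (hAN : A ≤ N)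
    (hU : 2 ≤ U) (hp : p.Prime) (hp2 : p ≠ 2) (hpB : p ∣ B) (hpP : p ≤ P₀) :
    q < 528000 * P₀ ^ 2 * (Nat.log 2 q + 1) ^ 2 * (Nat.log 2 N + 1) ^ 2 := by
  set ν := Nat.log 2 N + 1 with hν
  set lam := Nat.log 2 q + 1 with hlam
  have hN0 : 0 < N := lt_of_lt_of_le hA0 hAN
  have hν1 : 1 ≤ ν := by omega
  have hlam1 : 1 ≤ lam := by omega
  have hNν : N < 2 ^ ν := Nat.lt_pow_succ_log_self (by norm_num) N
  have hp1 : 1 ≤ p := hp.one_lt.le
  have hP1 : 1 ≤ P₀ := hp1.trans hpP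
  rcases Nat.lt_or_ge q (600 * p * ν * lam) with hsmall | hbig
  · have h1 : 600 * p * ν * lam ≤ 528000 * P₀ ^ 2 * lam ^ 2 * ν ^ 2 := by
      calc 600 * p * ν * lam ≤ 528000 * (P₀ * P₀) * (ν * ν) * (lam * lam) := by
            apply Nat.mul_le_mul
            · apply Nat.mul_le_mul
              · apply Nat.mul_le_mul (by norm_num)
                calc p ≤ P₀ := hpP
                  _ = P₀ * 1 := by ring
                  _ ≤ P₀ * P₀ := Nat.mul_le_mul_left _ hP1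
              · calc ν = ν * 1 := by ring
                  _ ≤ ν * ν := Nat.mul_le_mul_left _ hν1
            · calc lam = lam * 1 := by ring
                _ ≤ lam * lam := Nat.mul_le_mul_left _ hlam1
        _ = _ := by ring
    omega
  -- the numbers
  set V := A ^ x' with hV
  have hV0 : 0 < V := by positivity
  set H := max U V with hH
  set h' := Nat.log 2 H + 1 with hh'
  have hH0 : H ≠ 0 := by
    have : U ≤ H := le_max_left _ _
    omega
  have hUH : U ≤ H := le_max_left _ _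
  have hVH : V ≤ H := le_max_right _ _
  have hHlt : H < 2 ^ h' := Nat.lt_pow_succ_log_self (by norm_num) H
  have hHge : 2 ^ (h' - 1) ≤ H := Nat.pow_log_le_self 2 hH0
  have hpU : ¬ p ∣ U := fun hd => h.prime_cond hs hq.pos hp hd (Or.inr hpB)
  have hpA : ¬ p ∣ A := fun hd => hp.not_dvd_one (h.cop ▸ Nat.dvd_gcd hd hpB)
  have hpV : ¬ p ∣ V := fun hd => hpA (hp.dvd_of_dvd_pow hd)
  have hUV : U ≠ V := by
    intro he
    -- a prime factor of U divides V = A^x'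
    obtain ⟨r, hr, hrU⟩ := Nat.exists_prime_and_dvd (show U ≠ 1 by omega)
    have hrV : r ∣ A := hr.dvd_of_dvd_pow (he ▸ hrU)
    apply h.prime_cond hs hq.pos hr hrU
    left
    exact dvd_pow hrV (by omega)
  have hrel : (p : ℤ) ^ y ∣ (U : ℤ) ^ (2 * q) - (V : ℤ) ^ (2 * q) * (A : ℤ) ^ (2 * i) := by
    have e1 : (U : ℤ) ^ (2 * q) - (V : ℤ) ^ (2 * q) * (A : ℤ) ^ (2 * i) =
        ((U : ℤ) ^ q - s * (A : ℤ) ^ (q * x' + i)) * ((U : ℤ) ^ q + s * (A : ℤ) ^ (q * x' + i)) := by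
      have hss : s * s = 1 := by rcases hs with rfl | rfl <;> norm_num
      have e2 : (V : ℤ) ^ (2 * q) * (A : ℤ) ^ (2 * i) = (A : ℤ) ^ (q * x' + i) * (A : ℤ) ^ (q * x' + i) := by
        rw [hV]
        push_cast
        ring
      rw [e2]
      linear_combination (((A : ℤ) ^ (q * x' + i)) ^ 2) * hss
    rw [e1, h.eq]
    apply Dvd.dvd.mul_right
    have : p ^ y ∣ B ^ y := pow_dvd_pow_of_dvd hpB y
    exact_mod_cast this
  have hy := two_logs (ν := ν) (h := h') hp hp2 (by omega) hν1 (by omega) hV0 hA0 hUV (hUH.trans_lt hHlt)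
    (hVH.trans_lt hHlt) (hAN.trans_lt hNν) hpU hpV hpA hi hiq hq hrel hbig
  -- size
  have hh2 : 2 ≤ h' := by
    have : 1 ≤ Nat.log 2 H := Nat.log_pos (by norm_num) (hU.trans hUH)
    omega
  have hHq : H ^ q ≤ 2 * B ^ y := by
    rcases max_choice U V with hc | hc
    · rw [hH, hc]; exact h.le_two hs
    · rw [hH, hc]
      have : V ^ q ≤ B ^ y := by
        calc V ^ q = A ^ (q * x') := by rw [hV, ← pow_mul, mul_comm]
          _ ≤ A ^ (q * x' + i) := Nat.pow_le_pow_right hA0 (by omega)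
          _ ≤ B ^ y := h.le
      omega
  have h1 : 2 ^ ((h' - 1) * q) < 2 ^ (ν * y + 1) := by
    calc 2 ^ ((h' - 1) * q) = (2 ^ (h' - 1)) ^ q := by rw [pow_mul]
      _ ≤ H ^ q := Nat.pow_le_pow_left hHge q
      _ ≤ 2 * B ^ y := hHq
      _ < 2 * (2 ^ ν) ^ y := by
          apply Nat.mul_lt_mul_of_pos_left _ (by norm_num)
          exact Nat.pow_lt_pow_left (h.BN.trans_lt hNν) h.y0.ne'
      _ = 2 ^ (ν * y + 1) := by rw [← pow_mul, pow_succ]; ring
  have h2 := (Nat.pow_lt_pow_iff_right (by norm_num : 1 < 2)).mp h1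
  have h3 : h' * q ≤ 2 * (ν * y) := by
    have h4 : h' * q ≤ 2 * ((h' - 1) * q) := by
      calc h' * q ≤ (2 * (h' - 1)) * q := Nat.mul_le_mul_right _ (by omega)
        _ = _ := by ring
    omega
  -- combine
  have h5 : h' * q < h' * (528000 * P₀ ^ 2 * lam ^ 2 * ν ^ 2) := by
    calc h' * q ≤ 2 * (ν * y) := h3
      _ < 2 * (ν * (132000 * p ^ 2 * lam ^ 2 * h' * ν)) := by
          apply Nat.mul_lt_mul_of_pos_left _ (by norm_num)
          exact Nat.mul_lt_mul_of_pos_left hy (by omega)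
      _ = h' * (264000 * p ^ 2 * lam ^ 2 * ν ^ 2) := by ring
      _ ≤ h' * (528000 * P₀ ^ 2 * lam ^ 2 * ν ^ 2) := by
          apply Nat.mul_le_mul_left
          apply Nat.mul_le_mul_right
          apply Nat.mul_le_mul_right
          exact Nat.mul_le_mul (by norm_num) (Nat.pow_le_pow_left hpP 2)
  exact Nat.lt_of_mul_lt_mul_left h5

/-- The numerical consequence. -/
theorem q_le_cube (C : ℕ) : ∃ ν₀ : ℕ, ∀ ν q : ℕ, ν₀ ≤ ν →
    q < C * (Nat.log 2 q + 1) ^ 2 * ν ^ 2 → q ≤ ν ^ 3 := by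
  have h1 : ∀ᶠ l : ℕ in atTop, ((l : ℝ) ^ 6 / 2 ^ l) < 1 / (2 * ((C : ℝ) + 1) ^ 3) := by
    have := tendsto_pow_const_div_const_pow_of_one_lt 6 (r := (2 : ℝ)) (by norm_num)
    exact this.eventually (gt_mem_nhds (by positivity))
  obtain ⟨k₀, hk₀⟩ := eventually_atTop.mp h1
  refine ⟨2 ^ (k₀ + 1), fun ν q hν hq => ?_⟩
  by_contra hcon
  push Not at hcon
  set l := Nat.log 2 q + 1 with hl
  have hν1 : 1 ≤ ν := (Nat.one_le_two_pow).trans hν
  have hq0 : q ≠ 0 := by omega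
  have hνq : ν < q := by
    calc ν = ν ^ 1 := (pow_one _).symm
      _ ≤ ν ^ 3 := Nat.pow_le_pow_right hν1 (by norm_num)
      _ < q := hcon
  have hlk : k₀ ≤ l := by
    have h2 : k₀ + 1 ≤ Nat.log 2 q := by
      apply Nat.le_log_of_pow_le (by norm_num)
      omega
    omega
  have h3 := hk₀ l hlk
  have h4 : 2 ^ (l - 1) ≤ q := by rw [hl, Nat.add_sub_cancel]; exact Nat.pow_log_le_self 2 hq0
  -- (C l^2)^3 < q
  have h5 : (C * l ^ 2) ^ 3 < q := by
    have h6 : ((C : ℝ) + 1) ^ 3 * (l : ℝ) ^ 6 * 2 < 2 ^ l := by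
      rw [div_lt_div_iff₀ (by positivity) (by positivity)] at h3
      linarith
    have h7 : ((C * l ^ 2) ^ 3 * 2 : ℕ) < 2 ^ l := by
      have : (((C * l ^ 2) ^ 3 * 2 : ℕ) : ℝ) < ((2 ^ l : ℕ) : ℝ) := by
        push_cast
        calc ((C : ℝ) * (l : ℝ) ^ 2) ^ 3 * 2 = (C : ℝ) ^ 3 * (l : ℝ) ^ 6 * 2 := by ring
          _ ≤ ((C : ℝ) + 1) ^ 3 * (l : ℝ) ^ 6 * 2 := by gcongr; linarith
          _ < 2 ^ l := h6
      exact_mod_cast this
    have h8 : 2 ^ l = 2 ^ (l - 1) * 2 := by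
      rw [← pow_succ]; congr 1
    omega
  have h9 : (ν ^ 3) ^ 2 ≤ q ^ 2 := Nat.pow_le_pow_left hcon.le 2
  have h10 : q ^ 3 < q ^ 3 := by
    calc q ^ 3 < (C * l ^ 2 * ν ^ 2) ^ 3 := Nat.pow_lt_pow_left hq (by norm_num)
      _ = (C * l ^ 2) ^ 3 * (ν ^ 3) ^ 2 := by ring
      _ ≤ q * q ^ 2 := Nat.mul_le_mul h5.le h9
      _ = q ^ 3 := by ring
  exact lt_irrefl _ h10

end Pool.Agent.H374R2.T
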