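import Mathlib
import Pool.Agent.H374R2.FcD

/-!
Task D1: almost all integers have a rough divisor `d` with `N^(1-η) ≤ d ≤ N^(1-δ)`.
-/

namespace Pool.Agent.H374R2.T.TaskD1

open Finset Filter Topology Pool.Agent.H374R2 Pool.Agent.Helper923.HMertens

/-- Turán–Kubilius: few integers have no prime factor in a set of primes with large sum of
reciprocals. -/
theorem turan_kubilius {N : ℕ} (S : Finset ℕ) (hS : ∀ p ∈ S, p.Prime ∧ p ≤ N) :
    (((Finset.Ioc 0 N).filter (fun B => ∀ p ∈ S, ¬ p ∣ B)).card : ℝ) *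
      (∑ p ∈ S, (1 : ℝ) / p) ≤ 3 * N := by
  classical
  set μ : ℝ := ∑ p ∈ S, (1 : ℝ) / p with hμ
  have hμ0 : 0 ≤ μ := Finset.sum_nonneg (fun p _ => by positivity)
  rcases hμ0.eq_or_lt with h0 | hμpos
  · rw [← h0, mul_zero]; positivity
  let w : ℕ → ℝ := fun B => ∑ p ∈ S, if p ∣ B then (1 : ℝ) else 0
  have hcardS : (S.card : ℝ) ≤ N := by
    have h1 : S ⊆ Finset.Icc 1 N := fun p hp =>
      Finset.mem_Icc.mpr ⟨(hS p hp).1.one_lt.le, (hS p hp).2⟩
    have h2 := Finset.card_le_card h1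
    rw [Nat.card_Icc, Nat.add_sub_cancel] at h2
    exact_mod_cast h2
  have hcnt : ∀ n : ℕ, ∑ B ∈ Finset.Ioc 0 N, (if n ∣ B then (1 : ℝ) else 0) = ((N / n : ℕ) : ℝ) := by
    intro n
    rw [Finset.sum_boole, Nat.Ioc_filter_dvd_card_eq_div]
  have hw1 : (N : ℝ) * μ - S.card ≤ ∑ B ∈ Finset.Ioc 0 N, w B := by
    have e1 : ∑ B ∈ Finset.Ioc 0 N, w B = ∑ p ∈ S, ((N / p : ℕ) : ℝ) := by
      simp only [w]
      rw [Finset.sum_comm]
      exact Finset.sum_congr rfl (fun p _ => hcnt p)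
    rw [e1, hμ, Finset.mul_sum, Finset.card_eq_sum_ones]
    push_cast
    rw [← Finset.sum_sub_distrib]
    apply Finset.sum_le_sum
    intro p hp
    have hp0 : 0 < p := (hS p hp).1.pos
    have h3 : (N : ℝ) < (N / p : ℕ) * p + p := by
      exact_mod_cast Nat.lt_div_mul_add hp0
    have hpR : (0 : ℝ) < p := by exact_mod_cast hp0
    rw [mul_one_div, sub_le_iff_le_add, div_le_iff₀ hpR]
    nlinarith
  have hw2 : ∑ B ∈ Finset.Ioc 0 N, w B ^ 2 ≤ N * (μ ^ 2 + μ) := by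
    have e1 : ∑ B ∈ Finset.Ioc 0 N, w B ^ 2 =
        ∑ p ∈ S, ∑ q ∈ S, ∑ B ∈ Finset.Ioc 0 N, (if p ∣ B ∧ q ∣ B then (1 : ℝ) else 0) := by
      simp only [w, pow_two]
      calc ∑ B ∈ Finset.Ioc 0 N, (∑ p ∈ S, if p ∣ B then (1 : ℝ) else 0) *
            (∑ p ∈ S, if p ∣ B then (1 : ℝ) else 0)
          = ∑ B ∈ Finset.Ioc 0 N, ∑ p ∈ S, ∑ q ∈ S, (if p ∣ B ∧ q ∣ B then (1 : ℝ) else 0) := by
            apply Finset.sum_congr rfl
            intro B _
            rw [Finset.sum_mul_sum]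
            apply Finset.sum_congr rfl
            intro p _
            apply Finset.sum_congr rfl
            intro q _
            by_cases h1 : p ∣ B <;> by_cases h2 : q ∣ B <;> simp [h1, h2]
        _ = _ := by
            rw [Finset.sum_comm]
            apply Finset.sum_congr rfl
            intro p _
            rw [Finset.sum_comm]
    rw [e1]
    have e2 : ∀ p ∈ S, ∀ q ∈ S, ∑ B ∈ Finset.Ioc 0 N, (if p ∣ B ∧ q ∣ B then (1 : ℝ) else 0) ≤
        N * ((1 / p) * (1 / q)) + (if p = q then (N : ℝ) * (1 / p) else 0) := by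
      intro p hp q hq
      have hp0 := (hS p hp).1
      have hq0 := (hS q hq).1
      by_cases hpq : p = q
      · subst hpq
        rw [if_pos rfl]
        simp only [and_self]
        rw [hcnt]
        have h1 : ((N / p : ℕ) : ℝ) ≤ (N : ℝ) / p := Nat.cast_div_le
        have h2 : 0 ≤ (N : ℝ) * ((1 / p) * (1 / p)) := by positivity
        have h3 : (N : ℝ) / p = (N : ℝ) * (1 / p) := by rw [mul_one_div]
        linarith
      · rw [if_neg hpq, add_zero]
        have hcop : Nat.Coprime p q := (Nat.coprime_primes hp0 hq0).mpr hpq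
        have h1 : ∀ B ∈ Finset.Ioc 0 N, (if p ∣ B ∧ q ∣ B then (1 : ℝ) else 0) =
            if p * q ∣ B then (1 : ℝ) else 0 := by
          intro B _
          by_cases h : p * q ∣ B
          · rw [if_pos h, if_pos ⟨(Dvd.intro _ rfl).trans h, (Dvd.intro_left _ rfl).trans h⟩]
          · rw [if_neg h, if_neg (fun h' => h (Nat.Coprime.mul_dvd_of_dvd_of_dvd hcop h'.1 h'.2))]
        rw [Finset.sum_congr rfl h1, hcnt]
        calc ((N / (p * q) : ℕ) : ℝ) ≤ (N : ℝ) / ((p * q : ℕ) : ℝ) := Nat.cast_div_le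
          _ = _ := by push_cast; rw [one_div_mul_one_div]; ring
    calc ∑ p ∈ S, ∑ q ∈ S, ∑ B ∈ Finset.Ioc 0 N, (if p ∣ B ∧ q ∣ B then (1 : ℝ) else 0)
        ≤ ∑ p ∈ S, ∑ q ∈ S, (N * ((1 / (p : ℝ)) * (1 / q)) + (if p = q then (N : ℝ) * (1 / p) else 0)) :=
          Finset.sum_le_sum (fun p hp => Finset.sum_le_sum (fun q hq => e2 p hp q hq))
      _ = N * (μ ^ 2 + μ) := by
          have e3 : ∀ p ∈ S, ∑ q ∈ S, (N * ((1 / (p : ℝ)) * (1 / q)) +
              (if p = q then (N : ℝ) * (1 / p) else 0)) = N * (1 / (p : ℝ)) * μ + N * (1 / p) := by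
            intro p hp
            rw [Finset.sum_add_distrib, Finset.sum_ite_eq, if_pos hp, hμ, Finset.mul_sum]
            congr 1
            apply Finset.sum_congr rfl
            intro q _
            ring
          rw [Finset.sum_congr rfl e3, Finset.sum_add_distrib, ← Finset.sum_mul, ← Finset.mul_sum,
            ← hμ]
          ring
  have hvar : ∑ B ∈ Finset.Ioc 0 N, (w B - μ) ^ 2 ≤ 3 * N * μ := by
    have e1 : ∑ B ∈ Finset.Ioc 0 N, (w B - μ) ^ 2 =
        ∑ B ∈ Finset.Ioc 0 N, w B ^ 2 - 2 * μ * ∑ B ∈ Finset.Ioc 0 N, w B + N * μ ^ 2 := by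
      have : ∀ B ∈ Finset.Ioc 0 N, (w B - μ) ^ 2 = w B ^ 2 - 2 * μ * w B + μ ^ 2 :=
        fun B _ => by ring
      rw [Finset.sum_congr rfl this, Finset.sum_add_distrib, Finset.sum_sub_distrib,
        ← Finset.mul_sum, Finset.sum_const, Nat.card_Ioc, Nat.sub_zero, nsmul_eq_mul]
    rw [e1]
    nlinarith [mul_le_mul_of_nonneg_left hw1 hμ0, mul_le_mul_of_nonneg_left hcardS hμ0]
  set T := (Finset.Ioc 0 N).filter (fun B => ∀ p ∈ S, ¬ p ∣ B) with hT
  have hle : (T.card : ℝ) * μ ^ 2 ≤ ∑ B ∈ Finset.Ioc 0 N, (w B - μ) ^ 2 := by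
    calc (T.card : ℝ) * μ ^ 2 = ∑ B ∈ T, (w B - μ) ^ 2 := by
          rw [← nsmul_eq_mul, ← Finset.sum_const]
          apply Finset.sum_congr rfl
          intro B hB
          have hB' := (Finset.mem_filter.mp hB).2
          have : w B = 0 := by
            simp only [w]
            apply Finset.sum_eq_zero
            intro p hp
            rw [if_neg (hB' p hp)]
          rw [this]; ring
      _ ≤ _ := Finset.sum_le_sum_of_subset_of_nonneg (Finset.filter_subset _ _)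
          (fun B _ _ => sq_nonneg _)
  have hfin := hle.trans hvar
  have h4 : (T.card * μ) * μ ≤ (3 * N) * μ := by nlinarith
  exact le_of_mul_le_mul_right h4 hμpos

theorem smoothLog_mono {y z : ℕ} (h : y ≤ z) (B : ℕ) : Fc.smoothLog y B ≤ Fc.smoothLog z B := by
  unfold Fc.smoothLog
  apply Finset.sum_le_sum_of_subset_of_nonneg
  · intro p hp
    rw [Finset.mem_filter, Finset.mem_Icc] at hp ⊢
    exact ⟨⟨hp.1.1, hp.1.2.trans h⟩, hp.2⟩
  · intro p hp _
    rw [Finset.mem_filter, Finset.mem_Icc] at hp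
    have : 0 ≤ Real.log p := Real.log_nonneg (by exact_mod_cast hp.1.1)
    positivity

theorem yy_anti {N m n : ℕ} (hN : 1 ≤ N) (hm : 0 < m) (h : m ≤ n) : Fc.yy N n ≤ Fc.yy N m := by
  unfold Fc.yy
  apply Nat.floor_le_floor
  apply Real.rpow_le_rpow_of_exponent_le (by exact_mod_cast hN)
  apply one_div_le_one_div_of_le (by exact_mod_cast hm) (by exact_mod_cast h)

theorem half_le_floor {x : ℝ} (hx : 1 ≤ x) : x / 2 ≤ ⌊x⌋₊ := by
  have h1 : x < ⌊x⌋₊ + 1 := Nat.lt_floor_add_one x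
  have h2 : (1 : ℝ) ≤ ⌊x⌋₊ := by
    have : 1 ≤ ⌊x⌋₊ := Nat.le_floor (by exact_mod_cast hx)
    exact_mod_cast this
  linarith

/-- The deterministic part. -/
theorem exists_div' {N m B p : ℕ} {θ : ℝ} (hN : 1 < N)
    (hB : 0 < B) (hBN : B ≤ N)
    (h1 : Fc.smoothLog (Fc.yy N m) B ≤ θ * Real.log N)
    (h2 : (1 - θ) * Real.log N ≤ Real.log B)
    (hp : p.Prime) (hpB : p ∣ B) (hyp : Fc.yy N m < p) (hpθ : Real.log p ≤ θ * Real.log N) :
    ∃ d : ℕ, 0 < d ∧ d ∣ B ∧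
        (∀ p : ℕ, p.Prime → p ∣ d → Fc.yy N m < p) ∧ (N : ℝ) ^ (1 - 3 * θ) ≤ d ∧
        (d : ℝ) ≤ (N : ℝ) ^ (1 - (1 : ℝ) / m) := by
  have hNR : (0 : ℝ) < N := by exact_mod_cast (by omega : 0 < N)
  set R := Fc.rough (Fc.yy N m) B with hR
  have hRpos : 0 < R := Fc.rough_pos hB.ne'
  have hRB : R ∣ B := Fc.rough_dvd hB.ne'
  have hpR : p ∣ R := by
    rw [hR]
    unfold Fc.rough
    have hmem : p ∈ B.primeFactors.filter (fun p => Fc.yy N m < p) := by
      rw [Finset.mem_filter, Nat.mem_primeFactors]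
      exact ⟨⟨hp, hpB, hB.ne'⟩, hyp⟩
    refine (dvd_pow_self p ?_).trans (Finset.dvd_prod_of_mem _ hmem)
    exact (hp.factorization_pos_of_dvd hB.ne' hpB).ne'
  obtain ⟨d, hd⟩ := hpR
  have hdpos : 0 < d := by
    rcases Nat.eq_zero_or_pos d with h | h
    · rw [h] at hd; omega
    · exact h
  have hdR : d ∣ R := ⟨p, by rw [hd, mul_comm]⟩
  have hlog : Real.log R = Real.log p + Real.log d := by
    rw [hd]; push_cast
    rw [Real.log_mul (by exact_mod_cast hp.ne_zero) (by exact_mod_cast hdpos.ne')]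
  have hlogR : Real.log R = Real.log B - Fc.smoothLog (Fc.yy N m) B := Fc.log_rough hB.ne'
  refine ⟨d, hdpos, hdR.trans hRB, fun r hr hrd => Fc.prime_dvd_rough hr (hrd.trans hdR), ?_, ?_⟩
  · have hdR' : (0 : ℝ) < d := by exact_mod_cast hdpos
    rw [← Real.log_le_log_iff (Real.rpow_pos_of_pos hNR _) hdR', Real.log_rpow hNR]
    nlinarith
  · have h5 : d * p ≤ N := by
      calc d * p = R := by rw [hd, mul_comm]
        _ ≤ B := Nat.le_of_dvd hB hRB
        _ ≤ N := hBN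
    have h6 : (N : ℝ) ^ ((1 : ℝ) / m) < p := by
      have h7 : (N : ℝ) ^ ((1 : ℝ) / m) < (Fc.yy N m : ℝ) + 1 := Nat.lt_floor_add_one _
      have h8 : ((Fc.yy N m : ℝ) + 1) ≤ p := by exact_mod_cast hyp
      linarith
    have h7 : (0 : ℝ) < (N : ℝ) ^ ((1 : ℝ) / m) := Real.rpow_pos_of_pos hNR _
    rw [Real.rpow_sub hNR, Real.rpow_one, le_div_iff₀ h7]
    calc (d : ℝ) * (N : ℝ) ^ ((1 : ℝ) / m) ≤ d * p := by gcongr
      _ ≤ N := by exact_mod_cast h5

/-- Task D1 (density): almost all integers have a rough divisor `d` with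
`N^(1-η) ≤ d ≤ N^(1-δ)`. -/
theorem rough_divisor {ε η : ℝ} (hε : 0 < ε) (hη : 0 < η) : ∃ m : ℕ, 0 < m ∧ ∃ δ : ℝ, 0 < δ ∧
    ∃ N₀ : ℕ, ∀ N : ℕ, N₀ ≤ N →
      (({B : ℕ | 0 < B ∧ B ≤ N ∧ ¬ ∃ d : ℕ, 0 < d ∧ d ∣ B ∧
        (∀ p : ℕ, p.Prime → p ∣ d → Fc.yy N m < p) ∧ (N : ℝ) ^ (1 - η) ≤ d ∧
        (d : ℝ) ≤ (N : ℝ) ^ (1 - δ)}.ncard : ℕ) : ℝ) ≤ ε * N := by
  classical
  set θ : ℝ := min η (1 / 2) / 4 with hθdef
  have hθ : 0 < θ := by
    have : 0 < min η (1 / 2) := lt_min hη (by norm_num)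
    positivity
  have hθη : 3 * θ ≤ η := by
    have : min η (1 / 2) ≤ η := min_le_left _ _
    have h0 : 0 < min η (1 / 2) := lt_min hη (by norm_num)
    rw [hθdef]; linarith
  have hθ8 : θ ≤ 1 / 8 := by
    have : min η (1 / 2) ≤ 1 / 2 := min_le_right _ _
    rw [hθdef]; linarith
  obtain ⟨k, hk⟩ := exists_nat_ge (1 / θ)
  have hkpos : (0 : ℝ) < k := lt_of_lt_of_le (by positivity) hk
  have hk0 : 0 < k := by exact_mod_cast hkpos
  have h1k : 1 / (k : ℝ) ≤ θ := by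
    rw [div_le_iff₀ hkpos]
    rw [div_le_iff₀ hθ] at hk
    linarith
  obtain ⟨m₁, hm₁, N₁, hN₁⟩ := Fc.smooth_part (k := k) hk0 (ε := ε / 8) (by positivity)
  obtain ⟨C, hC0, hC⟩ := mertens_ratio
  obtain ⟨m₂, hm₂⟩ := exists_nat_ge ((2 / θ) * Real.exp (24 / ε + 1))
  set m : ℕ := max m₁ m₂ with hmdef
  have hm1m : m₁ ≤ m := le_max_left _ _
  have hm0 : 0 < m := by omega
  have hmR : (0 : ℝ) < m := by exact_mod_cast hm0
  have hm2 : (2 / θ) * Real.exp (24 / ε + 1) ≤ m := by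
    refine hm₂.trans ?_
    exact_mod_cast le_max_right _ _
  have hmθ : Real.exp (24 / ε + 1) ≤ m * θ / 2 := by
    have : (2 / θ) * Real.exp (24 / ε + 1) * (θ / 2) ≤ m * (θ / 2) := by gcongr
    have e : (2 / θ) * Real.exp (24 / ε + 1) * (θ / 2) = Real.exp (24 / ε + 1) := by
      field_simp
    linarith
  have hlogmθ : 24 / ε + 1 ≤ Real.log (m * θ / 2) := by
    rw [Real.le_log_iff_exp_le (by positivity)]
    exact hmθ
  have hmθ1 : 1 / (m : ℝ) ≤ θ := by
    rw [div_le_iff₀ hmR]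
    have h2 : (1 : ℝ) ≤ Real.exp (24 / ε + 1) := Real.one_le_exp (by positivity)
    nlinarith
  have hlog : Tendsto (fun N : ℕ => Real.log N) atTop atTop :=
    Real.tendsto_log_atTop.comp tendsto_natCast_atTop_atTop
  have hl2 : 0 < Real.log 2 := Real.log_pos (by norm_num)
  have hev1 := hlog.eventually (eventually_ge_atTop (2 * Real.log 2 / θ))
  have hev2 := hlog.eventually (eventually_ge_atTop (m * (C + 1 + Real.log 2)))
  have hev3 := hlog.eventually (eventually_ge_atTop (Real.log (8 / ε) / θ))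
  obtain ⟨N₂, hN₂⟩ := eventually_atTop.mp (((hev1.and hev2).and hev3).and (eventually_ge_atTop 2))
  refine ⟨m, hm0, 1 / m, by positivity, max N₁ N₂, fun N hN => ?_⟩
  have hN1 : N₁ ≤ N := (le_max_left _ _).trans hN
  have hN2 : N₂ ≤ N := (le_max_right _ _).trans hN
  obtain ⟨⟨⟨hL1, hL2⟩, hL3⟩, hN2'⟩ := hN₂ N hN2
  have hNR : (0 : ℝ) < N := by exact_mod_cast (by omega : 0 < N)
  have hN1R : (1 : ℝ) ≤ N := by exact_mod_cast (by omega : 1 ≤ N)
  have E1 := hN₁ N hN1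
  set L := Real.log N with hL
  have hLpos : 0 < L := by
    have : 0 < m * (C + 1 + Real.log 2) := by positivity
    linarith
  rw [div_le_iff₀ hθ] at hL1 hL3
  -- the endpoints of the range of primes
  set a : ℕ := Fc.yy N m with ha
  set b : ℕ := ⌊(N : ℝ) ^ θ⌋₊ with hb
  have hNm1 : (1 : ℝ) ≤ (N : ℝ) ^ ((1 : ℝ) / m) := Real.one_le_rpow hN1R (by positivity)
  have hNθ1 : (1 : ℝ) ≤ (N : ℝ) ^ θ := Real.one_le_rpow hN1R hθ.le
  have ha_lb : (N : ℝ) ^ ((1 : ℝ) / m) / 2 ≤ a := half_le_floor hNm1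
  have ha_ub : (a : ℝ) ≤ (N : ℝ) ^ ((1 : ℝ) / m) := Nat.floor_le (by positivity)
  have hb_lb : (N : ℝ) ^ θ / 2 ≤ b := half_le_floor hNθ1
  have hb_ub : (b : ℝ) ≤ (N : ℝ) ^ θ := Nat.floor_le (by positivity)
  have haR : (0 : ℝ) < a := lt_of_lt_of_le (by positivity) ha_lb
  have hbR : (0 : ℝ) < b := lt_of_lt_of_le (by positivity) hb_lb
  have hloga_lb : L / m - Real.log 2 ≤ Real.log a := by
    have h := Real.log_le_log (by positivity) ha_lb
    rw [Real.log_div (by positivity) (by norm_num), Real.log_rpow hNR] at h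
    rw [← hL] at h
    calc L / m - Real.log 2 = 1 / (m : ℝ) * L - Real.log 2 := by ring
      _ ≤ _ := h
  have hloga_ub : Real.log a ≤ L / m := by
    have h := Real.log_le_log haR ha_ub
    rw [Real.log_rpow hNR] at h
    rw [← hL] at h
    calc Real.log a ≤ 1 / (m : ℝ) * L := h
      _ = _ := by ring
  have hlogb_lb : θ * L - Real.log 2 ≤ Real.log b := by
    have h := Real.log_le_log (by positivity) hb_lb
    rw [Real.log_div (by positivity) (by norm_num), Real.log_rpow hNR] at h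
    exact h
  have hlogb_ub : Real.log b ≤ θ * L := by
    have h := Real.log_le_log hbR hb_ub
    rw [Real.log_rpow hNR] at h
    exact h
  have hLm : C + 1 + Real.log 2 ≤ L / m := by
    rw [le_div_iff₀ hmR]; linarith
  have hlogaC : C + 1 ≤ Real.log a := by linarith
  have hloga0 : 0 < Real.log a := by linarith
  have ha2 : 2 ≤ a := by
    by_contra hcon
    have : a ≤ 1 := by omega
    have h1 : (a : ℝ) ≤ 1 := by exact_mod_cast this
    have h2 := Real.log_nonpos haR.le h1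
    linarith
  have hab : a ≤ b := by
    apply Nat.floor_le_floor
    exact Real.rpow_le_rpow_of_exponent_le hN1R hmθ1
  have hsum := (abs_le.mp (hC a b ha2 hab)).1
  set S : Finset ℕ := (Finset.Ioc a b).filter Nat.Prime with hSdef
  have hμ : 24 / ε ≤ ∑ p ∈ S, (1 : ℝ) / p := by
    have e1 : Real.log (m * θ / 2) ≤ Real.log (Real.log b / Real.log a) := by
      apply Real.log_le_log (by positivity)
      rw [le_div_iff₀ hloga0]
      calc m * θ / 2 * Real.log a ≤ m * θ / 2 * (L / m) := by gcongr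
        _ = θ * L / 2 := by field_simp
        _ ≤ Real.log b := by linarith
    have e2 : C / Real.log a ≤ 1 := by
      rw [div_le_one hloga0]; linarith
    linarith
  have hbN : b ≤ N := by
    have h1 : (b : ℝ) ≤ N := by
      refine hb_ub.trans ?_
      calc (N : ℝ) ^ θ ≤ (N : ℝ) ^ (1 : ℝ) :=
            Real.rpow_le_rpow_of_exponent_le hN1R (by linarith)
        _ = N := Real.rpow_one _
    exact_mod_cast h1
  have hS : ∀ p ∈ S, p.Prime ∧ p ≤ N := by
    intro p hp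
    rw [hSdef, Finset.mem_filter, Finset.mem_Ioc] at hp
    exact ⟨hp.2, hp.1.2.trans hbN⟩
  have hTK := turan_kubilius (N := N) S hS
  set T := (Finset.Ioc 0 N).filter (fun B => ∀ p ∈ S, ¬ p ∣ B) with hT
  have E3 : (T.card : ℝ) ≤ (ε / 8) * N := by
    have h1 : (T.card : ℝ) * (24 / ε) ≤ 3 * N := by
      refine le_trans ?_ hTK
      gcongr
    have h2 : (T.card : ℝ) = (T.card : ℝ) * (24 / ε) * (ε / 24) := by field_simp
    rw [h2]
    calc (T.card : ℝ) * (24 / ε) * (ε / 24) ≤ 3 * N * (ε / 24) := by gcongr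
      _ = _ := by ring
  -- small `B`
  set U : Finset ℕ := Finset.Ioc 0 ⌊(N : ℝ) ^ (1 - θ)⌋₊ with hU
  have E2 : (U.card : ℝ) ≤ (ε / 8) * N := by
    rw [hU, Nat.card_Ioc, Nat.sub_zero]
    calc ((⌊(N : ℝ) ^ (1 - θ)⌋₊ : ℕ) : ℝ) ≤ (N : ℝ) ^ (1 - θ) := Nat.floor_le (by positivity)
      _ ≤ (ε / 8) * N := by
        rw [← Real.log_le_log_iff (Real.rpow_pos_of_pos hNR _) (by positivity),
          Real.log_rpow hNR, Real.log_mul (by positivity) hNR.ne', ← hL]
        have h8 : Real.log (8 / ε) = - Real.log (ε / 8) := by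
          rw [← Real.log_inv, inv_div]
        rw [h8] at hL3
        linarith
  set S1 := {B : ℕ | 0 < B ∧ B ≤ N ∧ Real.log N / k < Fc.smoothLog ⌊(N : ℝ) ^ ((1 : ℝ) / m₁)⌋₊ B}
    with hS1
  have hS1fin : S1.Finite := (Set.finite_Icc 0 N).subset (fun B hB => ⟨Nat.zero_le _, hB.2.1⟩)
  have hsub : {B : ℕ | 0 < B ∧ B ≤ N ∧ ¬ ∃ d : ℕ, 0 < d ∧ d ∣ B ∧
        (∀ p : ℕ, p.Prime → p ∣ d → Fc.yy N m < p) ∧ (N : ℝ) ^ (1 - η) ≤ d ∧
        (d : ℝ) ≤ (N : ℝ) ^ (1 - 1 / (m : ℝ))} ⊆ S1 ∪ ((U : Set ℕ) ∪ (T : Set ℕ)) := by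
    rintro B ⟨hB0, hBN, hB⟩
    by_contra hcon
    simp only [Set.mem_union, not_or] at hcon
    obtain ⟨c1, c2, c3⟩ := hcon
    apply hB
    have hBR : (0 : ℝ) < B := by exact_mod_cast hB0
    have d1 : Fc.smoothLog (Fc.yy N m) B ≤ θ * Real.log N := by
      have h1 : Fc.smoothLog (Fc.yy N m) B ≤ Fc.smoothLog (Fc.yy N m₁) B :=
        smoothLog_mono (yy_anti (by omega) hm₁ hm1m) B
      have h2 : Fc.smoothLog (Fc.yy N m₁) B ≤ Real.log N / k := by
        by_contra h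
        exact c1 ⟨hB0, hBN, not_le.mp h⟩
      have h3 : Real.log N / k ≤ θ * Real.log N := by
        calc Real.log N / k = (1 / (k : ℝ)) * Real.log N := by ring
          _ ≤ _ := by
            apply mul_le_mul_of_nonneg_right h1k
            rw [← hL]; exact hLpos.le
      linarith
    have d2 : (1 - θ) * Real.log N ≤ Real.log B := by
      have h1 : (N : ℝ) ^ (1 - θ) ≤ B := by
        by_contra h
        apply c2
        rw [hU, Finset.mem_coe, Finset.mem_Ioc]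
        exact ⟨hB0, Nat.le_floor (not_le.mp h).le⟩
      have h2 := Real.log_le_log (by positivity) h1
      rwa [Real.log_rpow hNR] at h2
    have d3 : ∃ p ∈ S, p ∣ B := by
      by_contra h
      push Not at h
      apply c3
      rw [hT, Finset.mem_coe, Finset.mem_filter, Finset.mem_Ioc]
      exact ⟨⟨hB0, hBN⟩, h⟩
    obtain ⟨p, hpS, hpB⟩ := d3
    rw [hSdef, Finset.mem_filter, Finset.mem_Ioc] at hpS
    obtain ⟨⟨hap, hpb⟩, hp⟩ := hpS
    have hpθ : Real.log p ≤ θ * Real.log N := by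
      have h1 : Real.log p ≤ Real.log b :=
        Real.log_le_log (by exact_mod_cast hp.pos) (by exact_mod_cast hpb)
      exact h1.trans hlogb_ub
    obtain ⟨d, hd0, hdB, hdp, hd1, hd2⟩ :=
      exists_div' (by omega : 1 < N) hB0 hBN d1 d2 hp hpB hap hpθ
    refine ⟨d, hd0, hdB, hdp, ?_, hd2⟩
    refine le_trans ?_ hd1
    apply Real.rpow_le_rpow_of_exponent_le hN1R
    linarith
  have hfin : (S1 ∪ ((U : Set ℕ) ∪ (T : Set ℕ))).Finite :=
    hS1fin.union ((Finset.finite_toSet U).union (Finset.finite_toSet T))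
  have hcard := Set.ncard_le_ncard hsub hfin
  have h2 := Set.ncard_union_le S1 ((U : Set ℕ) ∪ (T : Set ℕ))
  have h3 := Set.ncard_union_le (U : Set ℕ) (T : Set ℕ)
  rw [Set.ncard_coe_finset, Set.ncard_coe_finset] at h3
  have h4 : {B : ℕ | 0 < B ∧ B ≤ N ∧ ¬ ∃ d : ℕ, 0 < d ∧ d ∣ B ∧
        (∀ p : ℕ, p.Prime → p ∣ d → Fc.yy N m < p) ∧ (N : ℝ) ^ (1 - η) ≤ d ∧
        (d : ℝ) ≤ (N : ℝ) ^ (1 - 1 / (m : ℝ))}.ncard ≤ S1.ncard + (U.card + T.card) := by omega
  have h5 : ({B : ℕ | 0 < B ∧ B ≤ N ∧ ¬ ∃ d : ℕ, 0 < d ∧ d ∣ B ∧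
        (∀ p : ℕ, p.Prime → p ∣ d → Fc.yy N m < p) ∧ (N : ℝ) ^ (1 - η) ≤ d ∧
        (d : ℝ) ≤ (N : ℝ) ^ (1 - 1 / (m : ℝ))}.ncard : ℝ) ≤ S1.ncard + (U.card + T.card) := by
    exact_mod_cast h4
  calc _ ≤ (S1.ncard : ℝ) + (U.card + T.card) := h5
    _ ≤ (ε / 8) * N + ((ε / 8) * N + (ε / 8) * N) := by gcongr
    _ ≤ ε * N := by nlinarith [mul_pos hε hNR]

end Pool.Agent.H374R2.T.TaskD1
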