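import Mathlib

/-!
Task D2: perfect powers have density zero.
-/

namespace Pool.Agent.H374R2.T.TaskD2

open Finset

theorem card_pp (N : ℕ) :
    {B : ℕ | 0 < B ∧ B ≤ N ∧ ∃ w k : ℕ, 2 ≤ k ∧ B = w ^ k}.ncard ≤
      2 + (Nat.sqrt N + 1) * (Nat.log 2 N + 1) := by
  classical
  set S : Finset ℕ := ({0, 1} : Finset ℕ) ∪
    ((range (Nat.sqrt N + 1)) ×ˢ (range (Nat.log 2 N + 1))).image (fun p => p.1 ^ p.2) with hS
  have hsub : {B : ℕ | 0 < B ∧ B ≤ N ∧ ∃ w k : ℕ, 2 ≤ k ∧ B = w ^ k} ⊆ (S : Set ℕ) := by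
    rintro B ⟨hB0, hBN, w, k, hk, rfl⟩
    rw [Finset.mem_coe, hS, Finset.mem_union, Finset.mem_image]
    by_cases hw : w ≤ 1
    · left
      have : w = 0 ∨ w = 1 := by omega
      rcases this with rfl | rfl
      · simp [zero_pow (by omega : k ≠ 0)]
      · simp
    · right
      push Not at hw
      refine ⟨(w, k), ?_, rfl⟩
      rw [Finset.mem_product, Finset.mem_range, Finset.mem_range]
      constructor
      · apply Nat.lt_succ_of_le
        rw [Nat.le_sqrt']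
        exact (Nat.pow_le_pow_right (by omega) hk).trans hBN
      · apply Nat.lt_succ_of_le
        apply Nat.le_log_of_pow_le (by norm_num)
        exact (Nat.pow_le_pow_left (by omega) k).trans hBN
  calc {B : ℕ | 0 < B ∧ B ≤ N ∧ ∃ w k : ℕ, 2 ≤ k ∧ B = w ^ k}.ncard
      ≤ (S : Set ℕ).ncard := Set.ncard_le_ncard hsub (Finset.finite_toSet S)
    _ = S.card := Set.ncard_coe_finset S
    _ ≤ ({0, 1} : Finset ℕ).card + _ := Finset.card_union_le _ _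
    _ ≤ 2 + (Nat.sqrt N + 1) * (Nat.log 2 N + 1) := by
        apply Nat.add_le_add Finset.card_le_two
        refine Finset.card_image_le.trans ?_
        rw [Finset.card_product, Finset.card_range, Finset.card_range]

/-- Task D2 (perfect powers have density zero). -/
theorem perfect_powers {ε : ℝ} (hε : 0 < ε) : ∃ N₀ : ℕ, ∀ N : ℕ, N₀ ≤ N →
    (({B : ℕ | 0 < B ∧ B ≤ N ∧ ∃ w k : ℕ, 2 ≤ k ∧ B = w ^ k}.ncard : ℕ) : ℝ) ≤ ε * N := by
  refine ⟨⌈(20 / ε) ^ 4⌉₊ + 1, fun N hN => ?_⟩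
  have hN1 : (1 : ℝ) ≤ N := by
    have : 1 ≤ N := by omega
    exact_mod_cast this
  have hN0 : (0 : ℝ) < N := by linarith
  have hN4 : (20 / ε) ^ 4 ≤ (N : ℝ) := by
    calc (20 / ε) ^ 4 ≤ (⌈(20 / ε) ^ 4⌉₊ : ℝ) := Nat.le_ceil _
      _ ≤ N := by exact_mod_cast (by omega : ⌈(20 / ε) ^ 4⌉₊ ≤ N)
  set r : ℝ := (N : ℝ) ^ (1 / 4 : ℝ) with hr
  have hr4 : r ^ 4 = N := by
    rw [hr, ← Real.rpow_natCast, ← Real.rpow_mul hN0.le]
    norm_num
  have hr1 : 1 ≤ r := Real.one_le_rpow hN1 (by norm_num)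
  have hrε : 20 / ε ≤ r := by
    have h0 : 0 ≤ 20 / ε := by positivity
    by_contra hlt
    push Not at hlt
    have := pow_lt_pow_left₀ hlt (by linarith) (by norm_num : 4 ≠ 0)
    rw [hr4] at this
    linarith
  have hsq : (Nat.sqrt N : ℝ) ≤ r ^ 2 := by
    have h1 : ((Nat.sqrt N : ℕ) : ℝ) ^ 2 ≤ N := by
      have := Nat.sqrt_le' N
      exact_mod_cast this
    have h2 : (N : ℝ) = (r ^ 2) ^ 2 := by rw [← hr4]; ring
    rw [h2] at h1
    exact le_of_sq_le_sq h1 (by positivity)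
  have hlog : (Nat.log 2 N : ℝ) ≤ 8 * r := by
    have h1 : (Nat.log 2 N : ℝ) * Real.log 2 ≤ Real.log N := by
      have h2 : (2 : ℝ) ^ (Nat.log 2 N) ≤ N := by
        have := Nat.pow_log_le_self 2 (by omega : N ≠ 0)
        exact_mod_cast this
      have h3 := Real.log_le_log (by positivity) h2
      rwa [Real.log_pow] at h3
    have h4 : Real.log N ≤ r / (1 / 4) := Real.log_le_rpow_div hN0.le (by norm_num)
    have h5 : (1 / 2 : ℝ) ≤ Real.log 2 := by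
      have := Real.log_two_gt_d9
      linarith
    have h6 : (0 : ℝ) ≤ Nat.log 2 N := Nat.cast_nonneg _
    nlinarith
  have hc : (({B : ℕ | 0 < B ∧ B ≤ N ∧ ∃ w k : ℕ, 2 ≤ k ∧ B = w ^ k}.ncard : ℕ) : ℝ) ≤
      2 + ((Nat.sqrt N : ℝ) + 1) * ((Nat.log 2 N : ℝ) + 1) := by
    exact_mod_cast card_pp N
  have h20 : 20 ≤ ε * r := by
    rw [div_le_iff₀ hε] at hrε
    linarith
  calc (({B : ℕ | 0 < B ∧ B ≤ N ∧ ∃ w k : ℕ, 2 ≤ k ∧ B = w ^ k}.ncard : ℕ) : ℝ)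
      ≤ 2 + ((Nat.sqrt N : ℝ) + 1) * ((Nat.log 2 N : ℝ) + 1) := hc
    _ ≤ 2 + (r ^ 2 + 1) * (8 * r + 1) := by gcongr
    _ ≤ 20 * r ^ 3 := by
        have h1 : 1 ≤ r ^ 2 := one_le_pow₀ hr1
        have h2 : 1 ≤ r ^ 3 := one_le_pow₀ hr1
        have h3 : (r ^ 2 + 1) * (8 * r + 1) ≤ (2 * r ^ 2) * (9 * r) := by
          apply mul_le_mul <;> first | positivity | linarith
        nlinarith
    _ ≤ ε * r * r ^ 3 := by gcongr
    _ = ε * r ^ 4 := by ring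
    _ = ε * N := by rw [hr4]

end Pool.Agent.H374R2.T.TaskD2
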