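import Mathlib
import Pool.Agent.H374R2.BealFour

/-!
Even exponents `z`: for almost all pairs both other exponents are even.
-/

namespace Pool.Agent.H374R2.T

open Finset Pool.Agent.H374R2.Beal

/-- Quadratic residue condition. -/
def Good2 (u v : ℕ) : Prop :=
  ∀ y : ℕ, (∀ r : ℕ, r.Prime → r ∣ u → ∃ t : ZMod r, t ^ 2 = (v : ZMod r) ^ y ∨ t ^ 2 = - (v : ZMod r) ^ y)
    → 2 ∣ y

theorem uniformNull_not_good2 : UniformNull {p | ¬ Good2 p.1 p.2} := by
  have hc : (0 : ℝ) < 1 / (2 * (2 : ℕ)) := by norm_num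
  have hB := uniformNull_core {r : ℕ | r.Prime ∧ 8 ∣ r - 1} (fun r hr => hr.1)
    (primes_one_div 8 (by norm_num)) (fun r => NonPow 2 r) _ hc
    (fun r hr => nonPow_lower le_rfl hr.1 ((by norm_num : (2:ℕ) ∣ 8).trans hr.2))
  refine hB.mono ?_
  rintro ⟨u, v⟩ hp
  by_contra hcon
  apply hp
  simp only [Set.mem_ofPred_eq, not_forall, not_not] at hcon
  obtain ⟨r, hr, hu, hv⟩ := hcon
  intro y h
  have : Fact r.Prime := ⟨hr.1⟩
  obtain ⟨i, hi⟩ := exists_root_neg_one hr.1 hr.2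
  have h1 : ∃ t : ZMod r, t ^ 2 = (v : ZMod r) ^ y := by
    obtain ⟨t, ht | ht⟩ := h r hr.1 hu
    · exact ⟨t, ht⟩
    · exact ⟨i ^ 2 * t, by rw [mul_pow, ← pow_mul, show 2 * 2 = 4 from rfl, hi, ht]; ring⟩
  obtain ⟨t, ht⟩ := h1
  exact dvd_of_pow_isPow Nat.prime_two hv (s := t) ht

theorem Good2.even {A B x y m w : ℕ} (h : Good2 A B) (hx : 0 < x)
    (heq : A ^ x + B ^ y = w ^ (2 * m) ∨ A ^ x + w ^ (2 * m) = B ^ y ∨ B ^ y + w ^ (2 * m) = A ^ x) :
    2 ∣ y := by
  apply h y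
  intro r hr hru
  have hr0 : (A : ZMod r) = 0 := (ZMod.natCast_eq_zero_iff A r).mpr hru
  refine ⟨(w : ZMod r) ^ m, ?_⟩
  rcases heq with h | h | h
  · left
    have := congrArg (fun z : ℕ => (z : ZMod r)) h
    push_cast at this
    rw [hr0, zero_pow hx.ne', zero_add] at this
    rw [this, ← pow_mul, mul_comm 2 m]
  · left
    have := congrArg (fun z : ℕ => (z : ZMod r)) h
    push_cast at this
    rw [hr0, zero_pow hx.ne', zero_add] at this
    rw [← this, ← pow_mul, mul_comm 2 m]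
  · right
    have := congrArg (fun z : ℕ => (z : ZMod r)) h
    push_cast at this
    rw [hr0, zero_pow hx.ne'] at this
    rw [← pow_mul, mul_comm m 2]
    linear_combination this

end Pool.Agent.H374R2.T
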