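import Mathlib
import Pool.Agent.H374R2.GcF
import Pool.Agent.H374R2.T.QBound
import Pool.Agent.H374R2.T.TaskD1
import Pool.Agent.H374R2.T.TaskD2
import Pool.Agent.H374R2.T.Two

/-!
Assembly: for almost all coprime pairs `(A, B)` no number `A^x + B^y` or `|A^x - B^y|` with
`x, y ≥ 1` is a perfect power.
-/

namespace Pool.Agent.H374R2.T

open Finset Filter Topology

/-- Typical integers. -/
structure Typ (N m D P₀ B : ℕ) : Prop where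
  rough : ∃ d, 0 < d ∧ d ∣ B ∧ d ≤ D ∧ (∀ p : ℕ, p.Prime → p ∣ d → Fc.yy N m < p) ∧ N ^ 9 ≤ d ^ 10
  three : ∃ p, p ≤ P₀ ∧ p.Prime ∧ p % 4 = 3 ∧ p ∣ B
  np : ¬ ∃ w k : ℕ, 2 ≤ k ∧ B = w ^ k

/-- The exceptional pairs. -/
def All (N : ℕ) : Set (ℕ × ℕ) :=
  {p | 0 < p.1 ∧ p.1 ≤ N ∧ 0 < p.2 ∧ p.2 ≤ N ∧ Nat.Coprime p.1 p.2 ∧ ∃ x y z C : ℕ,
    0 < x ∧ 0 < y ∧ 2 ≤ z ∧ 0 < C ∧
    (p.1 ^ x + p.2 ^ y = C ^ z ∨ p.1 ^ x + C ^ z = p.2 ^ y ∨ p.2 ^ y + C ^ z = p.1 ^ x)}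

theorem mem_badC {N m D P₀ Q A B q x y U : ℕ} {s : ℤ} (hs : s = 1 ∨ s = -1) (hq : q.Prime)
    (hq20 : 20 ≤ q) (hqx : ¬ q ∣ x)
    (hQ : ∀ q : ℕ, q < 528000 * P₀ ^ 2 * (Nat.log 2 q + 1) ^ 2 * (Nat.log 2 N + 1) ^ 2 → q ≤ Q)
    (hA0 : 0 < A) (hAN : A ≤ N) (hB0 : 0 < B) (hBN : B ≤ N) (hAB : Nat.Coprime A B)
    (hB : Typ N m D P₀ B) (hy : 0 < y) (hU : 2 ≤ U) (hle : A ^ x ≤ B ^ y)
    (heq : (U : ℤ) ^ q - s * (A : ℤ) ^ x = (B : ℤ) ^ y) : (A, B) ∈ BadC N m Q D := by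
  obtain ⟨d, hd0, hdB, hdD, hdp, hd⟩ := hB.rough
  obtain ⟨p, hpP, hp, hp3, hpB⟩ := hB.three
  have hx : q * (x / q) + x % q = x := Nat.div_add_mod x q
  have hi : 0 < x % q := Nat.pos_of_ne_zero (fun h => hqx (Nat.dvd_of_mod_eq_zero h))
  have hiq : x % q < q := Nat.mod_lt _ hq.pos
  have hD : Data N q (x % q) d A B s (x / q) y U :=
    ⟨hy, by omega, by rw [hx]; exact hle, by rw [hx]; exact heq, hB0, hBN, hdB, hAB, hB.np⟩
  have hp2 : p ≠ 2 := by rintro rfl; norm_num at hp3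
  have hqQ : q ≤ Q := hQ q (q_lt hs hq hi hiq hD hA0 hAN hU hp hp2 hpB hpP)
  exact ⟨hA0, hAN, q, x % q, d, s, hq, hq20, hqQ, hiq, hs, hd0, hdD,
    (Nat.le_of_dvd hB0 hdB).trans hBN, hdp, hd, hB0, hBN, hdB, hAB, hB.np, x / q, y, U, hy,
    by omega, by rw [hx]; exact hle, by rw [hx]; exact heq⟩

/-- The uniformly null part of the exceptional set. -/
def Nul : Set (ℕ × ℕ) :=
  Gc.Small 20 ∪ ({p | ¬ Good2 p.1 p.2} ∪ Prod.swap ⁻¹' {p | ¬ Good2 p.1 p.2})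

theorem nul_null : Beal.UniformNull Nul :=
  (Gc.small_null 20).union (uniformNull_not_good2.union uniformNull_not_good2.swap)

theorem all_subset {N m D P₀ Q : ℕ}
    (hQ : ∀ q : ℕ, q < 528000 * P₀ ^ 2 * (Nat.log 2 q + 1) ^ 2 * (Nat.log 2 N + 1) ^ 2 → q ≤ Q) :
    All N ⊆ ({B | 0 < B ∧ B ≤ N ∧ ¬ Typ N m D P₀ B} ×ˢ Set.Icc 1 N) ∪
      ((Set.Icc 1 N ×ˢ {B | 0 < B ∧ B ≤ N ∧ ¬ Typ N m D P₀ B}) ∪ (Gc.Exc N ∪
        ((Nul ∩ (Set.Ioc 0 (0 + N) ×ˢ Set.Ioc 0 (0 + N))) ∪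
          (BadC N m Q D ∪ Prod.swap '' BadC N m Q D)))) := by
  rintro ⟨A, B⟩ ⟨hA0, hAN, hB0, hBN, hAB, x, y, z, C, hx, hy, hz, hC, h⟩
  simp only at hA0 hAN hB0 hBN hAB h
  by_cases hA : Typ N m D P₀ A
  swap
  · exact Or.inl ⟨⟨hA0, hAN, hA⟩, hB0, hBN⟩
  by_cases hB : Typ N m D P₀ B
  swap
  · exact Or.inr (Or.inl ⟨⟨hA0, hAN⟩, hB0, hBN, hB⟩)
  refine Or.inr (Or.inr ?_)
  have hbox : (A, B) ∈ (Set.Ioc 0 (0 + N) ×ˢ Set.Ioc 0 (0 + N) : Set (ℕ × ℕ)) := by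
    rw [Set.mem_prod, Set.mem_Ioc, Set.mem_Ioc, zero_add]
    exact ⟨⟨hA0, hAN⟩, hB0, hBN⟩
  -- exceptional for a small exponent
  have hexc : ∀ n w : ℕ, 3 ≤ n → n ≤ 24 → 0 < w → w ^ n = C ^ z → (A, B) ∈ Nul := by
    intro n w hn hnQ hw hwn
    refine Or.inl ⟨n, hn, hnQ, hA0, hB0, hAB, x, y, w, hx, hy, hw, ?_⟩
    rw [hwn]; exact h
  rcases Nat.even_or_odd z with hev | hodd
  · -- `z` even
    obtain ⟨z', hz'⟩ := hev
    have hz2 : z = 2 * z' := by omega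
    by_cases hG : Good2 A B
    swap
    · exact Or.inr (Or.inl ⟨Or.inr (Or.inl hG), hbox⟩)
    by_cases hG' : Good2 B A
    swap
    · exact Or.inr (Or.inl ⟨Or.inr (Or.inr hG'), hbox⟩)
    left
    rw [hz2] at h
    have hy2 : 2 ∣ y := hG.even hx h
    have hx2 : 2 ∣ x := hG'.even hy (by
      rcases h with h | h | h
      · left; rw [add_comm]; exact h
      · right; right; exact h
      · right; left; exact h)
    have hg1 : 1 < Nat.gcd z x := by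
      have h1 : 2 ∣ Nat.gcd z x := Nat.dvd_gcd ⟨z', hz2⟩ hx2
      have h2 : 0 < Nat.gcd z x := Nat.gcd_pos_of_pos_right _ hx
      exact Nat.le_of_dvd h2 h1
    have hg2 : 1 < Nat.gcd z y := by
      have h1 : 2 ∣ Nat.gcd z y := Nat.dvd_gcd ⟨z', hz2⟩ hy2
      have h2 : 0 < Nat.gcd z y := Nat.gcd_pos_of_pos_right _ hy
      exact Nat.le_of_dvd h2 h1
    rw [← hz2] at h
    refine ⟨hA0, hAN, hB0, hBN, hAB, x, y, z, C, hx, hy, by omega, hC, ?_, h⟩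
    by_cases hB2 : 2 ∣ B
    · right; right
      refine ⟨hg2, fun hA2 => ?_⟩
      exact Nat.prime_two.not_dvd_one (hAB ▸ Nat.dvd_gcd hA2 hB2)
    · right; left
      exact ⟨hg1, hB2⟩
  -- `z` odd
  rcases Nat.lt_or_ge C 2 with hC1 | hC2
  · have : C = 1 := by omega
    right; left
    exact ⟨hexc 3 1 le_rfl (by norm_num) one_pos (by rw [this]; simp), hbox⟩
  have hz1 : z ≠ 1 := by omega
  set q := z.minFac with hqdef
  have hq : q.Prime := Nat.minFac_prime hz1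
  have hqz : q ∣ z := Nat.minFac_dvd z
  have hq2 : q ≠ 2 := by
    intro h2
    rw [h2] at hqz
    exact (Nat.not_even_iff_odd.mpr hodd) (even_iff_two_dvd.mpr hqz)
  have hq3 : 3 ≤ q := by have := hq.two_le; omega
  have hzq0 : 0 < z / q := Nat.div_pos (Nat.le_of_dvd (by omega) hqz) hq.pos
  set U := C ^ (z / q) with hU
  have hUq : U ^ q = C ^ z := by rw [hU, ← pow_mul, Nat.div_mul_cancel hqz]
  have hU2 : 2 ≤ U := by
    calc 2 = 2 ^ 1 := by norm_num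
      _ ≤ C ^ 1 := Nat.pow_le_pow_left hC2 1
      _ ≤ C ^ (z / q) := Nat.pow_le_pow_right hC hzq0
  rcases Nat.lt_or_ge q 21 with hqs | hqb
  · right; left
    exact ⟨hexc q U hq3 (by omega) (by omega) hUq, hbox⟩
  have hgcd : ∀ t, t ∣ x * y → q ∣ t → 0 < t → (A, B) ∈ Gc.Exc N := by
    intro t ht hqt ht0
    refine ⟨hA0, hAN, hB0, hBN, hAB, x, y, z, C, hx, hy, by omega, hC, Or.inl ?_, h⟩
    have h1 : q ∣ Nat.gcd z (x * y) := Nat.dvd_gcd hqz (hqt.trans ht)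
    have h2 : 0 < Nat.gcd z (x * y) := Nat.gcd_pos_of_pos_left _ (by omega)
    have := Nat.le_of_dvd h2 h1
    omega
  by_cases hqx : q ∣ x
  · exact Or.inl (hgcd x (Dvd.intro _ rfl) hqx hx)
  by_cases hqy : q ∣ y
  · exact Or.inl (hgcd y (Dvd.intro_left _ rfl) hqy hy)
  refine Or.inr (Or.inr ?_)
  rw [← hUq] at h
  rcases h with h | h | h
  · have hZ : (A : ℤ) ^ x + (B : ℤ) ^ y = (U : ℤ) ^ q := by exact_mod_cast h
    rcases le_total (A ^ x) (B ^ y) with hle | hle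
    · left
      exact mem_badC (Or.inl rfl) hq (by omega) hqx hQ hA0 hAN hB0 hBN hAB hB hy hU2 hle
        (by rw [← hZ]; ring)
    · right
      refine ⟨(B, A), ?_, rfl⟩
      exact mem_badC (Or.inl rfl) hq (by omega) hqy hQ hB0 hBN hA0 hAN hAB.symm hA hx hU2 hle
        (by rw [← hZ]; ring)
  · have hZ : (A : ℤ) ^ x + (U : ℤ) ^ q = (B : ℤ) ^ y := by exact_mod_cast h
    left
    exact mem_badC (Or.inr rfl) hq (by omega) hqx hQ hA0 hAN hB0 hBN hAB hB hy hU2 (by omega)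
      (by rw [← hZ]; ring)
  · have hZ : (B : ℤ) ^ y + (U : ℤ) ^ q = (A : ℤ) ^ x := by exact_mod_cast h
    right
    refine ⟨(B, A), ?_, rfl⟩
    exact mem_badC (Or.inr rfl) hq (by omega) hqy hQ hB0 hBN hA0 hAN hAB.symm hA hx hU2 (by omega)
      (by rw [← hZ]; ring)

/-- For almost all coprime pairs `(A, B)` of positive integers up to `N` no number `A^x + B^y`
or `|A^x - B^y|` with `x, y ≥ 1` is a perfect power. -/
theorem main : ∀ ε : ℝ, 0 < ε → ∃ N₀ : ℕ, ∀ N : ℕ, N₀ ≤ N →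
    ((All N).ncard : ℝ) ≤ ε * (N : ℝ) ^ 2 := by
  intro ε hε
  obtain ⟨m, hm, δ, hδ, N₁, hN₁⟩ := TaskD1.rough_divisor (ε := ε / 40) (η := 1 / 10) (by positivity)
    (by norm_num)
  obtain ⟨P₀, N₂, hN₂⟩ := Gc.three_prime (ε := ε / 40) (by positivity)
  obtain ⟨N₃, hN₃⟩ := TaskD2.perfect_powers (ε := ε / 40) (by positivity)
  obtain ⟨N₄, hN₄⟩ := Gc.main (ε / 8) (by positivity)
  obtain ⟨N₅, hN₅⟩ := nul_null (ε / 8) (by positivity)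
  obtain ⟨ν₀, hν₀⟩ := q_le_cube (528000 * P₀ ^ 2)
  have hmR : (0 : ℝ) < m := by exact_mod_cast hm
  have e1 := Gc.log_pow_le (k := 3) (show (0 : ℝ) < 1 / m by positivity) (show (0 : ℝ) < 27 by norm_num)
  have e2 := Gc.log_pow_le (k := 600) (show (0 : ℝ) < 1 by norm_num)
    (show (0 : ℝ) < (16 * (27 ^ 2)) ^ 100 by positivity)
  have e3 := Gc.log_pow_le (k := 3 * (m + 2)) hδ (show (0 : ℝ) < 16 * (2 * 27) ^ (m + 2) / ε by positivity)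
  obtain ⟨N₆, hN₆⟩ := eventually_atTop.mp (((e1.and e2).and e3).and
    ((Gc.tendsto_log_nat.eventually (eventually_ge_atTop (max 1 (ν₀ : ℝ)))).and
      (eventually_ge_atTop 2)))
  refine ⟨max N₁ (max N₂ (max N₃ (max N₄ (max N₅ N₆)))), fun N hN => ?_⟩
  simp only [max_le_iff] at hN
  obtain ⟨g1, g2, g3, g4, g5, g6⟩ := hN
  obtain ⟨⟨⟨b1, b2⟩, b3⟩, b4, b5⟩ := hN₆ N g6
  have hNpos : 0 < N := by omega
  have hNR : (0 : ℝ) < N := by exact_mod_cast hNpos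
  have hN1 : (1 : ℝ) ≤ N := by exact_mod_cast hNpos
  set L := Real.log N with hL
  have hL1 : 1 ≤ L := (le_max_left _ _).trans b4
  have hLν : (ν₀ : ℝ) ≤ L := (le_max_right _ _).trans b4
  -- parameters
  set ν : ℕ := Nat.log 2 N + 1 with hν
  set Q : ℕ := ν ^ 3 with hQdef
  set D : ℕ := ⌊(N : ℝ) ^ (1 - δ)⌋₊ with hD
  have hνL : (ν : ℝ) ≤ 3 * L := by
    have e1 : (2 : ℝ) ^ (Nat.log 2 N) ≤ N := by exact_mod_cast Nat.pow_log_le_self 2 (by omega)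
    have e2 := Real.log_le_log (by positivity) e1
    rw [Real.log_pow, ← hL] at e2
    have e3 := Real.log_two_gt_d9
    have e4 : (Nat.log 2 N : ℝ) * (1 / 2) ≤ Nat.log 2 N * Real.log 2 := by
      apply mul_le_mul_of_nonneg_left _ (by positivity)
      linarith
    rw [hν]
    push_cast
    linarith
  have hLν' : L ≤ ν := by
    have e1 : N < 2 ^ (Nat.log 2 N + 1) := Nat.lt_pow_succ_log_self (by norm_num) N
    have e2 : (N : ℝ) < 2 ^ (Nat.log 2 N + 1) := by exact_mod_cast e1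
    have e3 := Real.log_lt_log hNR e2
    rw [Real.log_pow, ← hL, ← hν] at e3
    have e4 : Real.log 2 ≤ 1 := by have := Real.log_two_lt_d9; linarith
    calc L ≤ ν * Real.log 2 := e3.le
      _ ≤ ν * 1 := by gcongr
      _ = _ := by ring
  have hνν : ν₀ ≤ ν := by exact_mod_cast hLν.trans hLν'
  have hQbd : ∀ q : ℕ, q < 528000 * P₀ ^ 2 * (Nat.log 2 q + 1) ^ 2 * (Nat.log 2 N + 1) ^ 2 → q ≤ Q :=
    fun q hq => hν₀ ν q hνν hq
  have hQL : (Q : ℝ) ≤ 27 * L ^ 3 := by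
    rw [hQdef]
    push_cast
    calc (ν : ℝ) ^ 3 ≤ (3 * L) ^ 3 := by gcongr
      _ = _ := by ring
  have hQyy : Q ≤ Fc.yy N m := by
    unfold Fc.yy
    apply Nat.le_floor
    exact hQL.trans b1
  have hQN : (16 * Q ^ 2) ^ 100 ≤ N := by
    have : ((16 * (Q : ℝ) ^ 2) ^ 100) ≤ N := by
      calc (16 * (Q : ℝ) ^ 2) ^ 100 ≤ (16 * (27 * L ^ 3) ^ 2) ^ 100 := by gcongr
        _ = (16 * 27 ^ 2) ^ 100 * L ^ 600 := by ring
        _ ≤ (N : ℝ) ^ (1 : ℝ) := b2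
        _ = N := Real.rpow_one _
    exact_mod_cast this
  have hDle : (D : ℝ) ≤ (N : ℝ) ^ (1 - δ) := Nat.floor_le (Real.rpow_nonneg hNR.le _)
  -- the pieces
  have k1 := hN₁ N g1
  have k2 := hN₂ N g2
  have k3 := hN₃ N g3
  have k4 := hN₄ N g4
  have k5 := hN₅ N N g5 g5 0 0
  obtain ⟨hBadfin, k6⟩ := badC_card (N := N) (m := m) (Q := Q) (D := D) hm hNpos hQN hQyy
  set S : Set ℕ := {B | 0 < B ∧ B ≤ N ∧ ¬ Typ N m D P₀ B} with hS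
  have hSfin : S.Finite := (Set.finite_Icc 0 N).subset (fun B hB => ⟨Nat.zero_le _, hB.2.1⟩)
  set T1 : Set ℕ := {B : ℕ | 0 < B ∧ B ≤ N ∧ ¬ ∃ d : ℕ, 0 < d ∧ d ∣ B ∧
        (∀ p : ℕ, p.Prime → p ∣ d → Fc.yy N m < p) ∧ (N : ℝ) ^ (1 - 1 / 10 : ℝ) ≤ d ∧
        (d : ℝ) ≤ (N : ℝ) ^ (1 - δ)} with hT1
  set T2 : Set ℕ := {B : ℕ | 0 < B ∧ B ≤ N ∧ ∀ p : ℕ, p ≤ P₀ → p.Prime → p % 4 = 3 → ¬ p ∣ B} with hT2
  set T3 : Set ℕ := {B : ℕ | 0 < B ∧ B ≤ N ∧ ∃ w k : ℕ, 2 ≤ k ∧ B = w ^ k} with hT3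
  have hSsub : S ⊆ T1 ∪ (T2 ∪ T3) := by
    rintro B ⟨hB0, hBN, hB⟩
    by_contra hcon
    simp only [Set.mem_union, not_or] at hcon
    obtain ⟨c1, c2, c3⟩ := hcon
    apply hB
    refine ⟨?_, ?_, ?_⟩
    · have hr : ∃ d : ℕ, 0 < d ∧ d ∣ B ∧
        (∀ p : ℕ, p.Prime → p ∣ d → Fc.yy N m < p) ∧ (N : ℝ) ^ (1 - 1 / 10 : ℝ) ≤ d ∧
        (d : ℝ) ≤ (N : ℝ) ^ (1 - δ) := by
        by_contra hn
        exact c1 ⟨hB0, hBN, hn⟩
      obtain ⟨d, hd0, hdB, hdp, hd1, hd2⟩ := hr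
      refine ⟨d, hd0, hdB, Nat.le_floor hd2, hdp, ?_⟩
      have h1 : ((N : ℝ) ^ (1 - 1 / 10 : ℝ)) ^ 10 = (N : ℝ) ^ 9 := by
        rw [← Real.rpow_natCast, ← Real.rpow_mul hNR.le, ← Real.rpow_natCast]
        congr 1
        norm_num
      have h2 : (N : ℝ) ^ 9 ≤ (d : ℝ) ^ 10 := by
        rw [← h1]
        exact pow_le_pow_left₀ (Real.rpow_nonneg hNR.le _) hd1 10
      exact_mod_cast h2
    · by_contra hn
      apply c2
      refine ⟨hB0, hBN, fun p hp hpp hp2 hpB => hn ⟨p, hp, hpp, hp2, hpB⟩⟩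
    · intro hn
      exact c3 ⟨hB0, hBN, hn⟩
  have hTfin : (T1 ∪ (T2 ∪ T3)).Finite := by
    apply (Set.finite_Icc 0 N).subset
    intro B hB
    rcases hB with h | h | h <;> exact ⟨Nat.zero_le _, h.2.1⟩
  have hScard : (S.ncard : ℝ) ≤ (3 * ε / 40) * N := by
    have h1 := Set.ncard_le_ncard hSsub hTfin
    have h2 := Set.ncard_union_le T1 (T2 ∪ T3)
    have h3 := Set.ncard_union_le T2 T3
    have h6 : S.ncard ≤ T1.ncard + (T2.ncard + T3.ncard) := by omega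
    have h7 : (S.ncard : ℝ) ≤ T1.ncard + (T2.ncard + T3.ncard) := by exact_mod_cast h6
    linarith
  -- the count
  have k6R : ((BadC N m Q D).ncard : ℝ) ≤ ε / 8 * (N : ℝ) ^ 2 := by
    have h1 : ((BadC N m Q D).ncard : ℝ) ≤ N * (((Q : ℝ) + 1) * (((Q : ℝ) + 1) * (D * 2))) * (Q : ℝ) ^ m := by
      exact_mod_cast k6
    have hQ1 : (Q : ℝ) + 1 ≤ 2 * 27 * L ^ 3 := by
      have : (1 : ℝ) ≤ L ^ 3 := one_le_pow₀ hL1
      linarith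
    have hQ2 : (Q : ℝ) ≤ 2 * 27 * L ^ 3 := by linarith
    calc ((BadC N m Q D).ncard : ℝ) ≤ _ := h1
      _ ≤ N * ((2 * 27 * L ^ 3) * ((2 * 27 * L ^ 3) * ((N : ℝ) ^ (1 - δ) * 2))) *
            (2 * 27 * L ^ 3) ^ m := by gcongr
      _ = (ε / 8) * (N * (N : ℝ) ^ (1 - δ)) * (16 * (2 * 27) ^ (m + 2) / ε * L ^ (3 * (m + 2))) := by
          field_simp
          ring
      _ ≤ (ε / 8) * (N * (N : ℝ) ^ (1 - δ)) * (N : ℝ) ^ δ := by gcongr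
      _ = (ε / 8) * (N * ((N : ℝ) ^ (1 - δ) * (N : ℝ) ^ δ)) := by ring
      _ = _ := by
          rw [← Real.rpow_add hNR, sub_add_cancel, Real.rpow_one]
          ring
  have hsub := all_subset (N := N) (m := m) (D := D) (P₀ := P₀) (Q := Q) hQbd
  have hIcc : (Set.Icc 1 N).ncard = N := by
    rw [← Finset.coe_Icc, Set.ncard_coe_finset, Nat.card_Icc, Nat.add_sub_cancel]
  have hExcfin : (Gc.Exc N).Finite := by
    apply ((Set.finite_Icc 0 N).prod (Set.finite_Icc 0 N)).subset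
    rintro ⟨A, B⟩ h
    exact ⟨⟨Nat.zero_le _, h.2.1⟩, ⟨Nat.zero_le _, h.2.2.2.1⟩⟩
  have hNulfin : (Nul ∩ (Set.Ioc 0 (0 + N) ×ˢ Set.Ioc 0 (0 + N))).Finite :=
    (Beal.box_finite 0 0 N N).subset Set.inter_subset_right
  have hBBfin : (BadC N m Q D ∪ Prod.swap '' BadC N m Q D).Finite := hBadfin.union (hBadfin.image _)
  have hfin : ((S ×ˢ Set.Icc 1 N) ∪ ((Set.Icc 1 N ×ˢ S) ∪ (Gc.Exc N ∪
        ((Nul ∩ (Set.Ioc 0 (0 + N) ×ˢ Set.Ioc 0 (0 + N))) ∪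
          (BadC N m Q D ∪ Prod.swap '' BadC N m Q D))))).Finite :=
    (hSfin.prod (Set.finite_Icc 1 N)).union (((Set.finite_Icc 1 N).prod hSfin).union
      (hExcfin.union (hNulfin.union hBBfin)))
  have h1 := Set.ncard_le_ncard hsub hfin
  have h2 := Set.ncard_union_le (S ×ˢ Set.Icc 1 N) ((Set.Icc 1 N ×ˢ S) ∪ (Gc.Exc N ∪
        ((Nul ∩ (Set.Ioc 0 (0 + N) ×ˢ Set.Ioc 0 (0 + N))) ∪
          (BadC N m Q D ∪ Prod.swap '' BadC N m Q D))))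
  have h3 := Set.ncard_union_le (Set.Icc 1 N ×ˢ S) (Gc.Exc N ∪
        ((Nul ∩ (Set.Ioc 0 (0 + N) ×ˢ Set.Ioc 0 (0 + N))) ∪
          (BadC N m Q D ∪ Prod.swap '' BadC N m Q D)))
  have h4 := Set.ncard_union_le (Gc.Exc N)
        ((Nul ∩ (Set.Ioc 0 (0 + N) ×ˢ Set.Ioc 0 (0 + N))) ∪
          (BadC N m Q D ∪ Prod.swap '' BadC N m Q D))
  have h5 := Set.ncard_union_le (Nul ∩ (Set.Ioc 0 (0 + N) ×ˢ Set.Ioc 0 (0 + N)))
          (BadC N m Q D ∪ Prod.swap '' BadC N m Q D)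
  have h6 := Set.ncard_union_le (BadC N m Q D) (Prod.swap '' BadC N m Q D)
  have h7 : (Prod.swap '' BadC N m Q D).ncard ≤ (BadC N m Q D).ncard := Set.ncard_image_le hBadfin
  rw [Set.ncard_prod, hIcc] at h2
  rw [Set.ncard_prod, hIcc] at h3
  have h8 : (All N).ncard ≤ S.ncard * N + (N * S.ncard + ((Gc.Exc N).ncard +
      ((Nul ∩ (Set.Ioc 0 (0 + N) ×ˢ Set.Ioc 0 (0 + N))).ncard +
        ((BadC N m Q D).ncard + (BadC N m Q D).ncard)))) :=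
    h1.trans (h2.trans (Nat.add_le_add_left (h3.trans (Nat.add_le_add_left (h4.trans
      (Nat.add_le_add_left (h5.trans (Nat.add_le_add_left (h6.trans
        (Nat.add_le_add_left h7 _)) _)) _)) _)) _))
  have h9 : ((All N).ncard : ℝ) ≤ S.ncard * N + (N * S.ncard + ((Gc.Exc N).ncard +
      ((Nul ∩ (Set.Ioc 0 (0 + N) ×ˢ Set.Ioc 0 (0 + N))).ncard +
        ((BadC N m Q D).ncard + (BadC N m Q D).ncard)))) := by exact_mod_cast h8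
  calc ((All N).ncard : ℝ) ≤ _ := h9
    _ ≤ (3 * ε / 40 * N) * N + (N * (3 * ε / 40 * N) + (ε / 8 * (N : ℝ) ^ 2 + (ε / 8 * (N * N) +
        (ε / 8 * (N : ℝ) ^ 2 + ε / 8 * (N : ℝ) ^ 2)))) := by gcongr
    _ = (13 / 20) * (ε * (N : ℝ) ^ 2) := by ring
    _ ≤ ε * (N : ℝ) ^ 2 := by
        have : 0 ≤ ε * (N : ℝ) ^ 2 := by positivity
        linarith

end Pool.Agent.H374R2.T
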